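import Mathlib

set_option autoImplicit false

/-!
Sums over arithmetic progressions and their growth.
-/

namespace Pool.Agent.R404.TC

open Finset

/-- the sum of the values of `N` at `t`, `t - d`, `t - 2 d`, ... -/
def S {M : Type} [AddCommMonoid M] (d : ℕ) (N : ℕ → M) (t : ℕ) : M :=
  ∑ a ∈ range (t / d + 1), N (t - a * d)

theorem S_lt {M : Type} [AddCommMonoid M] {d : ℕ} (N : ℕ → M) {t : ℕ} (h : t < d) :
    S d N t = N t := by
  unfold S
  rw [Nat.div_eq_of_lt h]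
  simp

theorem S_ge {M : Type} [AddCommMonoid M] {d : ℕ} (hd : 0 < d) (N : ℕ → M) {t : ℕ} (h : d ≤ t) :
    S d N t = N t + S d N (t - d) := by
  unfold S
  rw [Nat.div_eq_sub_div hd h, Finset.sum_range_succ' _ ((t - d) / d + 1), add_comm]
  simp only [Nat.zero_mul, Nat.sub_zero]
  congr 1
  refine Finset.sum_congr rfl fun a _ => ?_
  congr 1
  rw [Nat.sub_sub, Nat.succ_mul, Nat.add_comm]

/-- the weighted sum -/
def T (d : ℕ) (N : ℕ → ℕ) (t : ℕ) : ℕ := ∑ a ∈ range (t / d + 1), a * N (t - a * d)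

theorem T_lt {d : ℕ} (N : ℕ → ℕ) {t : ℕ} (h : t < d) : T d N t = 0 := by
  unfold T
  rw [Nat.div_eq_of_lt h]
  simp

theorem T_ge {d : ℕ} (hd : 0 < d) (N : ℕ → ℕ) {t : ℕ} (h : d ≤ t) :
    T d N t = T d N (t - d) + S d N (t - d) := by
  unfold T S
  rw [Nat.div_eq_sub_div hd h, Finset.sum_range_succ' _ ((t - d) / d + 1)]
  simp only [Nat.zero_mul, Nat.add_zero, ← Finset.sum_add_distrib]
  refine Finset.sum_congr rfl fun a _ => ?_
  have : t - (a + 1) * d = t - d - a * d := by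
    rw [Nat.sub_sub, Nat.succ_mul, Nat.add_comm]
  rw [this]
  ring

theorem SS_eq {d : ℕ} (hd : 0 < d) (N : ℕ → ℕ) (t : ℕ) :
    S d (S d N) t = S d N t + T d N t := by
  induction t using Nat.strong_induction_on with
  | _ t ih =>
    by_cases h : t < d
    · rw [S_lt _ h, T_lt _ h, add_zero]
    · push Not at h
      rw [S_ge hd (S d N) h, T_ge hd N h, ih (t - d) (by omega)]
      ring

theorem S_cast (d : ℕ) (N : ℕ → ℕ) (t : ℕ) :
    ((S d N t : ℕ) : ℝ) = S d (fun s => (N s : ℝ)) t := by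
  unfold S
  push_cast
  rfl

theorem pow_up {x y : ℝ} (hy : 0 ≤ y) (hxy : y ≤ x) (p : ℕ) :
    x ^ (p + 1) - y ^ (p + 1) ≤ (p + 1) * (x - y) * x ^ p := by
  induction p with
  | zero => simp
  | succ p ih =>
    have hx : 0 ≤ x := hy.trans hxy
    have h1 : x ^ (p + 1 + 1) - y ^ (p + 1 + 1) =
        x * (x ^ (p + 1) - y ^ (p + 1)) + (x - y) * y ^ (p + 1) := by ring
    have h2 := mul_le_mul_of_nonneg_left ih hx
    have h3 : (x - y) * y ^ (p + 1) ≤ (x - y) * x ^ (p + 1) :=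
      mul_le_mul_of_nonneg_left (pow_le_pow_left₀ hy hxy _) (by linarith)
    push_cast
    rw [h1]
    calc _ ≤ x * ((p + 1) * (x - y) * x ^ p) + (x - y) * x ^ (p + 1) := add_le_add h2 h3
      _ = _ := by ring

theorem pow_low {x y : ℝ} (hy : 0 ≤ y) (hxy : y ≤ x) (p : ℕ) :
    (p + 1) * (x - y) * y ^ p ≤ x ^ (p + 1) - y ^ (p + 1) := by
  induction p with
  | zero => simp
  | succ p ih =>
    have h1 : x ^ (p + 1 + 1) - y ^ (p + 1 + 1) =
        y * (x ^ (p + 1) - y ^ (p + 1)) + (x - y) * x ^ (p + 1) := by ring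
    have h2 := mul_le_mul_of_nonneg_left ih hy
    have h3 : (x - y) * y ^ (p + 1) ≤ (x - y) * x ^ (p + 1) :=
      mul_le_mul_of_nonneg_left (pow_le_pow_left₀ hy hxy _) (by linarith)
    push_cast
    rw [h1]
    calc _ = y * ((p + 1) * (x - y) * y ^ p) + (x - y) * y ^ (p + 1) := by ring
      _ ≤ _ := add_le_add h2 h3

/-- sums of powers -/
theorem S_pow {d : ℕ} (hd : 0 < d) (p : ℕ) : ∃ C : ℝ, 0 ≤ C ∧ ∀ t : ℕ,
    |S d (fun s : ℕ => (s : ℝ) ^ p) t - (t : ℝ) ^ (p + 1) / ((p + 1) * d)| ≤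
      C * ((t : ℝ) + 1) ^ p := by
  have hdR : (0 : ℝ) < d := by exact_mod_cast hd
  have hpd : (0 : ℝ) < (p + 1) * d := by positivity
  set C0 : ℝ := (d : ℝ) ^ p + (d : ℝ) ^ (p + 1) with hC0
  have hC00 : 0 ≤ C0 := by positivity
  have key : ∀ t : ℕ, S d (fun s : ℕ => (s : ℝ) ^ p) t - (t : ℝ) ^ (p + 1) / ((p + 1) * d) ≤
      C0 + (t : ℝ) ^ p ∧ - C0 ≤
      S d (fun s : ℕ => (s : ℝ) ^ p) t - (t : ℝ) ^ (p + 1) / ((p + 1) * d) := by
    intro t
    induction t using Nat.strong_induction_on with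
    | _ t ih =>
      have ht0 : (0 : ℝ) ≤ t := Nat.cast_nonneg t
      by_cases h : t < d
      · rw [S_lt _ h]
        have htd : (t : ℝ) ≤ d := by exact_mod_cast h.le
        have h1 : (t : ℝ) ^ (p + 1) / ((p + 1) * d) ≤ (d : ℝ) ^ (p + 1) := by
          rw [div_le_iff₀ hpd]
          have h2 : (t : ℝ) ^ (p + 1) ≤ (d : ℝ) ^ (p + 1) := pow_le_pow_left₀ ht0 htd _
          have h3 : (1 : ℝ) ≤ (p + 1) * d := by
            have : (1 : ℝ) ≤ d := by exact_mod_cast hd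
            have : (0 : ℝ) ≤ p := Nat.cast_nonneg p
            nlinarith
          nlinarith [pow_nonneg hdR.le (p + 1)]
        have h2 : 0 ≤ (t : ℝ) ^ (p + 1) / ((p + 1) * d) := by positivity
        have h3 : 0 ≤ (t : ℝ) ^ p := by positivity
        have h4 : 0 ≤ (d : ℝ) ^ p := by positivity
        constructor <;> linarith
      · push Not at h
        obtain ⟨i1, i2⟩ := ih (t - d) (by omega)
        rw [S_ge hd _ h]
        have hc : ((t - d : ℕ) : ℝ) = t - d := by rw [Nat.cast_sub h]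
        rw [hc] at i1 i2
        have hy0 : (0 : ℝ) ≤ t - d := by
          have : (d : ℝ) ≤ t := by exact_mod_cast h
          linarith
        have h1 := pow_up hy0 (by linarith : (t : ℝ) - d ≤ t) p
        have h2 := pow_low hy0 (by linarith : (t : ℝ) - d ≤ t) p
        have e : (t : ℝ) - (t - d) = d := by ring
        rw [e] at h1 h2
        have h1' : ((t : ℝ) ^ (p + 1) - (t - d) ^ (p + 1)) / ((p + 1) * d) ≤ (t : ℝ) ^ p := by
          rw [div_le_iff₀ hpd]
          linarith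
        have h2' : ((t : ℝ) - d) ^ p ≤
            ((t : ℝ) ^ (p + 1) - (t - d) ^ (p + 1)) / ((p + 1) * d) := by
          rw [le_div_iff₀ hpd]
          linarith
        rw [sub_div] at h1' h2'
        constructor <;> linarith
  refine ⟨C0 + 1, by positivity, fun t => ?_⟩
  obtain ⟨h1, h2⟩ := key t
  have ht0 : (0 : ℝ) ≤ t := Nat.cast_nonneg t
  have h3 : (t : ℝ) ^ p ≤ ((t : ℝ) + 1) ^ p := pow_le_pow_left₀ ht0 (by linarith) _
  have h4 : (1 : ℝ) ≤ ((t : ℝ) + 1) ^ p := one_le_pow₀ (by linarith)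
  rw [abs_le]
  constructor
  · nlinarith
  · nlinarith

theorem S_abs_le {d : ℕ} (e : ℕ → ℝ) (B : ℝ) (t : ℕ)
    (h : ∀ s ≤ t, |e s| ≤ B) : |S d e t| ≤ (t + 1) * B := by
  unfold S
  refine (Finset.abs_sum_le_sum_abs _ _).trans ?_
  refine (Finset.sum_le_sum fun a _ => h (t - a * d) (Nat.sub_le _ _)).trans ?_
  rw [Finset.sum_const, card_range, nsmul_eq_mul]
  have hB : 0 ≤ B := (abs_nonneg _).trans (h t le_rfl)
  refine mul_le_mul_of_nonneg_right ?_ hB
  push_cast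
  have : ((t / d : ℕ) : ℝ) ≤ t := by exact_mod_cast Nat.div_le_self t d
  linarith

theorem S_sub (d : ℕ) (N M : ℕ → ℝ) (t : ℕ) :
    S d (fun s => N s - M s) t = S d N t - S d M t := by
  unfold S
  rw [Finset.sum_sub_distrib]

theorem S_mul (d : ℕ) (c : ℝ) (N : ℕ → ℝ) (t : ℕ) :
    S d (fun s => c * N s) t = c * S d N t := by
  unfold S
  rw [Finset.mul_sum]

/-- the growth of the sums -/
theorem S_grow {d : ℕ} (hd : 0 < d) (q : ℕ) (N : ℕ → ℝ) (κ E : ℝ)
    (h : ∀ s : ℕ, |N s - κ * (s : ℝ) ^ (q + 1)| ≤ E * ((s : ℝ) + 1) ^ q) :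
    ∃ E' : ℝ, ∀ t : ℕ, |S d N t - κ / ((q + 2) * d) * (t : ℝ) ^ (q + 2)| ≤
      E' * ((t : ℝ) + 1) ^ (q + 1) := by
  obtain ⟨C, hC0, hC⟩ := S_pow hd (q + 1)
  have hE : 0 ≤ E := by
    have := (abs_nonneg _).trans (h 0)
    simpa using this
  refine ⟨E + |κ| * C, fun t => ?_⟩
  have h1 : |S d (fun s => N s - κ * (s : ℝ) ^ (q + 1)) t| ≤ (t + 1) * (E * ((t : ℝ) + 1) ^ q) := by
    refine S_abs_le _ _ _ fun s hs => (h s).trans ?_
    have : (s : ℝ) ≤ t := by exact_mod_cast hs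
    have h2 : ((s : ℝ) + 1) ^ q ≤ ((t : ℝ) + 1) ^ q :=
      pow_le_pow_left₀ (by positivity) (by linarith) _
    exact mul_le_mul_of_nonneg_left h2 hE
  rw [S_sub, S_mul] at h1
  have h2 := hC t
  have h3 : |κ * (S d (fun s : ℕ => (s : ℝ) ^ (q + 1)) t -
      (t : ℝ) ^ (q + 1 + 1) / (((q + 1 : ℕ) + 1) * d))| ≤ |κ| * (C * ((t : ℝ) + 1) ^ (q + 1)) := by
    rw [abs_mul]
    exact mul_le_mul_of_nonneg_left h2 (abs_nonneg _)
  have h4 : S d N t - κ / ((q + 2) * d) * (t : ℝ) ^ (q + 2) =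
      (S d N t - κ * S d (fun s : ℕ => (s : ℝ) ^ (q + 1)) t) +
      κ * (S d (fun s : ℕ => (s : ℝ) ^ (q + 1)) t -
      (t : ℝ) ^ (q + 1 + 1) / (((q + 1 : ℕ) + 1) * d)) := by
    push_cast
    ring
  rw [h4]
  refine (abs_add_le _ _).trans ?_
  calc _ ≤ (t + 1) * (E * ((t : ℝ) + 1) ^ q) + |κ| * (C * ((t : ℝ) + 1) ^ (q + 1)) :=
        add_le_add h1 h3
    _ = _ := by ring

/-- the first step -/
theorem S_base {d : ℕ} (hd : 0 < d) (c : ℕ → ℕ) (δ s1 : ℕ) (hc : ∀ s, s1 ≤ s → c s = δ) :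
    ∃ E : ℝ, ∀ t : ℕ, |((S d c t : ℕ) : ℝ) - δ / d * (t : ℝ) ^ 1| ≤ E * ((t : ℝ) + 1) ^ 0 := by
  set e : ℕ → ℝ := fun s => (c s : ℝ) - δ with he
  have h1 : ∀ t : ℕ, |S d e t| ≤ ∑ s ∈ range (t + 1), |e s| := by
    intro t
    induction t using Nat.strong_induction_on with
    | _ t ih =>
      by_cases h : t < d
      · rw [S_lt _ h]
        exact Finset.single_le_sum (f := fun s => |e s|) (fun _ _ => abs_nonneg _)
          (Finset.self_mem_range_succ t)
      · push Not at h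
        rw [S_ge hd _ h, Finset.sum_range_succ, add_comm]
        refine (abs_add_le _ _).trans (add_le_add ((ih (t - d) (by omega)).trans ?_) le_rfl)
        refine Finset.sum_le_sum_of_subset_of_nonneg (Finset.range_subset_range.2 (by omega)) ?_
        intro _ _ _
        exact abs_nonneg _
  have h2 : ∀ t : ℕ, ∑ s ∈ range (t + 1), |e s| ≤ ∑ s ∈ range s1, |e s| := by
    intro t
    by_cases h : t + 1 ≤ s1
    · refine Finset.sum_le_sum_of_subset_of_nonneg (Finset.range_subset_range.2 h) ?_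
      intro _ _ _
      exact abs_nonneg _
    · push Not at h
      refine le_of_eq (Finset.sum_subset (Finset.range_subset_range.2 h.le) ?_).symm
      intro s _ hs
      rw [Finset.mem_range, not_lt] at hs
      rw [he]
      simp only
      rw [hc s hs]
      simp
  refine ⟨∑ s ∈ range s1, |e s| + δ, fun t => ?_⟩
  have h3 : S d (fun s => (c s : ℝ) - δ) t = ((S d c t : ℕ) : ℝ) - δ * (((t / d : ℕ) : ℝ) + 1) := by
    rw [S_sub, S_cast]
    congr 1
    unfold S
    rw [Finset.sum_const, card_range, nsmul_eq_mul]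
    push_cast
    ring
  have h4 := (h1 t).trans (h2 t)
  rw [he, h3] at h4
  have hdR : (0 : ℝ) < d := by exact_mod_cast hd
  have h5 : ((t / d : ℕ) : ℝ) ≤ t / d := Nat.cast_div_le
  have h6 : (t : ℝ) / d ≤ (t / d : ℕ) + 1 := by
    rw [div_le_iff₀ hdR]
    have := Nat.lt_div_mul_add hd (a := t)
    have h7 : t ≤ (t / d + 1) * d := by rw [Nat.add_mul, Nat.one_mul]; omega
    exact_mod_cast h7
  have hδ : (0 : ℝ) ≤ δ := Nat.cast_nonneg _
  have h8 : |(δ : ℝ) * (((t / d : ℕ) : ℝ) + 1) - δ / d * (t : ℝ) ^ 1| ≤ (δ : ℝ) := by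
    have e1 : (δ : ℝ) * (((t / d : ℕ) : ℝ) + 1) - δ / d * (t : ℝ) ^ 1 =
        δ * (((t / d : ℕ) : ℝ) + 1 - t / d) := by
      rw [pow_one]
      field_simp
    rw [e1, abs_mul, abs_of_nonneg hδ]
    have h9 : |((t / d : ℕ) : ℝ) + 1 - t / d| ≤ 1 := by
      rw [abs_le]
      constructor <;> linarith
    calc _ ≤ (δ : ℝ) * 1 := mul_le_mul_of_nonneg_left h9 hδ
      _ = _ := mul_one _
  have h10 : ((S d c t : ℕ) : ℝ) - δ / d * (t : ℝ) ^ 1 =
      (((S d c t : ℕ) : ℝ) - δ * (((t / d : ℕ) : ℝ) + 1)) +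
      (δ * (((t / d : ℕ) : ℝ) + 1) - δ / d * (t : ℝ) ^ 1) := by ring
  rw [h10, pow_zero, mul_one]
  exact (abs_add_le _ _).trans (add_le_add h4 h8)

/-! ### iterated sums -/

/-- the number of elements of the family -/
def NN (c : ℕ → ℕ) : List ℕ → ℕ → ℕ
  | [] => c
  | d :: l => S d (NN c l)

/-- the sum of the exponents of the form number `p` -/
def WW (c : ℕ → ℕ) : List ℕ → ℕ → ℕ → ℕ
  | [], _ => fun _ => 0
  | d :: l, 0 => T d (NN c l)
  | d :: l, p + 1 => S d (WW c l p)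

/-- the sum of the exponents of the linear form -/
def GG : List ℕ → ℕ → ℕ
  | [] => fun t => t
  | d :: l => S d (GG l)

noncomputable def kap (δ : ℕ) : List ℕ → ℝ
  | [] => δ
  | d :: l => kap δ l / ((l.length + 1) * d)

noncomputable def kg : List ℕ → ℝ
  | [] => 1
  | d :: l => kg l / ((l.length + 2) * d)

theorem kap_pos {δ : ℕ} (hδ : 0 < δ) (l : List ℕ) (hl : ∀ d ∈ l, 0 < d) : 0 < kap δ l := by
  induction l with
  | nil =>
    show (0 : ℝ) < δ
    exact_mod_cast hδ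
  | cons d l ih =>
    have h1 := ih fun e he => hl e (List.mem_cons_of_mem _ he)
    have h2 : (0 : ℝ) < d := by exact_mod_cast hl d List.mem_cons_self
    unfold kap
    positivity

theorem kg_kap (δ : ℕ) (l : List ℕ) (hl : ∀ d ∈ l, 0 < d) :
    kg l * (δ * (l.length + 1)) = kap δ l := by
  induction l with
  | nil => simp [kg, kap]
  | cons d l ih =>
    have h1 := ih fun e he => hl e (List.mem_cons_of_mem _ he)
    have h2 : (0 : ℝ) < d := by exact_mod_cast hl d List.mem_cons_self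
    have h3 : (0 : ℝ) < (l.length : ℝ) + 1 := by positivity
    have h4 : (0 : ℝ) < (l.length : ℝ) + 2 := by positivity
    unfold kg kap
    rw [← h1]
    simp only [List.length_cons]
    push_cast
    field_simp
    ring

theorem NN_grow (c : ℕ → ℕ) (δ s1 : ℕ) (hc : ∀ s, s1 ≤ s → c s = δ) (l : List ℕ) (d : ℕ)
    (hl : ∀ e ∈ d :: l, 0 < e) :
    ∃ E : ℝ, ∀ t : ℕ, |(NN c (d :: l) t : ℝ) - kap δ (d :: l) * (t : ℝ) ^ (l.length + 1)| ≤
      E * ((t : ℝ) + 1) ^ l.length := by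
  induction l generalizing d with
  | nil =>
    obtain ⟨E, hE⟩ := S_base (hl d List.mem_cons_self) c δ s1 hc
    refine ⟨E, fun t => ?_⟩
    have := hE t
    simpa [NN, kap] using this
  | cons d' l ih =>
    obtain ⟨E, hE⟩ := ih d' fun e he => hl e (List.mem_cons_of_mem _ he)
    obtain ⟨E', hE'⟩ := S_grow (hl d List.mem_cons_self) l.length _ _ _ hE
    refine ⟨E', fun t => ?_⟩
    have h1 := hE' t
    rw [← S_cast] at h1
    have h2 : kap δ (d :: d' :: l) = kap δ (d' :: l) / ((l.length + 2) * d) := by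
      rw [kap]
      simp only [List.length_cons]
      push_cast
      ring
    rw [h2]
    exact h1

theorem GG_grow (l : List ℕ) (hl : ∀ e ∈ l, 0 < e) :
    ∃ E : ℝ, ∀ t : ℕ, |(GG l t : ℝ) - kg l * (t : ℝ) ^ (l.length + 1)| ≤
      E * ((t : ℝ) + 1) ^ l.length := by
  induction l with
  | nil => exact ⟨0, fun t => by simp [GG, kg]⟩
  | cons d l ih =>
    obtain ⟨E, hE⟩ := ih fun e he => hl e (List.mem_cons_of_mem _ he)
    obtain ⟨E', hE'⟩ := S_grow (hl d List.mem_cons_self) l.length _ _ _ hE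
    refine ⟨E', fun t => ?_⟩
    have h1 := hE' t
    rw [← S_cast] at h1
    exact h1

theorem WW_grow (c : ℕ → ℕ) (δ s1 : ℕ) (hc : ∀ s, s1 ≤ s → c s = δ) (l : List ℕ) (d : ℕ)
    (hl : ∀ e ∈ d :: l, 0 < e) (p : ℕ) (hp : p < (d :: l).length) :
    ∃ E : ℝ, ∀ t : ℕ, |(WW c (d :: l) p t : ℝ) -
      kap δ (d :: l) / ((l.length + 2) * (d :: l)[p]) * (t : ℝ) ^ (l.length + 2)| ≤
      E * ((t : ℝ) + 1) ^ (l.length + 1) := by
  induction l generalizing d p with
  | nil =>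
    have hp0 : p = 0 := by simpa using hp
    subst hp0
    obtain ⟨E, hE⟩ := NN_grow c δ s1 hc [] d hl
    obtain ⟨E', hE'⟩ := S_grow (hl d List.mem_cons_self) 0 _ _ _ hE
    refine ⟨E' + (E + |kap δ [d]|), fun t => ?_⟩
    have h1 := hE' t
    have h2 := hE t
    have h3 := SS_eq (hl d List.mem_cons_self) c t
    have h4 : (WW c [d] 0 t : ℝ) = S d (fun s => (NN c [d] s : ℝ)) t - NN c [d] t := by
      rw [← S_cast]
      have h5 : S d (NN c [d]) t = S d c t + T d c t := h3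
      have h6 : WW c [d] 0 t = T d c t := rfl
      have h7 : NN c [d] t = S d c t := rfl
      rw [h5, h6, h7]
      push_cast
      ring
    have ht0 : (0 : ℝ) ≤ t := Nat.cast_nonneg t
    rw [h4]
    simp only [List.length_nil, List.getElem_cons_zero] at h1 h2 ⊢
    push_cast at h1 h2 ⊢
    have h8 : |(NN c [d] t : ℝ)| ≤ (E + |kap δ [d]|) * ((t : ℝ) + 1) ^ (0 + 1) := by
      have e1 : (NN c [d] t : ℝ) = (NN c [d] t - kap δ [d] * (t : ℝ) ^ (0 + 1)) +
          kap δ [d] * (t : ℝ) ^ (0 + 1) := by ring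
      rw [e1]
      refine (abs_add_le _ _).trans ?_
      rw [abs_mul, abs_of_nonneg (pow_nonneg ht0 (0 + 1))]
      have hE0 : 0 ≤ E := by
        have := (abs_nonneg _).trans h2
        simpa using this
      have e2 : (t : ℝ) ^ (0 + 1) ≤ ((t : ℝ) + 1) ^ (0 + 1) := by
        rw [zero_add, pow_one, pow_one]; linarith
      have e3 := mul_le_mul_of_nonneg_left e2 (abs_nonneg (kap δ [d]))
      have e4 : E * ((t : ℝ) + 1) ^ 0 ≤ E * ((t : ℝ) + 1) ^ (0 + 1) := by
        rw [zero_add, pow_one, pow_zero]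
        nlinarith
      linarith
    have h9 : S d (fun s => (NN c [d] s : ℝ)) t - (NN c [d] t : ℝ) -
        kap δ [d] / ((0 + 2) * d) * (t : ℝ) ^ (0 + 2) =
        (S d (fun s => (NN c [d] s : ℝ)) t - kap δ [d] / ((0 + 2) * d) * (t : ℝ) ^ (0 + 2)) +
        (-(NN c [d] t : ℝ)) := by ring
    rw [h9]
    refine (abs_add_le _ _).trans ?_
    rw [abs_neg]
    calc _ ≤ E' * ((t : ℝ) + 1) ^ (0 + 1) + (E + |kap δ [d]|) * ((t : ℝ) + 1) ^ (0 + 1) :=
          add_le_add h1 h8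
      _ = _ := by ring
  | cons d' l ih =>
    rcases p with _ | p
    · obtain ⟨E, hE⟩ := NN_grow c δ s1 hc (d' :: l) d hl
      obtain ⟨E', hE'⟩ := S_grow (hl d List.mem_cons_self) (d' :: l).length _ _ _ hE
      refine ⟨E' + (E + |kap δ (d :: d' :: l)|), fun t => ?_⟩
      have h1 := hE' t
      have h2 := hE t
      have h4 : (WW c (d :: d' :: l) 0 t : ℝ) =
          S d (fun s => (NN c (d :: d' :: l) s : ℝ)) t - NN c (d :: d' :: l) t := by
        rw [← S_cast]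
        have h5 : S d (NN c (d :: d' :: l)) t = S d (NN c (d' :: l)) t + T d (NN c (d' :: l)) t :=
          SS_eq (hl d List.mem_cons_self) (NN c (d' :: l)) t
        have h6 : WW c (d :: d' :: l) 0 t = T d (NN c (d' :: l)) t := rfl
        have h7 : NN c (d :: d' :: l) t = S d (NN c (d' :: l)) t := rfl
        rw [h5, h6, h7]
        push_cast
        ring
      have ht0 : (0 : ℝ) ≤ t := Nat.cast_nonneg t
      rw [h4]
      simp only [List.getElem_cons_zero]
      set K := kap δ (d :: d' :: l) with hK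
      set L := (d' :: l).length with hL
      set n := (NN c (d :: d' :: l) t : ℝ) with hn
      have hE0 : 0 ≤ E := by
        have := (abs_nonneg _).trans (hE 0)
        simpa using this
      have e0 : (1 : ℝ) ≤ (t : ℝ) + 1 := by linarith
      have h8 : |n| ≤ (E + |K|) * ((t : ℝ) + 1) ^ (L + 1) := by
        have e1 : n = (n - K * (t : ℝ) ^ (L + 1)) + K * (t : ℝ) ^ (L + 1) := by ring
        rw [e1]
        refine (abs_add_le _ _).trans ?_
        rw [abs_mul, abs_of_nonneg (pow_nonneg ht0 (L + 1))]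
        have e2 : (t : ℝ) ^ (L + 1) ≤ ((t : ℝ) + 1) ^ (L + 1) :=
          pow_le_pow_left₀ ht0 (by linarith) _
        have e3 := mul_le_mul_of_nonneg_left e2 (abs_nonneg K)
        have e4 : E * ((t : ℝ) + 1) ^ L ≤ E * ((t : ℝ) + 1) ^ (L + 1) :=
          mul_le_mul_of_nonneg_left (pow_le_pow_right₀ e0 (by omega)) hE0
        linarith
      have h9 : S d (fun s => (NN c (d :: d' :: l) s : ℝ)) t - n -
          K / ((L + 2) * d) * (t : ℝ) ^ (L + 2) =
          (S d (fun s => (NN c (d :: d' :: l) s : ℝ)) t -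
          K / ((L + 2) * d) * (t : ℝ) ^ (L + 2)) + (- n) := by ring
      rw [h9]
      refine (abs_add_le _ _).trans ?_
      rw [abs_neg]
      calc _ ≤ E' * ((t : ℝ) + 1) ^ (L + 1) + (E + |K|) * ((t : ℝ) + 1) ^ (L + 1) :=
            add_le_add h1 h8
        _ = _ := by ring
    · have hp' : p < (d' :: l).length := by simpa using hp
      obtain ⟨E, hE⟩ := ih d' (fun e he => hl e (List.mem_cons_of_mem _ he)) p hp'
      obtain ⟨E', hE'⟩ := S_grow (hl d List.mem_cons_self) (l.length + 1) _ _ _ hE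
      refine ⟨E', fun t => ?_⟩
      have h1 := hE' t
      rw [← S_cast] at h1
      have h0 : kap δ (d :: d' :: l) = kap δ (d' :: l) / ((l.length + 2) * d) := by
        rw [kap]
        simp only [List.length_cons]
        push_cast
        ring
      have h2 : kap δ (d :: d' :: l) / (((d' :: l).length + 2) * ((d :: d' :: l)[p + 1] : ℕ)) =
          kap δ (d' :: l) / ((l.length + 2) * ((d' :: l)[p] : ℕ)) /
            (((l.length + 1 : ℕ) + 2) * d) := by
        rw [h0]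
        simp only [List.length_cons, List.getElem_cons_succ]
        rw [div_div, div_div]
        congr 1
        ring
      rw [h2]
      exact h1

theorem compare {r : ℕ} (X Y : ℕ → ℝ) (κ E1 E2 : ℝ) (hκ : 0 < κ)
    (hX : ∀ t : ℕ, |X t - κ * (t : ℝ) ^ (r + 1)| ≤ E1 * ((t : ℝ) + 1) ^ r)
    (hY : ∀ t : ℕ, |Y t - κ * (t : ℝ) ^ (r + 1)| ≤ E2 * ((t : ℝ) + 1) ^ r) (ε : ℝ) (hε : 0 < ε)
    (hε1 : ε ≤ 1) : ∃ t0 : ℕ, ∀ t, t0 ≤ t → (1 - ε) * X t ≤ Y t := by
  have h1 : 0 ≤ E1 := by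
    have := (abs_nonneg _).trans (hX 0)
    simpa using this
  have h2 : 0 ≤ E2 := by
    have := (abs_nonneg _).trans (hY 0)
    simpa using this
  obtain ⟨t1, ht1⟩ := exists_nat_ge ((E1 + E2) * 2 ^ r / (ε * κ))
  refine ⟨max t1 1, fun t ht => ?_⟩
  have h3 : (t1 : ℝ) ≤ t := by exact_mod_cast (le_max_left _ _).trans ht
  have h4 : (1 : ℝ) ≤ t := by exact_mod_cast (le_max_right _ _).trans ht
  have h5 : (E1 + E2) * 2 ^ r ≤ ε * κ * t := by
    have := ht1.trans h3
    rw [div_le_iff₀ (by positivity)] at this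
    linarith
  have h6 : ((t : ℝ) + 1) ^ r ≤ 2 ^ r * (t : ℝ) ^ r := by
    rw [← mul_pow]
    exact pow_le_pow_left₀ (by linarith) (by linarith) _
  have h7 := (abs_le.1 (hX t)).2
  have h8 := (abs_le.1 (hY t)).1
  have h9 : (E1 + E2) * ((t : ℝ) + 1) ^ r ≤ ε * κ * (t : ℝ) ^ (r + 1) := by
    calc (E1 + E2) * ((t : ℝ) + 1) ^ r ≤ (E1 + E2) * (2 ^ r * (t : ℝ) ^ r) :=
          mul_le_mul_of_nonneg_left h6 (by linarith)
      _ = ((E1 + E2) * 2 ^ r) * (t : ℝ) ^ r := by ring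
      _ ≤ (ε * κ * t) * (t : ℝ) ^ r := mul_le_mul_of_nonneg_right h5 (by positivity)
      _ = _ := by ring
  have h10 : (1 - ε) * X t ≤ (1 - ε) * (κ * (t : ℝ) ^ (r + 1) + E1 * ((t : ℝ) + 1) ^ r) :=
    mul_le_mul_of_nonneg_left (by linarith) (by linarith)
  have h11 : 0 ≤ ε * (E1 * ((t : ℝ) + 1) ^ r) := by positivity
  nlinarith

/-- the comparison of the sums -/
theorem sums (c c' : ℕ → ℕ) (δ s1 s2 : ℕ) (hδ : 0 < δ) (hc : ∀ s, s1 ≤ s → c s = δ)
    (hc' : ∀ s, s2 ≤ s → c' s = δ) (l : List ℕ) (hl : ∀ e ∈ l, 0 < e) (hl0 : l ≠ [])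
    (ε : ℝ) (hε : 0 < ε) (hε1 : ε ≤ 1) :
    ∃ t0 : ℕ, ∀ t, t0 ≤ t →
      (∀ (p : ℕ) (hp : p < l.length), (1 - ε) * (t * (NN c l t : ℝ)) ≤
        (l.length + 1) * l[p] * WW c' l p t) ∧
      (1 - ε) * (t * (NN c l t : ℝ)) ≤ (l.length + 1) * δ * GG l t := by
  rcases l with _ | ⟨d, l⟩
  · exact absurd rfl hl0
  have hκ := kap_pos hδ (d :: l) hl
  obtain ⟨E, hE⟩ := NN_grow c δ s1 hc l d hl
  have hX : ∀ t : ℕ, |(t : ℝ) * (NN c (d :: l) t : ℝ) -
      kap δ (d :: l) * (t : ℝ) ^ ((l.length + 1) + 1)| ≤ E * ((t : ℝ) + 1) ^ (l.length + 1) := by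
    intro t
    have ht0 : (0 : ℝ) ≤ t := Nat.cast_nonneg t
    have e1 : (t : ℝ) * (NN c (d :: l) t : ℝ) - kap δ (d :: l) * (t : ℝ) ^ ((l.length + 1) + 1) =
      t * ((NN c (d :: l) t : ℝ) - kap δ (d :: l) * (t : ℝ) ^ (l.length + 1)) := by ring
    rw [e1, abs_mul, abs_of_nonneg ht0]
    have h1 := hE t
    have h2 : (0 : ℝ) ≤ E * ((t : ℝ) + 1) ^ l.length := (abs_nonneg _).trans h1
    calc _ ≤ (t : ℝ) * (E * ((t : ℝ) + 1) ^ l.length) := mul_le_mul_of_nonneg_left h1 ht0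
      _ ≤ ((t : ℝ) + 1) * (E * ((t : ℝ) + 1) ^ l.length) :=
          mul_le_mul_of_nonneg_right (by linarith) h2
      _ = _ := by ring
  have hpart : ∀ p : ℕ, ∃ t0 : ℕ, ∀ t, t0 ≤ t → ∀ (hp : p < (d :: l).length),
      (1 - ε) * (t * (NN c (d :: l) t : ℝ)) ≤
        ((d :: l).length + 1) * (d :: l)[p] * WW c' (d :: l) p t := by
    intro p
    by_cases hp : p < (d :: l).length
    · obtain ⟨E2, hE2⟩ := WW_grow c' δ s2 hc' l d hl p hp
      have hdp : (0 : ℝ) < ((d :: l)[p] : ℕ) := by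
        exact_mod_cast hl _ (List.getElem_mem hp)
      have hY : ∀ t : ℕ, |((d :: l).length + 1) * (d :: l)[p] * (WW c' (d :: l) p t : ℝ) -
          kap δ (d :: l) * (t : ℝ) ^ ((l.length + 1) + 1)| ≤
          (((d :: l).length + 1) * (d :: l)[p] * E2) * ((t : ℝ) + 1) ^ (l.length + 1) := by
        intro t
        have h1 := hE2 t
        have e1 : ((d :: l).length + 1) * (d :: l)[p] * (WW c' (d :: l) p t : ℝ) -
            kap δ (d :: l) * (t : ℝ) ^ ((l.length + 1) + 1) =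
            (((d :: l).length + 1) * (d :: l)[p]) * ((WW c' (d :: l) p t : ℝ) -
            kap δ (d :: l) / ((l.length + 2) * (d :: l)[p]) * (t : ℝ) ^ (l.length + 2)) := by
          simp only [List.length_cons]
          push_cast
          field_simp
          ring
        have h2 : (0 : ℝ) ≤ ((d :: l).length + 1) * ((d :: l)[p] : ℕ) := by positivity
        rw [e1, abs_mul, abs_of_nonneg h2]
        exact (mul_le_mul_of_nonneg_left h1 h2).trans (le_of_eq (by ring))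
      obtain ⟨t0, ht0⟩ := compare _ _ _ _ _ hκ hX hY ε hε hε1
      exact ⟨t0, fun t ht _ => ht0 t ht⟩
    · exact ⟨0, fun _ _ h => absurd h hp⟩
  choose t0 ht0 using hpart
  obtain ⟨E3, hE3⟩ := GG_grow (d :: l) hl
  have hY : ∀ t : ℕ, |((d :: l).length + 1) * δ * (GG (d :: l) t : ℝ) -
      kap δ (d :: l) * (t : ℝ) ^ ((l.length + 1) + 1)| ≤
      (((d :: l).length + 1) * δ * E3) * ((t : ℝ) + 1) ^ (l.length + 1) := by
    intro t
    have h1 := hE3 t
    have e1 : ((d :: l).length + 1) * δ * (GG (d :: l) t : ℝ) -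
        kap δ (d :: l) * (t : ℝ) ^ ((l.length + 1) + 1) =
        (((d :: l).length + 1) * δ) * ((GG (d :: l) t : ℝ) -
        kg (d :: l) * (t : ℝ) ^ ((d :: l).length + 1)) := by
      rw [← kg_kap δ (d :: l) hl]
      simp only [List.length_cons]
      ring
    have h2 : (0 : ℝ) ≤ ((d :: l).length + 1) * δ := by positivity
    rw [e1, abs_mul, abs_of_nonneg h2]
    exact (mul_le_mul_of_nonneg_left h1 h2).trans (le_of_eq (by
      simp only [List.length_cons]
      ring))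
  obtain ⟨t1, ht1⟩ := compare _ _ _ _ _ hκ hX hY ε hε hε1
  refine ⟨∑ p ∈ range (d :: l).length, t0 p + t1, fun t ht => ⟨fun p hp => ?_, ?_⟩⟩
  · refine ht0 p t ?_ hp
    have := Finset.single_le_sum (f := t0) (fun _ _ => Nat.zero_le _) (Finset.mem_range.2 hp)
    omega
  · exact ht1 t (by omega)

end Pool.Agent.R404.TC
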