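import Mathlib
import Pool.Agent.R404.TC.Sums

set_option autoImplicit false

/-!
Homogeneous ideals, their local saturations and the dimensions of their graded pieces.
-/

namespace Pool.Agent.R404.TC

open MvPolynomial Finset Module

variable {K : Type} [Field K] {n : ℕ}

/-- homogeneous ideals -/
def HI (J : Ideal (MvPolynomial (Fin n) K)) : Prop :=
  ∀ p ∈ J, ∀ e, homogeneousComponent e p ∈ J

theorem hc_mul_hom (p F : MvPolynomial (Fin n) K) (m e : ℕ) (hF : F.IsHomogeneous m) :
    homogeneousComponent e (p * F) =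
      if m ≤ e then homogeneousComponent (e - m) p * F else 0 := by
  have hp : p * F = ∑ i ∈ range (p.totalDegree + 1), homogeneousComponent i p * F := by
    conv_lhs => rw [← sum_homogeneousComponent p]
    rw [Finset.sum_mul]
  rw [hp, map_sum]
  have h : ∀ i, homogeneousComponent e (homogeneousComponent i p * F) =
      if e = i + m then homogeneousComponent i p * F else 0 := by
    intro i
    have h1 : (homogeneousComponent i p * F).IsHomogeneous (i + m) :=
      (homogeneousComponent_isHomogeneous i p).mul hF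
    rw [homogeneousComponent_of_mem h1]
  simp only [h]
  by_cases hm : m ≤ e
  · rw [if_pos hm]
    have h2 : ∀ i, (if e = i + m then homogeneousComponent i p * F else 0) =
        if e - m = i then homogeneousComponent i p * F else 0 := by
      intro i
      by_cases hi : e - m = i
      · rw [if_pos hi, if_pos (by omega)]
      · rw [if_neg hi, if_neg (by omega)]
    simp only [h2]
    rw [Finset.sum_ite_eq]
    split_ifs with ha
    · rfl
    · rw [homogeneousComponent_eq_zero, zero_mul]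
      rw [Finset.mem_range] at ha
      omega
  · rw [if_neg hm]
    refine Finset.sum_eq_zero fun i _ => ?_
    rw [if_neg (by omega)]

theorem hc_mul_mem {J : Ideal (MvPolynomial (Fin n) K)} (p x : MvPolynomial (Fin n) K)
    (hx : ∀ e, homogeneousComponent e x ∈ J) (e : ℕ) : homogeneousComponent e (p * x) ∈ J := by
  have h1 : p * x = ∑ i ∈ range (x.totalDegree + 1), p * homogeneousComponent i x := by
    conv_lhs => rw [← sum_homogeneousComponent x]
    rw [Finset.mul_sum]
  rw [h1, map_sum]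
  refine Ideal.sum_mem _ fun i _ => ?_
  rw [hc_mul_hom _ _ _ _ (homogeneousComponent_isHomogeneous i x)]
  split_ifs
  · exact J.mul_mem_left _ (hx i)
  · exact J.zero_mem

theorem HI.of_span {s : Set (MvPolynomial (Fin n) K)}
    (hs : ∀ p ∈ s, ∃ e, p.IsHomogeneous e) : HI (Ideal.span s) := by
  intro p hp
  refine Submodule.span_induction (p := fun p _ => ∀ e, homogeneousComponent e p ∈ Ideal.span s)
    ?_ ?_ ?_ ?_ hp
  · intro x hx e
    obtain ⟨m, hm⟩ := hs x hx
    rw [homogeneousComponent_of_mem hm]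
    split_ifs
    · exact Ideal.subset_span hx
    · exact Ideal.zero_mem _
  · intro e
    rw [map_zero]
    exact Ideal.zero_mem _
  · intro x y _ _ hx hy e
    rw [map_add]
    exact Ideal.add_mem _ (hx e) (hy e)
  · intro a x _ hx e
    rw [smul_eq_mul]
    exact hc_mul_mem a x hx e

theorem HI.sup_span {J : Ideal (MvPolynomial (Fin n) K)} (hJ : HI J)
    {f : MvPolynomial (Fin n) K} {d : ℕ} (hf : f.IsHomogeneous d) :
    HI (J ⊔ Ideal.span {f}) := by
  intro p hp e
  obtain ⟨j, hj, w, hw, rfl⟩ := Submodule.mem_sup.1 hp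
  obtain ⟨a, rfl⟩ := Ideal.mem_span_singleton'.1 hw
  rw [map_add]
  refine Ideal.add_mem _ (Ideal.mem_sup_left (hJ j hj e)) (Ideal.mem_sup_right ?_)
  rw [hc_mul_hom _ _ _ _ hf]
  split_ifs
  · exact Ideal.mul_mem_left _ _ (Ideal.mem_span_singleton_self f)
  · exact Ideal.zero_mem _

/-- the elements that belong to `J` locally at the point `y` -/
noncomputable def Loc (J : Ideal (MvPolynomial (Fin n) K)) (y : Fin n → K) :
    Ideal (MvPolynomial (Fin n) K) where
  carrier := {u | ∃ (h : MvPolynomial (Fin n) K) (e : ℕ), h.IsHomogeneous e ∧ eval y h ≠ 0 ∧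
    h * u ∈ J}
  zero_mem' := ⟨1, 0, isHomogeneous_one _ _, by simp, by simp⟩
  add_mem' := by
    rintro u v ⟨h, e, h1, h2, h3⟩ ⟨h', e', h1', h2', h3'⟩
    refine ⟨h * h', e + e', h1.mul h1', ?_, ?_⟩
    · rw [map_mul]
      exact mul_ne_zero h2 h2'
    · have : h * h' * (u + v) = h' * (h * u) + h * (h' * v) := by ring
      rw [this]
      exact J.add_mem (J.mul_mem_left _ h3) (J.mul_mem_left _ h3')
  smul_mem' := by
    rintro c u ⟨h, e, h1, h2, h3⟩
    refine ⟨h, e, h1, h2, ?_⟩
    have : h * (c • u) = c * (h * u) := by rw [smul_eq_mul]; ring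
    rw [this]
    exact J.mul_mem_left _ h3

theorem mem_Loc {J : Ideal (MvPolynomial (Fin n) K)} {y : Fin n → K}
    {u : MvPolynomial (Fin n) K} : u ∈ Loc J y ↔ ∃ (h : MvPolynomial (Fin n) K) (e : ℕ),
      h.IsHomogeneous e ∧ eval y h ≠ 0 ∧ h * u ∈ J := Iff.rfl

/-- the elements that belong to `J` locally at all points of `Y` -/
noncomputable def Sat (J : Ideal (MvPolynomial (Fin n) K)) (Y : Finset (Fin n → K)) :
    Ideal (MvPolynomial (Fin n) K) where
  carrier := {u | ∀ y ∈ Y, u ∈ Loc J y}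
  zero_mem' := fun y _ => (Loc J y).zero_mem
  add_mem' := fun hu hv y hy => (Loc J y).add_mem (hu y hy) (hv y hy)
  smul_mem' := fun c _ hu y hy => (Loc J y).smul_mem c (hu y hy)

theorem mem_Sat {J : Ideal (MvPolynomial (Fin n) K)} {Y : Finset (Fin n → K)}
    {u : MvPolynomial (Fin n) K} : u ∈ Sat J Y ↔ ∀ y ∈ Y, u ∈ Loc J y := Iff.rfl

theorem le_Loc (J : Ideal (MvPolynomial (Fin n) K)) (y : Fin n → K) : J ≤ Loc J y := fun u hu =>
  ⟨1, 0, isHomogeneous_one _ _, by simp, by simpa using hu⟩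

theorem le_Sat (J : Ideal (MvPolynomial (Fin n) K)) (Y : Finset (Fin n → K)) : J ≤ Sat J Y :=
  fun _ hu y _ => le_Loc J y hu

theorem Loc_mono {J J' : Ideal (MvPolynomial (Fin n) K)} (h : J ≤ J') (y : Fin n → K) :
    Loc J y ≤ Loc J' y := by
  rintro u ⟨p, e, h1, h2, h3⟩
  exact ⟨p, e, h1, h2, h h3⟩

theorem Sat_mono {J J' : Ideal (MvPolynomial (Fin n) K)} (h : J ≤ J') (Y : Finset (Fin n → K)) :
    Sat J Y ≤ Sat J' Y := fun _ hu y hy => Loc_mono h y (hu y hy)

theorem HI.sat {J : Ideal (MvPolynomial (Fin n) K)} (hJ : HI J) (Y : Finset (Fin n → K)) :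
    HI (Sat J Y) := by
  intro p hp e y hy
  obtain ⟨h, m, h1, h2, h3⟩ := hp y hy
  refine ⟨h, m, h1, h2, ?_⟩
  have h4 := hJ _ h3 (e + m)
  rw [mul_comm, hc_mul_hom _ _ _ _ h1, if_pos (Nat.le_add_left _ _), Nat.add_sub_cancel,
    mul_comm] at h4
  exact h4

instance finHom (t : ℕ) : Module.Finite K (homogeneousSubmodule (Fin n) K t) :=
  Module.Finite.iff_fg.mpr (homogeneousSubmodule_fg (Fin n) K t)

/-- degree `t` part of an ideal -/
noncomputable def gr (J : Ideal (MvPolynomial (Fin n) K)) (t : ℕ) : Submodule K (MvPolynomial (Fin n) K) :=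
  (J.restrictScalars K) ⊓ homogeneousSubmodule (Fin n) K t

theorem mem_gr {J : Ideal (MvPolynomial (Fin n) K)} {t : ℕ} {p : MvPolynomial (Fin n) K} :
    p ∈ gr J t ↔ p ∈ J ∧ p.IsHomogeneous t := Iff.rfl

theorem gr_le (J : Ideal (MvPolynomial (Fin n) K)) (t : ℕ) :
    gr J t ≤ homogeneousSubmodule (Fin n) K t := inf_le_right

instance finGr (J : Ideal (MvPolynomial (Fin n) K)) (t : ℕ) : Module.Finite K (gr J t) :=
  Submodule.finiteDimensional_of_le (gr_le J t)

theorem rank_gr_le (J : Ideal (MvPolynomial (Fin n) K)) (t : ℕ) :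
    finrank K (gr J t) ≤ finrank K (homogeneousSubmodule (Fin n) K t) :=
  Submodule.finrank_mono (gr_le J t)

/-- the Hilbert function of `J` -/
noncomputable def cc (J : Ideal (MvPolynomial (Fin n) K)) (t : ℕ) : ℕ :=
  finrank K (homogeneousSubmodule (Fin n) K t) - finrank K (gr J t)

theorem cc_zero {J : Ideal (MvPolynomial (Fin n) K)} {t : ℕ}
    (h : ∀ p : MvPolynomial (Fin n) K, p.IsHomogeneous t → p ∈ J) : cc J t = 0 := by
  have h1 : gr J t = homogeneousSubmodule (Fin n) K t :=
    le_antisymm (gr_le J t) fun p hp => ⟨h p hp, hp⟩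
  rw [cc, h1, Nat.sub_self]

theorem cc_congr {J J' : Ideal (MvPolynomial (Fin n) K)} {t : ℕ}
    (h : ∀ p : MvPolynomial (Fin n) K, p.IsHomogeneous t → (p ∈ J ↔ p ∈ J')) :
    cc J t = cc J' t := by
  have h1 : gr J t = gr J' t := by
    ext p
    rw [mem_gr, mem_gr]
    constructor
    · rintro ⟨h1, h2⟩
      exact ⟨(h p h2).1 h1, h2⟩
    · rintro ⟨h1, h2⟩
      exact ⟨(h p h2).2 h1, h2⟩
  rw [cc, cc, h1]

theorem cc_anti {J J' : Ideal (MvPolynomial (Fin n) K)} (h : J ≤ J') (t : ℕ) :
    cc J' t ≤ cc J t := by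
  have h1 : finrank K (gr J t) ≤ finrank K (gr J' t) :=
    Submodule.finrank_mono fun p hp => ⟨h hp.1, hp.2⟩
  unfold cc
  omega

theorem cc_step {J : Ideal (MvPolynomial (Fin n) K)} (hJ : HI J)
    {f : MvPolynomial (Fin n) K} {d : ℕ} (hf : f.IsHomogeneous d) (hf0 : f ≠ 0) (t : ℕ) :
    cc J t ≤ cc (J ⊔ Ideal.span {f}) t + if d ≤ t then cc J (t - d) else 0 := by
  by_cases hd : d ≤ t
  · rw [if_pos hd]
    set V := homogeneousSubmodule (Fin n) K (t - d) with hV
    set m : MvPolynomial (Fin n) K →ₗ[K] MvPolynomial (Fin n) K := LinearMap.mulLeft K f with hm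
    have hinj : Function.Injective m := by
      intro a b hab
      rw [hm] at hab
      exact mul_left_cancel₀ hf0 hab
    set U := V.map m with hU
    set W := (gr J (t - d)).map m with hW
    have hUfr : finrank K U = finrank K V :=
      (Submodule.equivMapOfInjective m hinj V).finrank_eq.symm
    have hWfr : finrank K W = finrank K (gr J (t - d)) :=
      (Submodule.equivMapOfInjective m hinj _).finrank_eq.symm
    have h1 : gr (J ⊔ Ideal.span {f}) t ≤ gr J t ⊔ U := by
      rintro p ⟨hp, hpt⟩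
      obtain ⟨j, hj, w, hw, rfl⟩ := Submodule.mem_sup.1 hp
      obtain ⟨a, rfl⟩ := Ideal.mem_span_singleton'.1 hw
      have h2 : j + a * f = homogeneousComponent t j + f * homogeneousComponent (t - d) a := by
        have h3 : homogeneousComponent t (j + a * f) = j + a * f :=
          homogeneousComponent_eq_self hpt
        rw [map_add, hc_mul_hom _ _ _ _ hf, if_pos hd] at h3
        rw [← h3, mul_comm f]
      rw [h2]
      refine Submodule.add_mem_sup ⟨hJ j hj t, homogeneousComponent_isHomogeneous _ _⟩ ?_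
      exact Submodule.mem_map.2 ⟨_, homogeneousComponent_isHomogeneous _ _, rfl⟩
    have h2 : W ≤ gr J t ⊓ U := by
      rintro p hp
      obtain ⟨q, ⟨hq1, hq2⟩, rfl⟩ := Submodule.mem_map.1 hp
      refine ⟨⟨J.mul_mem_left _ hq1, ?_⟩, Submodule.mem_map.2 ⟨q, hq2, rfl⟩⟩
      have h3 : (f * q).IsHomogeneous (d + (t - d)) := hf.mul hq2
      rw [Nat.add_sub_cancel' hd] at h3
      exact h3
    have hfinU : Module.Finite K U := inferInstance
    have hfin1 : Module.Finite K (gr J t ⊔ U : Submodule K (MvPolynomial (Fin n) K)) :=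
      inferInstance
    have h3 := Submodule.finrank_sup_add_finrank_inf_eq (gr J t) U
    have h4 : finrank K (gr (J ⊔ Ideal.span {f}) t) ≤
        finrank K (gr J t ⊔ U : Submodule K (MvPolynomial (Fin n) K)) := Submodule.finrank_mono h1
    have h5 : finrank K W ≤ finrank K (gr J t ⊓ U : Submodule K (MvPolynomial (Fin n) K)) :=
      Submodule.finrank_mono h2
    have h6 := rank_gr_le J (t - d)
    have h7 := rank_gr_le J t
    have h8 := rank_gr_le (J ⊔ Ideal.span {f}) t
    rw [hUfr, hV] at h3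
    rw [hWfr] at h5
    unfold cc
    generalize finrank K (homogeneousSubmodule (Fin n) K (t - d)) = x1 at *
    generalize finrank K (homogeneousSubmodule (Fin n) K t) = x2 at *
    generalize finrank K (gr J t) = x3 at *
    generalize finrank K (gr J (t - d)) = x4 at *
    generalize finrank K (gr (J ⊔ Ideal.span {f}) t) = x5 at *
    generalize finrank K (gr J t ⊔ U : Submodule K (MvPolynomial (Fin n) K)) = x6 at *
    generalize finrank K (gr J t ⊓ U : Submodule K (MvPolynomial (Fin n) K)) = x7 at *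
    clear hUfr hWfr hfinU hfin1
    omega
  · rw [if_neg hd, add_zero]
    refine le_of_eq (cc_congr fun p hpt => ⟨fun h => Ideal.mem_sup_left h, fun hp => ?_⟩)
    obtain ⟨j, hj, w, hw, rfl⟩ := Submodule.mem_sup.1 hp
    obtain ⟨a, rfl⟩ := Ideal.mem_span_singleton'.1 hw
    have h3 : homogeneousComponent t (j + a * f) = j + a * f :=
      homogeneousComponent_eq_self hpt
    rw [map_add, hc_mul_hom _ _ _ _ hf, if_neg hd, add_zero] at h3
    rw [← h3]
    exact hJ j hj t

/-- the Hilbert function is bounded by sums of the Hilbert function of a hypersurface section -/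
theorem cc_le_S {J : Ideal (MvPolynomial (Fin n) K)} (hJ : HI J)
    {f : MvPolynomial (Fin n) K} {d : ℕ} (hd : 0 < d) (hf : f.IsHomogeneous d) (hf0 : f ≠ 0)
    (t : ℕ) : cc J t ≤ S d (cc (J ⊔ Ideal.span {f})) t := by
  induction t using Nat.strong_induction_on with
  | _ t ih =>
    have h1 := cc_step hJ hf hf0 t
    by_cases h : t < d
    · rw [if_neg (by omega), add_zero] at h1
      rw [S_lt _ h]
      exact h1
    · push Not at h
      rw [if_pos h] at h1
      rw [S_ge hd _ h]
      have := ih (t - d) (by omega)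
      omega

theorem S_mono (d : ℕ) {N M : ℕ → ℕ} (h : ∀ s, N s ≤ M s) (t : ℕ) : S d N t ≤ S d M t :=
  Finset.sum_le_sum fun _ _ => h _

/-- the final ideal -/
noncomputable def Jf (I : Ideal (MvPolynomial (Fin n) K)) :
    List (MvPolynomial (Fin n) K × ℕ) → Ideal (MvPolynomial (Fin n) K)
  | [] => I
  | x :: l => Jf (I ⊔ Ideal.span {x.1}) l

theorem cc_le_NN (l : List (MvPolynomial (Fin n) K × ℕ)) (hl : ∀ x ∈ l, 0 < x.2 ∧
    x.1.IsHomogeneous x.2 ∧ x.1 ≠ 0) (I : Ideal (MvPolynomial (Fin n) K)) (hI : HI I) (t : ℕ) :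
    cc I t ≤ NN (cc (Jf I l)) (l.map Prod.snd) t := by
  induction l generalizing I t with
  | nil => exact le_rfl
  | cons x l ih =>
    obtain ⟨h1, h2, h3⟩ := hl x List.mem_cons_self
    refine (cc_le_S hI h1 h2 h3 t).trans (S_mono _ (fun s => ?_) t)
    exact ih (fun y hy => hl y (List.mem_cons_of_mem _ hy)) _ (hI.sup_span h2) s

theorem Jf_le (I : Ideal (MvPolynomial (Fin n) K)) (l : List (MvPolynomial (Fin n) K × ℕ)) :
    I ≤ Jf I l := by
  induction l generalizing I with
  | nil => exact le_rfl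
  | cons x l ih => exact le_sup_left.trans (ih _)

theorem HI.jf (l : List (MvPolynomial (Fin n) K × ℕ)) (hl : ∀ x ∈ l, x.1.IsHomogeneous x.2)
    (I : Ideal (MvPolynomial (Fin n) K)) (hI : HI I) : HI (Jf I l) := by
  induction l generalizing I with
  | nil => exact hI
  | cons x l ih =>
    exact ih (fun y hy => hl y (List.mem_cons_of_mem _ hy)) _
      (hI.sup_span (hl x List.mem_cons_self))

/-- eventually constant Hilbert functions -/
theorem cc_const {J : Ideal (MvPolynomial (Fin n) K)} (hJ : HI J)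
    {f : MvPolynomial (Fin n) K} (hf : f.IsHomogeneous 1) (hf0 : f ≠ 0) (N : ℕ)
    (hN : ∀ t, N ≤ t → ∀ p : MvPolynomial (Fin n) K, p.IsHomogeneous t →
      p ∈ J ⊔ Ideal.span {f}) : ∃ δ s1 : ℕ, ∀ s, s1 ≤ s → cc J s = δ := by
  have h1 : ∀ t, N ≤ t → 1 ≤ t → cc J t ≤ cc J (t - 1) := by
    intro t ht h
    have h2 := cc_step hJ hf hf0 t
    rw [if_pos h, cc_zero (hN t ht), zero_add] at h2
    exact h2
  have hanti : ∀ s t, N ≤ s → s ≤ t → cc J t ≤ cc J s := by
    intro s t hs hst
    induction t, hst using Nat.le_induction with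
    | base => exact le_rfl
    | succ t hst ih =>
      have := h1 (t + 1) (by omega) (by omega)
      rw [Nat.add_sub_cancel] at this
      exact this.trans ih
  obtain ⟨s1, hs1, hmin⟩ : ∃ s1, N ≤ s1 ∧ ∀ s, N ≤ s → cc J s1 ≤ cc J s := by
    have hne : ∃ m, ∃ s, N ≤ s ∧ cc J s = m := ⟨_, N, le_rfl, rfl⟩
    classical
    obtain ⟨s, hs, h⟩ := Nat.find_spec hne
    refine ⟨s, hs, fun s' hs' => ?_⟩
    rw [h]
    exact Nat.find_min' hne ⟨s', hs', rfl⟩
  exact ⟨cc J s1, s1, fun s hs => le_antisymm (hanti s1 s hs1 hs) (hmin s (hs1.trans hs))⟩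

end Pool.Agent.R404.TC
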