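import Mathlib
import Pool.Agent.R404.TC.Alg1

set_option autoImplicit false

/-!
The Hilbert function of a zero-dimensional homogeneous ideal.
-/

namespace Pool.Agent.R404.TC

open MvPolynomial Finset Module

variable {K : Type} [Field K] {n : ℕ}

/-- `x` is a zero of all elements of `J` -/
def Zero {L : Type} [Field L] [Algebra K L] (J : Ideal (MvPolynomial (Fin n) K)) (x : Fin n → L) :
    Prop := ∀ p ∈ J, aeval x p = 0

/-- Nullstellensatz -/
theorem rad_mem (J : Ideal (MvPolynomial (Fin n) K)) (W : MvPolynomial (Fin n) K)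
    (h : ∀ (L : Type) [Field L] [Algebra K L] (x : Fin n → L), Zero J x → aeval x W = 0) :
    ∃ N : ℕ, W ^ N ∈ J := by
  classical
  have h1 : W ∈ J.radical := by
    rw [Ideal.radical_eq_sInf, Ideal.mem_sInf]
    rintro p ⟨hp, hprime⟩
    have := hprime
    set L := FractionRing (MvPolynomial (Fin n) K ⧸ p)
    set φ : MvPolynomial (Fin n) K →ₐ[K] L :=
      (IsScalarTower.toAlgHom K (MvPolynomial (Fin n) K ⧸ p) L).comp (Ideal.Quotient.mkₐ K p)
      with hφ
    have hφ0 : ∀ P : MvPolynomial (Fin n) K, φ P = 0 ↔ P ∈ p := by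
      intro P
      rw [hφ]
      simp only [AlgHom.comp_apply, Ideal.Quotient.mkₐ_eq_mk]
      rw [← Ideal.Quotient.eq_zero_iff_mem]
      constructor
      · intro hh
        exact (IsFractionRing.injective (MvPolynomial (Fin n) K ⧸ p) L)
          (by simpa using hh)
      · intro hh
        rw [hh, map_zero]
    have hae : ∀ P : MvPolynomial (Fin n) K, aeval (fun i => φ (X i)) P = φ P := by
      intro P
      have : aeval (fun i => φ (X i)) = φ := by
        apply MvPolynomial.algHom_ext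
        intro i
        simp
      rw [this]
    have h2 := h L (fun i => φ (X i)) (fun q hq => by
      rw [hae, hφ0]
      exact hp hq)
    rw [hae] at h2
    exact (hφ0 _).1 h2
  obtain ⟨N, hN⟩ := h1
  exact ⟨N, hN⟩

/-- if `J` contains the power `M` of each variable it contains all forms of large degree -/
theorem forms_mem {J : Ideal (MvPolynomial (Fin n) K)} {M : ℕ}
    (hM : ∀ a : Fin n, (X a : MvPolynomial (Fin n) K) ^ M ∈ J) {t : ℕ} (ht : n * M < t)
    (p : MvPolynomial (Fin n) K) (hp : p.IsHomogeneous t) : p ∈ J := by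
  rw [p.as_sum]
  refine Ideal.sum_mem _ fun m hm => ?_
  have hdeg : ∑ i, m i = t := by
    have h1 := hp (mem_support_iff.1 hm)
    have h2 : m.degree = t := by
      exact (DFunLike.congr_fun (Finsupp.degree_eq_weight_one (σ := Fin n) (R := ℕ)) m).trans h1
    rw [Finsupp.degree_eq_sum] at h2
    exact h2
  obtain ⟨a, ha⟩ : ∃ a, M ≤ m a := by
    by_contra hcon
    push Not at hcon
    have h1 : ∑ i, m i ≤ ∑ _i : Fin n, M := Finset.sum_le_sum fun i _ => (hcon i).le
    rw [Finset.sum_const, card_univ, Fintype.card_fin, smul_eq_mul] at h1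
    omega
  have h0 : m - Finsupp.single a M + Finsupp.single a M = m := by
    ext i
    rw [Finsupp.add_apply, Finsupp.tsub_apply]
    by_cases hi : a = i
    · subst hi
      rw [Finsupp.single_eq_same]
      omega
    · rw [Finsupp.single_eq_of_ne (Ne.symm hi)]
      omega
  have h1 : monomial m (coeff m p) = monomial (m - Finsupp.single a M) (coeff m p) * X a ^ M := by
    rw [X_pow_eq_monomial, monomial_mul, mul_one, h0]
  rw [h1]
  exact J.mul_mem_left _ (hM a)

/-- an ideal without zeros contains all forms of large degree -/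
theorem large_mem (J : Ideal (MvPolynomial (Fin n) K))
    (h : ∀ (L : Type) [Field L] [Algebra K L] (x : Fin n → L), Zero J x → x = 0) :
    ∃ N : ℕ, ∀ t, N ≤ t → ∀ p : MvPolynomial (Fin n) K, p.IsHomogeneous t → p ∈ J := by
  have h1 : ∀ a : Fin n, ∃ N : ℕ, (X a : MvPolynomial (Fin n) K) ^ N ∈ J := fun a =>
    rad_mem J (X a) fun L _ _ x hx => by
      rw [aeval_X, h L x hx]
      rfl
  choose N hN using h1
  refine ⟨n * (∑ a, N a) + 1, fun t ht p hp => ?_⟩
  refine forms_mem (M := ∑ a, N a) (fun a => ?_) (by omega) p hp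
  have h2 : N a ≤ ∑ a, N a := Finset.single_le_sum (f := N) (fun _ _ => Nat.zero_le _)
    (Finset.mem_univ a)
  have h3 : (X a : MvPolynomial (Fin n) K) ^ (∑ a, N a) =
      X a ^ (∑ a, N a - N a) * X a ^ N a := by
    rw [← pow_add]
    congr 1
    omega
  rw [h3]
  exact J.mul_mem_left _ (hN a)

/-- all zeros of `J` are multiples of points in `Y` -/
def Covers (J : Ideal (MvPolynomial (Fin n) K)) (Y : Finset (Fin n → K)) : Prop :=
  ∀ (L : Type) [Field L] [Algebra K L] (x : Fin n → L), x ≠ 0 → Zero J x →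
    ∃ y ∈ Y, ∃ c : L, x = c • fun b => algebraMap K L (y b)

theorem aeval_pt {L : Type} [Field L] [Algebra K L] (y : Fin n → K) (p : MvPolynomial (Fin n) K) :
    aeval (fun b => algebraMap K L (y b)) p = algebraMap K L (eval y p) := by
  have h := aeval_algebraMap_apply L y p
  have h2 : aeval y p = eval y p := DFunLike.congr_fun (coe_aeval_eq_eval y) p
  rw [h2] at h
  exact h

theorem aeval_smul_hom {L : Type} [Field L] [Algebra K L] {d : ℕ}
    {Q : MvPolynomial (Fin n) K} (hQ : Q.IsHomogeneous d) (c : L) (x : Fin n → L) :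
    aeval (c • x) Q = c ^ d * aeval x Q := by
  rw [aeval_def, aeval_def, eval₂_eq, eval₂_eq, Finset.mul_sum]
  refine Finset.sum_congr rfl fun m hm => ?_
  have h1 : ∑ i ∈ m.support, m i = d := by
    have h2 := hQ (mem_support_iff.1 hm)
    have h3 : m.degree = d :=
      (DFunLike.congr_fun (Finsupp.degree_eq_weight_one (σ := Fin n) (R := ℕ)) m).trans h2
    rw [← h3]
    rfl
  have h2 : ∏ i ∈ m.support, (c • x) i ^ m i = c ^ d * ∏ i ∈ m.support, x i ^ m i := by
    simp only [Pi.smul_apply, smul_eq_mul, mul_pow]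
    rw [Finset.prod_mul_distrib, Finset.prod_pow_eq_pow_sum, h1]
  rw [h2]
  ring

/-- in large degrees the saturation is equal to the ideal -/
theorem sat_large {J : Ideal (MvPolynomial (Fin n) K)} (hJ : HI J) (Y : Finset (Fin n → K))
    (hY : Covers J Y) : ∃ s1 : ℕ, ∀ s, s1 ≤ s → ∀ p : MvPolynomial (Fin n) K,
      p.IsHomogeneous s → (p ∈ Sat J Y ↔ p ∈ J) := by
  classical
  obtain ⟨U, hU⟩ := (isNoetherianRing_iff_ideal_fg (MvPolynomial (Fin n) K)).1 inferInstance
    (Sat J Y)
  -- multipliers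
  have h1 : ∀ y u, ∃ (h : MvPolynomial (Fin n) K) (e : ℕ), h.IsHomogeneous e ∧
      eval y h ≠ 0 ∧ (y ∈ Y → u ∈ Sat J Y → h * u ∈ J) := by
    intro y u
    by_cases hy : y ∈ Y ∧ u ∈ Sat J Y
    · obtain ⟨h, e, h1, h2, h3⟩ := hy.2 y hy.1
      exact ⟨h, e, h1, h2, fun _ _ => h3⟩
    · exact ⟨1, 0, isHomogeneous_one _ _, by simp, fun a b => absurd ⟨a, b⟩ hy⟩
  choose h e h2 h3 h4 using h1
  set H : (Fin n → K) → MvPolynomial (Fin n) K := fun y => ∏ u ∈ U, h y u with hH
  have hHhom : ∀ y, (H y).IsHomogeneous (∑ u ∈ U, e y u) := fun y =>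
    IsHomogeneous.prod _ _ _ fun u _ => h2 y u
  have hHy : ∀ y, eval y (H y) ≠ 0 := by
    intro y
    rw [hH]
    simp only [map_prod]
    exact Finset.prod_ne_zero_iff.2 fun u _ => h3 y u
  have hHU : ∀ y ∈ Y, ∀ u ∈ Sat J Y, H y * u ∈ J := by
    intro y hy u hu
    rw [← hU] at hu
    refine Submodule.span_induction (p := fun u _ => H y * u ∈ J) ?_ ?_ ?_ ?_ hu
    · intro u hu
      rw [hH]
      simp only
      rw [← Finset.mul_prod_erase U _ hu]
      have h5 : (h y u * ∏ x ∈ U.erase u, h y x) * u = (∏ x ∈ U.erase u, h y x) * (h y u * u) := by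
        ring
      rw [h5]
      refine J.mul_mem_left _ (h4 y u hy ?_)
      rw [← hU]
      exact Ideal.subset_span hu
    · rw [mul_zero]
      exact J.zero_mem
    · intro a b _ _ ha hb
      rw [mul_add]
      exact J.add_mem ha hb
    · intro c a _ ha
      have h5 : H y * (c • a) = c * (H y * a) := by rw [smul_eq_mul]; ring
      rw [h5]
      exact J.mul_mem_left _ ha
  -- the ideal without zeros
  set A : Ideal (MvPolynomial (Fin n) K) := J ⊔ Ideal.span (H '' (Y : Set (Fin n → K))) with hA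
  obtain ⟨N, hN⟩ := large_mem A (by
    intro L _ _ x hx
    by_contra hx0
    obtain ⟨y, hy, c, hc⟩ := hY L x hx0 (fun p hp => hx p (Ideal.mem_sup_left hp))
    have h5 := hx (H y) (Ideal.mem_sup_right (Ideal.subset_span ⟨y, hy, rfl⟩))
    rw [hc, aeval_smul_hom (hHhom y), aeval_pt] at h5
    rcases mul_eq_zero.1 h5 with h6 | h6
    · apply hx0
      rw [hc, eq_zero_of_pow_eq_zero h6, zero_smul]
    · exact hHy y ((map_eq_zero _).1 h6))
  have hAS : ∀ a ∈ A, ∀ u ∈ Sat J Y, a * u ∈ J := by
    intro a ha u hu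
    obtain ⟨j, hj, w, hw, rfl⟩ := Submodule.mem_sup.1 ha
    rw [add_mul]
    refine J.add_mem (J.mul_mem_right _ hj) ?_
    refine Submodule.span_induction (p := fun w _ => w * u ∈ J) ?_ ?_ ?_ ?_ hw
    · rintro _ ⟨y, hy, rfl⟩
      exact hHU y hy u hu
    · rw [zero_mul]
      exact J.zero_mem
    · intro a b _ _ ha hb
      rw [add_mul]
      exact J.add_mem ha hb
    · intro c a _ ha
      rw [smul_eq_mul, mul_assoc]
      exact J.mul_mem_left _ ha
  set D : ℕ := ∑ u ∈ U, u.totalDegree with hD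
  refine ⟨N + D, fun s hs p hp => ⟨fun hpS => ?_, fun h => le_Sat J Y h⟩⟩
  have hcomp : ∀ q ∈ Sat J Y, homogeneousComponent s q ∈ J := by
    intro q hq
    rw [← hU] at hq
    obtain ⟨c, hc⟩ := (Submodule.mem_span_finset'.1 hq)
    rw [← hc, map_sum]
    refine J.sum_mem fun u _ => ?_
    have huS : (u : MvPolynomial (Fin n) K) ∈ Sat J Y := by
      rw [← hU]
      exact Ideal.subset_span u.2
    have h5 : c u • (u : MvPolynomial (Fin n) K) =
        ∑ i ∈ range ((u : MvPolynomial (Fin n) K).totalDegree + 1),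
          c u * homogeneousComponent i (u : MvPolynomial (Fin n) K) := by
      rw [smul_eq_mul]
      conv_lhs => rw [← sum_homogeneousComponent (u : MvPolynomial (Fin n) K)]
      rw [Finset.mul_sum]
    rw [h5, map_sum]
    refine J.sum_mem fun i hi => ?_
    rw [hc_mul_hom _ _ _ _ (homogeneousComponent_isHomogeneous i _)]
    have h6 : (u : MvPolynomial (Fin n) K).totalDegree ≤ D :=
      Finset.single_le_sum (f := fun u : MvPolynomial (Fin n) K => u.totalDegree)
        (fun _ _ => Nat.zero_le _) u.2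
    rw [Finset.mem_range] at hi
    rw [if_pos (by omega)]
    refine hAS _ (hN (s - i) (by omega) _ (homogeneousComponent_isHomogeneous _ _)) _ ?_
    exact (hJ.sat Y) _ huS i
  have h5 := hcomp p hpS
  rw [homogeneousComponent_eq_self hp] at h5
  exact h5

theorem cc_sat {J : Ideal (MvPolynomial (Fin n) K)} (hJ : HI J) (Y : Finset (Fin n → K))
    (hY : Covers J Y) : ∃ s1 : ℕ, ∀ s, s1 ≤ s → cc (Sat J Y) s = cc J s := by
  obtain ⟨s1, hs1⟩ := sat_large hJ Y hY
  exact ⟨s1, fun s hs => cc_congr fun p hp => hs1 s hs p hp⟩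

/-- a linear form which does not vanish at finitely many given points -/
theorem exists_lin [Infinite K] (Y : Finset (Fin n → K)) (hY : ∀ y ∈ Y, y ≠ 0) :
    ∃ f : MvPolynomial (Fin n) K, f.IsHomogeneous 1 ∧ ∀ y ∈ Y, eval y f ≠ 0 := by
  classical
  -- the product of the evaluations is a nonzero polynomial in the coefficients
  set P : MvPolynomial (Fin n) K := ∏ y ∈ Y, ∑ j, C (y j) * X j with hP
  have hP0 : P ≠ 0 := by
    rw [hP, Finset.prod_ne_zero_iff]
    intro y hy h0
    obtain ⟨a, ha⟩ := Function.ne_iff.1 (hY y hy)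
    apply ha
    have h1 := congrArg (eval (Pi.single a 1)) h0
    simp only [map_sum, map_mul, eval_C, eval_X, map_zero] at h1
    rw [Finset.sum_eq_single a (fun j _ hj => by rw [Pi.single_eq_of_ne hj, mul_zero])
      (fun h => absurd (Finset.mem_univ _) h), Pi.single_eq_same, mul_one] at h1
    exact h1
  obtain ⟨b, hb⟩ : ∃ b : Fin n → K, eval b P ≠ 0 := by
    by_contra hcon
    push Not at hcon
    exact hP0 (MvPolynomial.funext fun x => by rw [hcon x, map_zero])
  refine ⟨∑ j, C (b j) * X j, ?_, fun y hy h0 => ?_⟩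
  · refine IsHomogeneous.sum _ _ _ fun j _ => ?_
    simpa using (isHomogeneous_C (Fin n) (b j)).mul (isHomogeneous_X K j)
  · apply hb
    rw [hP, map_prod]
    refine Finset.prod_eq_zero hy ?_
    simp only [map_sum, map_mul, eval_C, eval_X] at h0 ⊢
    rw [← h0]
    exact Finset.sum_congr rfl fun j _ => mul_comm _ _

/-- the Hilbert function of an ideal with finitely many zeros is eventually constant -/
theorem cc_eventually [Infinite K] {J : Ideal (MvPolynomial (Fin n) K)} (hJ : HI J)
    (Y : Finset (Fin n → K)) (hY0 : ∀ y ∈ Y, y ≠ 0) (hY : Covers J Y) (hne : Y.Nonempty) :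
    ∃ δ s1 : ℕ, (∀ s, s1 ≤ s → cc J s = δ) ∧ ∀ s, s1 ≤ s → cc (Sat J Y) s = δ := by
  obtain ⟨f, hf, hfy⟩ := exists_lin Y hY0
  have hf0 : f ≠ 0 := by
    rintro rfl
    obtain ⟨y, hy⟩ := hne
    exact hfy y hy (map_zero _)
  obtain ⟨N, hN⟩ := large_mem (J ⊔ Ideal.span {f}) (by
    intro L _ _ x hx
    by_contra hx0
    obtain ⟨y, hy, c, hc⟩ := hY L x hx0 (fun p hp => hx p (Ideal.mem_sup_left hp))
    have h5 := hx f (Ideal.mem_sup_right (Ideal.mem_span_singleton_self f))
    rw [hc, aeval_smul_hom hf, aeval_pt] at h5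
    rcases mul_eq_zero.1 h5 with h6 | h6
    · apply hx0
      rw [hc, eq_zero_of_pow_eq_zero h6, zero_smul]
    · exact hfy y hy ((map_eq_zero _).1 h6))
  obtain ⟨δ, s1, h1⟩ := cc_const hJ hf hf0 N hN
  obtain ⟨s2, h2⟩ := cc_sat hJ Y hY
  refine ⟨δ, s1 + s2, fun s hs => h1 s (by omega), fun s hs => ?_⟩
  rw [h2 s (by omega), h1 s (by omega)]

end Pool.Agent.R404.TC
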