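import Mathlib
import Pool.Agent.R404.TC.Alg2

set_option autoImplicit false

/-!
Families of forms which are independent modulo an ideal.
-/

namespace Pool.Agent.R404.TC

open MvPolynomial Finset Module

variable {K : Type} [Field K] {n : ℕ}

/-- the product of powers of the forms -/
noncomputable def prodl : List (MvPolynomial (Fin n) K × ℕ) → (ℕ → ℕ) → MvPolynomial (Fin n) K
  | [], _ => 1
  | x :: l, α => x.1 ^ α 0 * prodl l (fun p => α (p + 1))

/-- its degree -/
def degl : List (MvPolynomial (Fin n) K × ℕ) → (ℕ → ℕ) → ℕ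
  | [], _ => 0
  | x :: l, α => α 0 * x.2 + degl l (fun p => α (p + 1))

theorem prodl_hom (l : List (MvPolynomial (Fin n) K × ℕ)) (hl : ∀ x ∈ l, x.1.IsHomogeneous x.2)
    (α : ℕ → ℕ) : (prodl l α).IsHomogeneous (degl l α) := by
  induction l generalizing α with
  | nil => exact isHomogeneous_one _ _
  | cons x l ih =>
    have h1 := (hl x List.mem_cons_self).pow (α 0)
    rw [mul_comm] at h1
    exact h1.mul (ih (fun y hy => hl y (List.mem_cons_of_mem _ hy)) _)

/-- there is a family of `N` forms of degree `t` which is independent modulo the saturation of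
`I`, with given sums of exponents -/
def Fam (I : Ideal (MvPolynomial (Fin n) K)) (Y : Finset (Fin n → K))
    (l : List (MvPolynomial (Fin n) K × ℕ)) (g : MvPolynomial (Fin n) K) (t N : ℕ) (W : ℕ → ℕ)
    (Γ : ℕ) : Prop :=
  ∃ (ι : Type) (_ : Fintype ι) (c : ι → MvPolynomial (Fin n) K) (α : ι → ℕ → ℕ) (γ b : ι → ℕ),
    (∀ κ : ι → K, ∑ i, C (κ i) * (prodl l (α i) * g ^ γ i * c i) ∈ Sat I Y → ∀ i, κ i = 0) ∧
    (∀ i, (c i).IsHomogeneous (b i)) ∧ (∀ i, degl l (α i) + γ i + b i = t) ∧
    Fintype.card ι = N ∧ (∀ p < l.length, ∑ i, α i p = W p) ∧ ∑ i, γ i = Γ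

/-- the bottom level -/
theorem fam_base (I : Ideal (MvPolynomial (Fin n) K)) (Y : Finset (Fin n → K))
    (g : MvPolynomial (Fin n) K) (hg : g.IsHomogeneous 1) (t : ℕ) (hgt : g ^ t ∉ Sat I Y)
    (W : ℕ → ℕ) : Fam I Y [] g t (cc (Sat I Y) t) W t := by
  classical
  set V := homogeneousSubmodule (Fin n) K t with hV
  set W' : Submodule K V := (gr (Sat I Y) t).comap V.subtype with hW'
  have hgV : g ^ t ∈ V := by
    have := hg.pow t
    rw [one_mul] at this
    exact this
  have hfr : finrank K (V ⧸ W') = cc (Sat I Y) t := by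
    have h1 := Submodule.finrank_quotient_add_finrank W'
    have h2 : finrank K W' = finrank K (gr (Sat I Y) t) :=
      (Submodule.comapSubtypeEquivOfLe (gr_le (Sat I Y) t)).finrank_eq
    rw [cc, ← h2, ← hV]
    omega
  set B := Module.finBasisOfFinrankEq K (V ⧸ W') hfr with hB
  set q0 : V ⧸ W' := W'.mkQ ⟨g ^ t, hgV⟩ with hq0
  have hq00 : q0 ≠ 0 := by
    intro h
    rw [hq0, Submodule.mkQ_apply, Submodule.Quotient.mk_eq_zero] at h
    exact hgt h.1
  obtain ⟨i0, hi0⟩ : ∃ i, B.repr q0 i ≠ 0 := by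
    by_contra hcon
    push Not at hcon
    apply hq00
    have : B.repr q0 = 0 := Finsupp.ext hcon
    simpa using this
  have hlift : ∀ i, ∃ v : V, W'.mkQ v = B i := fun i => Submodule.mkQ_surjective W' (B i)
  choose v hv using hlift
  set c : Fin (cc (Sat I Y) t) → MvPolynomial (Fin n) K := fun i => if i = i0 then 1 else v i
    with hc
  set γ : Fin (cc (Sat I Y) t) → ℕ := fun i => if i = i0 then t else 0 with hγ
  set b : Fin (cc (Sat I Y) t) → ℕ := fun i => if i = i0 then 0 else t with hb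
  set e : Fin (cc (Sat I Y) t) → V := fun i => if i = i0 then ⟨g ^ t, hgV⟩ else v i with he
  have hce : ∀ i, prodl [] (fun _ => 0) * g ^ γ i * c i = (e i : MvPolynomial (Fin n) K) := by
    intro i
    rw [hc, hγ, he]
    by_cases h : i = i0
    · simp [h, prodl]
    · simp [h, prodl]
  refine ⟨Fin (cc (Sat I Y) t), inferInstance, c, fun _ _ => 0, γ, b, ?_, ?_, ?_, ?_, ?_, ?_⟩
  · intro κ hκ
    have h1 : ∑ i, C (κ i) * (prodl [] (fun _ => 0) * g ^ γ i * c i) =
        ((∑ i, κ i • e i : V) : MvPolynomial (Fin n) K) := by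
      rw [Submodule.coe_sum]
      refine Finset.sum_congr rfl fun i _ => ?_
      rw [hce i, Submodule.coe_smul, smul_eq_C_mul]
    rw [h1] at hκ
    have h2 : W'.mkQ (∑ i, κ i • e i) = 0 := by
      rw [Submodule.mkQ_apply, Submodule.Quotient.mk_eq_zero]
      exact ⟨hκ, (∑ i, κ i • e i : V).2⟩
    have h3 : ∀ i, W'.mkQ (e i) = if i = i0 then q0 else B i := by
      intro i
      rw [he]
      by_cases h : i = i0
      · simp only [h, if_true]
        rw [hq0]
      · simp only [h, if_false]
        exact hv i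
    rw [map_sum] at h2
    simp only [map_smul, h3] at h2
    have h4 : ∀ j, B.repr (∑ i, κ i • (if i = i0 then q0 else B i)) j =
        (if j = i0 then 0 else κ j) + κ i0 * B.repr q0 j := by
      intro j
      rw [map_sum, Finsupp.finsetSum_apply]
      have h5 : ∀ i, (B.repr (κ i • (if i = i0 then q0 else B i))) j =
          (if i = i0 then κ i0 * B.repr q0 j else 0) +
          (if i = i0 then 0 else if i = j then κ i else 0) := by
        intro i
        rw [map_smul, Finsupp.smul_apply, smul_eq_mul]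
        by_cases h : i = i0
        · simp [h]
        · simp only [h, if_false, zero_add]
          rw [B.repr_self, Finsupp.single_apply]
          split_ifs <;> simp
      simp only [h5, Finset.sum_add_distrib]
      rw [Finset.sum_ite_eq' Finset.univ i0, if_pos (Finset.mem_univ _), add_comm]
      congr 1
      have h6 : ∀ i, (if i = i0 then (0 : K) else if i = j then κ i else 0) =
          if i = j then (if j = i0 then 0 else κ j) else 0 := by
        intro i
        by_cases h : i = j
        · subst h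
          simp
        · simp [h]
      simp only [h6]
      rw [Finset.sum_ite_eq' Finset.univ j, if_pos (Finset.mem_univ _)]
    rw [h2, map_zero] at h4
    have h5 : κ i0 = 0 := by
      have := h4 i0
      rw [if_pos rfl, zero_add, Finsupp.zero_apply] at this
      exact (mul_eq_zero.1 this.symm).resolve_right hi0
    intro j
    by_cases hj : j = i0
    · rw [hj, h5]
    · have := h4 j
      rw [if_neg hj, h5, zero_mul, add_zero, Finsupp.zero_apply] at this
      exact this.symm
  · intro i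
    rw [hc, hb]
    by_cases h : i = i0
    · simp only [h, if_true]
      exact isHomogeneous_one _ _
    · simp only [h, if_false]
      exact (v i).2
  · intro i
    rw [hγ, hb]
    by_cases h : i = i0
    · simp [h, degl]
    · simp [h, degl]
  · exact Fintype.card_fin _
  · intro p hp
    exact absurd hp (Nat.not_lt_zero _)
  · rw [hγ]
    simp

theorem degl_shift (x : MvPolynomial (Fin n) K × ℕ) (l : List (MvPolynomial (Fin n) K × ℕ))
    (a : ℕ) (α : ℕ → ℕ) :
    degl (x :: l) (fun p => Nat.casesOn p a α) = a * x.2 + degl l α := rfl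

theorem prodl_shift (x : MvPolynomial (Fin n) K × ℕ) (l : List (MvPolynomial (Fin n) K × ℕ))
    (a : ℕ) (α : ℕ → ℕ) :
    prodl (x :: l) (fun p => Nat.casesOn p a α) = x.1 ^ a * prodl l α := rfl

/-- the induction step -/
theorem fam_step (I : Ideal (MvPolynomial (Fin n) K)) (Y : Finset (Fin n → K))
    (l : List (MvPolynomial (Fin n) K × ℕ)) (g f : MvPolynomial (Fin n) K) (d : ℕ) (hd : 0 < d)
    (hreg : ∀ u, f * u ∈ Sat I Y → u ∈ Sat I Y) (t : ℕ) (N : ℕ → ℕ) (W : ℕ → ℕ → ℕ) (Γ : ℕ → ℕ)
    (hfam : ∀ s ≤ t, Fam (I ⊔ Ideal.span {f}) Y l g s (N s) (fun p => W p s) (Γ s)) :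
    Fam I Y ((f, d) :: l) g t (S d N t)
      (fun p => Nat.casesOn p (T d N t) (fun p => S d (W p) t)) (S d Γ t) := by
  classical
  choose! ι hι c α γ b h1 h2 h3 h4 h5 h6 using hfam
  set m := t / d with hm
  have hle : ∀ a : Fin (m + 1), a.1 * d ≤ t := fun a => by
    have h7 : a.1 * d ≤ m * d := Nat.mul_le_mul_right _ (Nat.lt_succ_iff.1 a.2)
    exact h7.trans (Nat.div_mul_le_self t d)
  have hs : ∀ a : Fin (m + 1), t - a.1 * d ≤ t := fun a => Nat.sub_le _ _
  let J : Fin (m + 1) → Type := fun a => ι (t - a.1 * d)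
  let hJ : ∀ a : Fin (m + 1), Fintype (J a) := fun a => hι (t - a.1 * d) (Nat.sub_le _ _)
  refine ⟨Σ a : Fin (m + 1), J a, inferInstance, fun i => c (t - i.1.1 * d) i.2,
    fun i p => Nat.casesOn p i.1.1 (α (t - i.1.1 * d) i.2), fun i => γ (t - i.1.1 * d) i.2,
    fun i => b (t - i.1.1 * d) i.2, ?_, ?_, ?_, ?_, ?_, ?_⟩
  · intro κ hκ
    -- the blocks
    set u : ℕ → MvPolynomial (Fin n) K := fun a => if h : a < m + 1 then
      ∑ i : J ⟨a, h⟩, C (κ ⟨⟨a, h⟩, i⟩) * (prodl l (α (t - a * d) i) * g ^ γ (t - a * d) i *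
        c (t - a * d) i) else 0 with hu
    have hsum : ∑ i : (Σ a : Fin (m + 1), J a), C (κ i) *
        (prodl ((f, d) :: l) (fun p => Nat.casesOn p i.1.1 (α (t - i.1.1 * d) i.2)) *
          g ^ γ (t - i.1.1 * d) i.2 * c (t - i.1.1 * d) i.2) =
        ∑ a ∈ range (m + 1), f ^ a * u a := by
      rw [Finset.sum_range, Fintype.sum_sigma]
      refine Finset.sum_congr rfl fun a _ => ?_
      rw [hu]
      simp only [a.2, dif_pos, Finset.mul_sum]
      refine Finset.sum_congr rfl fun i _ => ?_
      rw [prodl_shift]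
      ring
    rw [hsum] at hκ
    have hII : Sat I Y ≤ Sat (I ⊔ Ideal.span {f}) Y := Sat_mono le_sup_left Y
    have hfI : f ∈ Sat (I ⊔ Ideal.span {f}) Y :=
      le_Sat _ _ (Ideal.mem_sup_right (Ideal.mem_span_singleton_self f))
    -- the tails
    have hU : ∀ k, k ≤ m + 1 → (∀ a (h : a < m + 1), a < k → ∀ i : J ⟨a, h⟩,
        κ ⟨⟨a, h⟩, i⟩ = 0) ∧ ∑ a ∈ range (m + 1 - k), f ^ a * u (a + k) ∈ Sat I Y := by
      intro k
      induction k with
      | zero =>
        intro _
        refine ⟨fun a _ h => absurd h (Nat.not_lt_zero _), ?_⟩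
        simpa using hκ
      | succ k ih =>
        intro hk
        obtain ⟨ih1, ih2⟩ := ih (by omega)
        have hk' : k < m + 1 := by omega
        have e1 : m + 1 - k = (m + 1 - (k + 1)) + 1 := by omega
        rw [e1, Finset.sum_range_succ'] at ih2
        simp only [pow_zero, one_mul, Nat.zero_add] at ih2
        have e2 : ∑ a ∈ range (m + 1 - (k + 1)), f ^ (a + 1) * u (a + 1 + k) =
            f * ∑ a ∈ range (m + 1 - (k + 1)), f ^ a * u (a + (k + 1)) := by
          rw [Finset.mul_sum]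
          refine Finset.sum_congr rfl fun a _ => ?_
          rw [pow_succ, Nat.add_assoc, Nat.add_comm 1 k]
          ring
        rw [e2] at ih2
        have h7 : u k ∈ Sat (I ⊔ Ideal.span {f}) Y := by
          have h8 := Ideal.sub_mem _ (hII ih2) (Ideal.mul_mem_right
            (∑ a ∈ range (m + 1 - (k + 1)), f ^ a * u (a + (k + 1))) _ hfI)
          rw [add_sub_cancel_left] at h8
          exact h8
        have h8 : ∀ i : J ⟨k, hk'⟩, κ ⟨⟨k, hk'⟩, i⟩ = 0 := by
          rw [hu] at h7
          simp only [hk', dif_pos] at h7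
          exact h1 (t - k * d) (Nat.sub_le _ _) (fun i => κ ⟨⟨k, hk'⟩, i⟩) h7
        have h9 : u k = 0 := by
          rw [hu]
          simp only [hk', dif_pos]
          refine Finset.sum_eq_zero fun i _ => ?_
          rw [h8 i, C_0, zero_mul]
        rw [h9, add_zero] at ih2
        refine ⟨fun a h hak i => ?_, hreg _ ih2⟩
        by_cases hak' : a < k
        · exact ih1 a h hak' i
        · have : a = k := by omega
          subst this
          exact h8 i
    intro i
    obtain ⟨a, i⟩ := i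
    exact (hU (m + 1) le_rfl).1 a.1 a.2 a.2 i
  · intro i
    exact h2 _ (Nat.sub_le _ _) i.2
  · intro i
    have h7 := h3 _ (Nat.sub_le t (i.1.1 * d)) i.2
    have h8 := hle i.1
    show (i.1.1 * d + degl l (α (t - i.1.1 * d) i.2)) + γ (t - i.1.1 * d) i.2 +
      b (t - i.1.1 * d) i.2 = t
    omega
  · rw [Fintype.card_sigma]
    unfold S
    rw [Finset.sum_range]
    exact Finset.sum_congr rfl fun a _ => h4 _ (Nat.sub_le _ _)
  · intro p hp
    rcases p with _ | p
    · show ∑ i : (Σ a : Fin (m + 1), J a), i.1.1 = T d N t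
      rw [Fintype.sum_sigma]
      unfold T
      rw [Finset.sum_range]
      refine Finset.sum_congr rfl fun a _ => ?_
      simp only [Finset.sum_const, card_univ, smul_eq_mul]
      have h7 : Fintype.card (J a) = N (t - a.1 * d) := h4 _ (Nat.sub_le _ _)
      rw [h7, mul_comm]
    · show ∑ i : (Σ a : Fin (m + 1), J a), α (t - i.1.1 * d) i.2 p = S d (W p) t
      rw [Fintype.sum_sigma]
      unfold S
      rw [Finset.sum_range]
      refine Finset.sum_congr rfl fun a _ => ?_
      exact h5 _ (Nat.sub_le _ _) p (by simpa using hp)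
  · show ∑ i : (Σ a : Fin (m + 1), J a), γ (t - i.1.1 * d) i.2 = S d Γ t
    rw [Fintype.sum_sigma]
    unfold S
    rw [Finset.sum_range]
    exact Finset.sum_congr rfl fun a _ => h6 _ (Nat.sub_le _ _)

/-- regular sequences, locally at the points of `Y` -/
def RegL (Y : Finset (Fin n → K)) : Ideal (MvPolynomial (Fin n) K) →
    List (MvPolynomial (Fin n) K × ℕ) → Prop
  | _, [] => True
  | I, x :: l => (∀ y ∈ Y, ∀ u, x.1 * u ∈ I → u ∈ Loc I y) ∧ RegL Y (I ⊔ Ideal.span {x.1}) l

theorem sat_reg {I : Ideal (MvPolynomial (Fin n) K)} {Y : Finset (Fin n → K)}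
    {f : MvPolynomial (Fin n) K} (h : ∀ y ∈ Y, ∀ u, f * u ∈ I → u ∈ Loc I y)
    (u : MvPolynomial (Fin n) K) (hu : f * u ∈ Sat I Y) : u ∈ Sat I Y := by
  intro y hy
  obtain ⟨p, e, h1, h2, h3⟩ := hu y hy
  have h4 : f * (p * u) ∈ I := by
    have : f * (p * u) = p * (f * u) := by ring
    rw [this]
    exact h3
  obtain ⟨p', e', h1', h2', h3'⟩ := h y hy _ h4
  refine ⟨p' * p, e' + e, h1'.mul h1, ?_, ?_⟩
  · rw [map_mul]
    exact mul_ne_zero h2' h2
  · rw [mul_assoc]
    exact h3'

theorem fam_exists (Y : Finset (Fin n → K)) (l : List (MvPolynomial (Fin n) K × ℕ))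
    (hl : ∀ x ∈ l, 0 < x.2) (g : MvPolynomial (Fin n) K) (hg : g.IsHomogeneous 1)
    (I : Ideal (MvPolynomial (Fin n) K)) (hreg : RegL Y I l)
    (hgn : ∀ s, g ^ s ∉ Sat (Jf I l) Y) (t : ℕ) :
    Fam I Y l g t (NN (cc (Sat (Jf I l) Y)) (l.map Prod.snd) t)
      (fun p => WW (cc (Sat (Jf I l) Y)) (l.map Prod.snd) p t) (GG (l.map Prod.snd) t) := by
  induction l generalizing I t with
  | nil => exact fam_base I Y g hg t (hgn t) _
  | cons x l ih =>
    obtain ⟨h1, h2⟩ := hreg
    have h3 := fam_step I Y l g x.1 x.2 (hl x List.mem_cons_self) (sat_reg h1) t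
      (NN (cc (Sat (Jf I (x :: l)) Y)) (l.map Prod.snd))
      (fun p s => WW (cc (Sat (Jf I (x :: l)) Y)) (l.map Prod.snd) p s)
      (GG (l.map Prod.snd))
      (fun s _ => ih (fun y hy => hl y (List.mem_cons_of_mem _ hy)) _ h2 hgn s)
    have h4 : (fun p => WW (cc (Sat (Jf I (x :: l)) Y)) ((x :: l).map Prod.snd) p t) =
        (fun p => Nat.casesOn p (T x.2 (NN (cc (Sat (Jf I (x :: l)) Y)) (l.map Prod.snd)) t)
          (fun p => S x.2 (fun s => WW (cc (Sat (Jf I (x :: l)) Y)) (l.map Prod.snd) p s) t)) := by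
      funext p
      rcases p with _ | p
      · rfl
      · rfl
    rw [h4]
    exact h3

end Pool.Agent.R404.TC
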