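import Mathlib
import Pool.Agent.R404.TC.Alg3
import Pool.Agent.W180.OP.Taylor

set_option autoImplicit false

/-!
Local heights of products and of elements of an ideal.
-/

namespace Pool.Agent.R404.TC

open MvPolynomial Finset Module
open Pool.Agent.W180.OP (nrm le_nrm nrm_pos nrm_nonneg exists_nrm lam lam_eq cs cs_nonneg abv_mv
  not_small)

variable {K : Type} [Field K] {n : ℕ}

theorem lam_mul (f : AbsoluteValue K ℝ) {z : Fin n → K} (hz : z ≠ 0)
    {P Q : MvPolynomial (Fin n) K} (a b : ℕ) (hP : eval z P ≠ 0) (hQ : eval z Q ≠ 0) :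
    lam f (a + b) (P * Q) z = lam f a P z + lam f b Q z := by
  have h : eval z (P * Q) ≠ 0 := by
    rw [map_mul]
    exact mul_ne_zero hP hQ
  rw [lam_eq f _ _ hz h, lam_eq f _ _ hz hP, lam_eq f _ _ hz hQ, map_mul, map_mul,
    Real.log_mul (f.pos_iff.2 hP).ne' (f.pos_iff.2 hQ).ne']
  push_cast
  ring

theorem lam_pow (f : AbsoluteValue K ℝ) {z : Fin n → K} (hz : z ≠ 0)
    {P : MvPolynomial (Fin n) K} (a m : ℕ) (hP : eval z (P ^ m) ≠ 0) :
    lam f (m * a) (P ^ m) z = m * lam f a P z := by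
  rcases Nat.eq_zero_or_pos m with h | h
  · subst h
    simp [lam]
  · have hP' : eval z P ≠ 0 := by
      intro h0
      apply hP
      rw [map_pow, h0, zero_pow h.ne']
    rw [lam_eq f _ _ hz hP, lam_eq f _ _ hz hP', map_pow, map_pow, Real.log_pow]
    push_cast
    ring

theorem lam_low (f : AbsoluteValue K ℝ) {z : Fin n → K} (hz : z ≠ 0)
    {P : MvPolynomial (Fin n) K} {a : ℕ} (hh : P.IsHomogeneous a) (hP : eval z P ≠ 0) :
    - Real.log (1 + cs f P) ≤ lam f a P z := by
  have h1 := abv_mv f P hh z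
  have h2 := cs_nonneg f P
  have h3 := nrm_pos f hz
  have h4 : f (eval z P) ≤ (1 + cs f P) * nrm f z ^ a := by
    have : 0 ≤ nrm f z ^ a := by positivity
    linarith
  have h5 := Real.log_le_log (f.pos_iff.2 hP) h4
  rw [Real.log_mul (by linarith) (pow_pos h3 _).ne', Real.log_pow] at h5
  rw [lam_eq f _ _ hz hP]
  linarith

/-- weighted sum of local heights -/
noncomputable def lamW (f : AbsoluteValue K ℝ) :
    List (MvPolynomial (Fin n) K × ℕ) → (ℕ → ℝ) → (Fin n → K) → ℝ
  | [], _, _ => 0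
  | x :: l, w, z => w 0 * lam f x.2 x.1 z + lamW f l (fun p => w (p + 1)) z

/-- sum of the local heights divided by the degrees -/
noncomputable def lamD (f : AbsoluteValue K ℝ) :
    List (MvPolynomial (Fin n) K × ℕ) → (Fin n → K) → ℝ
  | [], _ => 0
  | x :: l, z => lam f x.2 x.1 z / x.2 + lamD f l z

theorem lam_prodl (f : AbsoluteValue K ℝ) (l : List (MvPolynomial (Fin n) K × ℕ)) (α : ℕ → ℕ)
    {z : Fin n → K} (hz : z ≠ 0) (h : eval z (prodl l α) ≠ 0) :
    lam f (degl l α) (prodl l α) z = lamW f l (fun p => (α p : ℝ)) z := by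
  induction l generalizing α with
  | nil => simp [prodl, degl, lamW, lam]
  | cons x l ih =>
    have h1 : eval z (x.1 ^ α 0) ≠ 0 ∧ eval z (prodl l (fun p => α (p + 1))) ≠ 0 := by
      rw [prodl, map_mul] at h
      exact mul_ne_zero_iff.1 h
    rw [prodl, degl, lam_mul f hz _ _ h1.1 h1.2, lam_pow f hz _ _ h1.1, ih _ h1.2]
    rfl

theorem lamW_sum (f : AbsoluteValue K ℝ) (l : List (MvPolynomial (Fin n) K × ℕ)) {ι : Type}
    [Fintype ι] (w : ι → ℕ → ℝ) (z : Fin n → K) :
    ∑ i, lamW f l (w i) z = lamW f l (fun p => ∑ i, w i p) z := by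
  induction l generalizing w with
  | nil => simp [lamW]
  | cons x l ih =>
    simp only [lamW]
    rw [Finset.sum_add_distrib, ← Finset.sum_mul, ih (fun i p => w i (p + 1))]

theorem lamW_ge (f : AbsoluteValue K ℝ) (l : List (MvPolynomial (Fin n) K × ℕ))
    (z : Fin n → K) (C0 : ℝ) (hC0 : 0 ≤ C0) (hl : ∀ x ∈ l, 0 < x.2)
    (hlow : ∀ x ∈ l, - C0 ≤ lam f x.2 x.1 z) (b : ℝ) (hb : 0 ≤ b) (w : ℕ → ℝ)
    (hw : ∀ (p : ℕ) (hp : p < l.length), b ≤ (l[p].2 : ℝ) * w p) :
    b * lamD f l z - C0 * ∑ p ∈ range l.length, w p ≤ lamW f l w z := by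
  induction l generalizing w with
  | nil => simp [lamW, lamD]
  | cons x l ih =>
    have h1 := ih (fun y hy => hl y (List.mem_cons_of_mem _ hy))
      (fun y hy => hlow y (List.mem_cons_of_mem _ hy)) (fun p => w (p + 1)) (fun p hp => by
        have := hw (p + 1) (by simpa using hp)
        simpa using this)
    have h2 : (0 : ℝ) < x.2 := by exact_mod_cast hl x List.mem_cons_self
    have h3 := hw 0 (by simp)
    simp only [List.getElem_cons_zero] at h3
    have h4 := hlow x List.mem_cons_self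
    simp only [lamW, lamD, List.length_cons]
    rw [Finset.sum_range_succ']
    have h5 : b / x.2 ≤ w 0 := by
      rw [div_le_iff₀ h2]
      linarith
    have h6 : 0 ≤ b / x.2 := by positivity
    have h7 : b * (lam f x.2 x.1 z / x.2) = b / x.2 * lam f x.2 x.1 z := by ring
    have h8 : 0 ≤ (w 0 - b / x.2) * (lam f x.2 x.1 z + C0) :=
      mul_nonneg (by linarith) (by linarith)
    have h9 : 0 ≤ b / x.2 * C0 := mul_nonneg h6 hC0
    rw [mul_add, h7, mul_add]
    nlinarith

/-- the ideal generated by the ideal and the forms -/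
theorem Jf_eq (I : Ideal (MvPolynomial (Fin n) K)) (l : List (MvPolynomial (Fin n) K × ℕ)) :
    Jf I l = I ⊔ Ideal.span (Set.range fun q : Fin l.length => (l[q]).1) := by
  induction l generalizing I with
  | nil =>
    simp [Jf]
  | cons x l ih =>
    rw [Jf, ih, sup_assoc]
    congr 1
    rw [← Ideal.span_union]
    congr 1
    ext p
    simp only [Set.mem_union, Set.mem_singleton_iff, Set.mem_range]
    constructor
    · rintro (h | ⟨q, rfl⟩)
      · exact ⟨⟨0, by simp⟩, by simp [h]⟩
      · exact ⟨q.succ, by simp⟩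
    · rintro ⟨q, rfl⟩
      rcases q with ⟨q, hq⟩
      rcases q with _ | q
      · left
        simp
      · right
        exact ⟨⟨q, by simpa using hq⟩, by simp⟩

/-- an element of the ideal generated by `I` and the forms is small where the forms are small -/
theorem comb (f : AbsoluteValue K ℝ) {I : Ideal (MvPolynomial (Fin n) K)} (hI : HI I)
    (l : List (MvPolynomial (Fin n) K × ℕ)) (hl : ∀ x ∈ l, x.1.IsHomogeneous x.2)
    (p : MvPolynomial (Fin n) K) (s : ℕ) (hp : p.IsHomogeneous s) (hpJ : p ∈ Jf I l) :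
    ∃ C : ℝ, 0 ≤ C ∧ ∀ z : Fin n → K, z ≠ 0 → (∀ q ∈ I, eval z q = 0) →
      (∀ x ∈ l, eval z x.1 ≠ 0) → eval z p ≠ 0 → ∀ μ : ℝ, (∀ x ∈ l, μ ≤ lam f x.2 x.1 z) →
        μ ≤ lam f s p z + C := by
  classical
  rw [Jf_eq] at hpJ
  obtain ⟨i0, hi0, w, hw, hiw⟩ := Submodule.mem_sup.1 hpJ
  obtain ⟨a, ha⟩ := Ideal.mem_span_range_iff_exists_fun.1 hw
  set b : Fin l.length → MvPolynomial (Fin n) K := fun q =>
    if (l[q]).2 ≤ s then homogeneousComponent (s - (l[q]).2) (a q) else 0 with hb
  have h1 : p = homogeneousComponent s i0 + ∑ q : Fin l.length, b q * (l[q]).1 := by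
    have h2 : homogeneousComponent s p = p := homogeneousComponent_eq_self hp
    rw [← h2, ← hiw, ← ha, map_add, map_sum]
    congr 1
    refine Finset.sum_congr rfl fun q _ => ?_
    have hq : (l[q]).1.IsHomogeneous (l[q]).2 := hl _ (List.getElem_mem _)
    rw [hc_mul_hom _ _ _ _ hq, hb]
    simp only
    split_ifs
    · rfl
    · rw [zero_mul]
  set B : ℝ := ∑ q : Fin l.length, cs f (b q) with hB
  have hB0 : 0 ≤ B := Finset.sum_nonneg fun _ _ => cs_nonneg _ _
  refine ⟨Real.log (1 + B), Real.log_nonneg (by linarith), ?_⟩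
  intro z hz hzI hzl hzp μ hμ
  have hnp := nrm_pos f hz
  have h2 : eval z p = ∑ q : Fin l.length, eval z (b q) * eval z (l[q]).1 := by
    rw [h1, map_add, hzI _ (hI _ hi0 s), zero_add, map_sum]
    exact Finset.sum_congr rfl fun _ _ => map_mul _ _ _
  have h3 : ∀ q : Fin l.length, f (eval z (b q)) * f (eval z (l[q]).1) ≤
      cs f (b q) * (Real.exp (-μ) * nrm f z ^ s) := by
    intro q
    have hq : l[q] ∈ l := List.getElem_mem _
    by_cases hs : (l[q]).2 ≤ s
    · have hbq : (b q).IsHomogeneous (s - (l[q]).2) := by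
        rw [hb]
        simp only [hs, if_true]
        exact homogeneousComponent_isHomogeneous _ _
      have e1 := abv_mv f (b q) hbq z
      have e2 : f (eval z (l[q]).1) ≤ Real.exp (-μ) * nrm f z ^ (l[q]).2 := by
        have e3 := hμ _ hq
        have e4 := f.pos_iff.2 (hzl _ hq)
        rw [lam_eq f _ _ hz (hzl _ hq)] at e3
        have e5 : Real.log (f (eval z (l[q]).1)) ≤
            Real.log (Real.exp (-μ) * nrm f z ^ (l[q]).2) := by
          rw [Real.log_mul (Real.exp_pos _).ne' (pow_pos hnp _).ne', Real.log_exp, Real.log_pow]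
          linarith
        exact (Real.log_le_log_iff e4 (by positivity)).1 e5
      calc _ ≤ (cs f (b q) * nrm f z ^ (s - (l[q]).2)) *
            (Real.exp (-μ) * nrm f z ^ (l[q]).2) :=
            mul_le_mul e1 e2 (f.nonneg _) (mul_nonneg (cs_nonneg _ _) (by positivity))
        _ = cs f (b q) * (Real.exp (-μ) * (nrm f z ^ (s - (l[q]).2) * nrm f z ^ (l[q]).2)) := by
            ring
        _ = _ := by rw [← pow_add, Nat.sub_add_cancel hs]
    · have hbq : b q = 0 := by
        rw [hb]
        simp only [hs, if_false]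
      rw [hbq, map_zero, map_zero, zero_mul]
      exact mul_nonneg (cs_nonneg _ _) (by positivity)
  have h4 : f (eval z p) ≤ (1 + B) * (Real.exp (-μ) * nrm f z ^ s) := by
    rw [h2]
    refine (f.sum_le _ _).trans ?_
    simp only [map_mul]
    refine (Finset.sum_le_sum fun q _ => h3 q).trans ?_
    rw [← Finset.sum_mul]
    refine mul_le_mul_of_nonneg_right ?_ (by positivity)
    rw [hB]
    linarith
  have h5 := Real.log_le_log (f.pos_iff.2 hzp) h4
  rw [Real.log_mul (by linarith) (by positivity),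
    Real.log_mul (Real.exp_pos _).ne' (pow_pos hnp _).ne', Real.log_exp, Real.log_pow] at h5
  rw [lam_eq f _ _ hz hzp]
  linarith

end Pool.Agent.R404.TC
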