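import Mathlib
import Pool.Agent.R404.TC.Loc1

set_option autoImplicit false

/-!
Crossing points and the local inequality.
-/

namespace Pool.Agent.R404.TC

open MvPolynomial Finset Module
open Pool.Agent.W180.OP (nrm le_nrm nrm_pos nrm_nonneg exists_nrm lam lam_eq cs cs_nonneg abv_mv
  not_small)

variable {K : Type} [Field K] {n : ℕ}

/-- the data of a set of crossing points -/
structure Cross (I : Ideal (MvPolynomial (Fin n) K)) (l : List (MvPolynomial (Fin n) K × ℕ))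
    (Y : Finset (Fin n → K)) : Prop where
  pos : ∀ x ∈ l, 0 < x.2
  hom : ∀ x ∈ l, x.1.IsHomogeneous x.2
  ne : l ≠ []
  y0 : ∀ y ∈ Y, y ≠ 0
  zero : ∀ y ∈ Y, ∀ p ∈ Jf I l, eval y p = 0
  cov : Covers (Jf I l) Y
  reg : RegL Y I l
  two : ∀ y ∈ Y, ∃ y' ∈ Y, ∀ c : K, y' ≠ c • y
  hY : Y.Nonempty

theorem reg_ne (Y : Finset (Fin n → K)) (hY : Y.Nonempty)
    (l : List (MvPolynomial (Fin n) K × ℕ)) (I : Ideal (MvPolynomial (Fin n) K))
    (hreg : RegL Y I l) (hz : ∀ y ∈ Y, ∀ p ∈ Jf I l, eval y p = 0) : ∀ x ∈ l, x.1 ≠ 0 := by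
  induction l generalizing I with
  | nil => intro x hx; exact absurd hx List.not_mem_nil
  | cons x l ih =>
    intro x' hx'
    rcases List.mem_cons.1 hx' with rfl | h
    · intro h0
      obtain ⟨y, hy⟩ := hY
      obtain ⟨h, e, h1, h2, h3⟩ := hreg.1 y hy 1 (by rw [h0, zero_mul]; exact I.zero_mem)
      rw [mul_one] at h3
      exact h2 (hz y hy h (Jf_le I _ h3))
    · exact ih _ hreg.2 hz x' h

/-- the linear form through `y`, and the form which vanishes at the other points -/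
theorem exists_gh (Y : Finset (Fin n → K)) (hY0 : ∀ y ∈ Y, y ≠ 0) (y : Fin n → K) (hy : y ≠ 0)
    (y' : Fin n → K) (hy' : ∀ c : K, y' ≠ c • y) :
    ∃ (g h : MvPolynomial (Fin n) K) (e : ℕ), g.IsHomogeneous 1 ∧ h.IsHomogeneous e ∧
      eval y h ≠ 0 ∧ eval y' g ≠ 0 ∧ ∀ z ∈ Y, eval z g * eval z h = 0 := by
  classical
  -- a linear form which separates two points
  have hsep : ∀ u v : Fin n → K, u ≠ 0 → (∀ c : K, v ≠ c • u) →
      ∃ g : MvPolynomial (Fin n) K, g.IsHomogeneous 1 ∧ eval u g = 0 ∧ eval v g ≠ 0 ∧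
        ∀ c : K, eval (c • u) g = 0 := by
    intro u v hu hv
    obtain ⟨a, ha⟩ := Function.ne_iff.1 hu
    have ha' : u a ≠ 0 := ha
    obtain ⟨b, hb⟩ : ∃ b, u a * v b - u b * v a ≠ 0 := by
      by_contra hcon
      push Not at hcon
      apply hv (v a / u a)
      funext b
      rw [Pi.smul_apply, smul_eq_mul, div_mul_eq_mul_div, eq_div_iff ha']
      linear_combination hcon b
    refine ⟨C (u a) * X b - C (u b) * X a, ?_, ?_, ?_, ?_⟩
    · refine IsHomogeneous.sub ?_ ?_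
      · simpa using (isHomogeneous_C (Fin n) (u a)).mul (isHomogeneous_X K b)
      · simpa using (isHomogeneous_C (Fin n) (u b)).mul (isHomogeneous_X K a)
    · simp only [map_sub, map_mul, eval_C, eval_X]
      ring
    · simpa using hb
    · intro c
      simp only [map_sub, map_mul, eval_C, eval_X, Pi.smul_apply, smul_eq_mul]
      ring
  obtain ⟨g, hg1, hg2, hg3, hg4⟩ := hsep y y' hy hy'
  -- the other points
  have hprod : ∀ z, ∃ q : MvPolynomial (Fin n) K, q.IsHomogeneous 1 ∧ (z ∈ Y →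
      (∀ c : K, z ≠ c • y) → eval z q = 0) ∧ ((∃ c : K, z = c • y) ∨ eval y q ≠ 0 ∨ z ∉ Y) := by
    intro z
    by_cases hz : z ∈ Y
    · by_cases hc : ∃ c : K, z = c • y
      · exact ⟨0, isHomogeneous_zero _ _ _, fun _ h => absurd hc (by push Not; exact h),
          Or.inl hc⟩
      · push Not at hc
        have hz0 := hY0 z hz
        have hcy : ∀ c : K, y ≠ c • z := by
          rintro c h
          have hc0 : c ≠ 0 := by
            rintro rfl
            rw [zero_smul] at h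
            exact hy h
          apply hc c⁻¹
          rw [h, smul_smul, inv_mul_cancel₀ hc0, one_smul]
        obtain ⟨q, h1, h2, h3, -⟩ := hsep z y hz0 hcy
        exact ⟨q, h1, fun _ _ => h2, Or.inr (Or.inl h3)⟩
    · exact ⟨0, isHomogeneous_zero _ _ _, fun h => absurd h hz, Or.inr (Or.inr hz)⟩
  choose q hq1 hq2 hq3 using hprod
  refine ⟨g, ∏ z ∈ Y.filter (fun z => ∀ c : K, z ≠ c • y), q z,
    ∑ z ∈ Y.filter (fun z => ∀ c : K, z ≠ c • y), 1, hg1,
    IsHomogeneous.prod _ _ _ fun z _ => hq1 z, ?_, hg3, ?_⟩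
  · rw [map_prod]
    refine Finset.prod_ne_zero_iff.2 fun z hz => ?_
    obtain ⟨hz1, hz2⟩ := Finset.mem_filter.1 hz
    rcases hq3 z with ⟨c, hc⟩ | h | h
    · exact absurd hc (hz2 c)
    · exact h
    · exact absurd hz1 h
  · intro z hz
    by_cases hc : ∀ c : K, z ≠ c • y
    · rw [map_prod]
      rw [Finset.prod_eq_zero (Finset.mem_filter.2 ⟨hz, hc⟩) (hq2 z hz hc), mul_zero]
    · push Not at hc
      obtain ⟨c, rfl⟩ := hc
      rw [hg4, zero_mul]

/-- at a point where all forms are small one of the linear forms is small -/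
theorem near {I : Ideal (MvPolynomial (Fin n) K)} {m : ℕ} (G : Fin m → MvPolynomial (Fin n) K)
    (γ : Fin m → ℕ) (hG : ∀ j, (G j).IsHomogeneous (γ j)) (hGI : I = Ideal.span (Set.range G))
    {l : List (MvPolynomial (Fin n) K × ℕ)} {Y : Finset (Fin n → K)} (H : Cross I l Y) :
    ∃ (g : (Fin n → K) → MvPolynomial (Fin n) K) (M : ℕ), 0 < M ∧
      (∀ y ∈ Y, (g y).IsHomogeneous 1 ∧ ∃ y' ∈ Y, eval y' (g y) ≠ 0) ∧
      ∀ f : AbsoluteValue K ℝ, ∃ C : ℝ, 0 ≤ C ∧ ∀ z : Fin n → K, z ≠ 0 →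
        (∀ q ∈ I, eval z q = 0) → (∀ x ∈ l, eval z x.1 ≠ 0) → ∃ y ∈ Y, eval z (g y) ≠ 0 →
          ∀ μ : ℝ, (∀ x ∈ l, μ ≤ lam f x.2 x.1 z) → μ / M ≤ lam f 1 (g y) z + C := by
  classical
  have hI : HI I := by
    rw [hGI]
    refine HI.of_span ?_
    rintro _ ⟨j, rfl⟩
    exact ⟨_, hG j⟩
  have hex : ∀ y, ∃ (g h : MvPolynomial (Fin n) K) (e : ℕ) (y' : Fin n → K), y ∈ Y →
      g.IsHomogeneous 1 ∧ h.IsHomogeneous e ∧
      eval y h ≠ 0 ∧ y' ∈ Y ∧ eval y' g ≠ 0 ∧ ∀ z ∈ Y, eval z g * eval z h = 0 := by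
    intro y
    by_cases hy : y ∈ Y
    · obtain ⟨y', hy', hc⟩ := H.two y hy
      obtain ⟨g, h, e, h1, h2, h3, h4, h5⟩ := exists_gh Y H.y0 y (H.y0 y hy) y' hc
      exact ⟨g, h, e, y', fun _ => ⟨h1, h2, h3, hy', h4, h5⟩⟩
    · exact ⟨0, 0, 0, 0, fun h => absurd h hy⟩
  choose g h e y' hgh using hex
  -- powers
  have hpow : ∀ y, ∃ M : ℕ, y ∈ Y → (g y * h y) ^ M ∈ Jf I l := by
    intro y
    by_cases hy : y ∈ Y
    · obtain ⟨M, hM⟩ := rad_mem (Jf I l) (g y * h y) (by
        intro L _ _ x hx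
        by_cases hx0 : x = 0
        · rw [map_mul]
          have h1 : aeval x (g y) = 0 := by
            rw [hx0]
            have h2 := aeval_smul_hom (hgh y hy).1 (0 : L) (0 : Fin n → L)
            rw [smul_zero, pow_one, zero_mul] at h2
            exact h2
          rw [h1, zero_mul]
        · obtain ⟨y1, hy1, c, hc⟩ := H.cov L x hx0 hx
          have h1 := (hgh y hy).2.2.2.2.2 y1 hy1
          rw [hc, aeval_smul_hom ((hgh y hy).1.mul (hgh y hy).2.1), aeval_pt, map_mul, h1,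
            map_zero, mul_zero])
      exact ⟨M, fun _ => hM⟩
    · exact ⟨0, fun h => absurd h hy⟩
  choose M hM using hpow
  set M0 : ℕ := ∑ y ∈ Y, M y + 1 with hM0
  have hMle : ∀ y ∈ Y, (g y * h y) ^ M0 ∈ Jf I l := by
    intro y hy
    have h1 : M y ≤ M0 := by
      have := Finset.single_le_sum (f := M) (fun _ _ => Nat.zero_le _) hy
      omega
    have h2 : (g y * h y) ^ M0 = (g y * h y) ^ (M0 - M y) * (g y * h y) ^ M y := by
      rw [← pow_add]
      congr 1
      omega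
    rw [h2]
    exact Ideal.mul_mem_left _ _ (hM y hy)
  have hM0R : (0 : ℝ) < M0 := by
    have : 0 < M0 := by omega
    exact_mod_cast this
  have hM1R : (1 : ℝ) ≤ M0 := by
    have : 1 ≤ M0 := by omega
    exact_mod_cast this
  refine ⟨g, M0, by omega, fun y hy => ⟨(hgh y hy).1, y' y, (hgh y hy).2.2.2.1,
    (hgh y hy).2.2.2.2.1⟩, fun f => ?_⟩
  obtain ⟨a0, -⟩ := Function.ne_iff.1 (H.y0 _ H.hY.choose_spec)
  have hn : 0 < n := Fin.pos a0
  -- no common zeros
  obtain ⟨c, hc, hcx⟩ := not_small (ι := Fin m ⊕ (Fin l.length ⊕ Y)) hn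
    (Sum.elim G (Sum.elim (fun q => (l[q]).1) (fun y => h y.1)))
    (Sum.elim γ (Sum.elim (fun q => (l[q]).2) (fun y => e y.1))) (by
      rintro (j | q | y)
      · exact hG j
      · exact H.hom _ (List.getElem_mem _)
      · exact (hgh y.1 y.2).2.1) (by
      intro L _ _ x hx
      by_contra hx0
      have hz : Zero (Jf I l) x := by
        intro p hp
        rw [Jf_eq, hGI, ← Ideal.span_union] at hp
        refine Submodule.span_induction (p := fun p _ => aeval x p = 0) ?_ ?_ ?_ ?_ hp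
        · rintro _ (⟨j, rfl⟩ | ⟨q, rfl⟩)
          · exact hx (Sum.inl j)
          · exact hx (Sum.inr (Sum.inl q))
        · rw [map_zero]
        · intro a b _ _ ha hb
          rw [map_add, ha, hb, add_zero]
        · intro a b _ hb
          rw [smul_eq_mul, map_mul, hb, mul_zero]
      obtain ⟨y1, hy1, c, hc⟩ := H.cov L x hx0 hz
      have h1 := hx (Sum.inr (Sum.inr ⟨y1, hy1⟩))
      simp only [Sum.elim_inr] at h1
      rw [hc, aeval_smul_hom (hgh y1 hy1).2.1, aeval_pt] at h1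
      rcases mul_eq_zero.1 h1 with h2 | h2
      · apply hx0
        rw [hc, eq_zero_of_pow_eq_zero h2, zero_smul]
      · exact (hgh y1 hy1).2.2.1 ((map_eq_zero _).1 h2)) f
  -- the constants from the ideal
  have hcomb : ∀ y, ∃ C : ℝ, 0 ≤ C ∧ (y ∈ Y → ∀ z : Fin n → K, z ≠ 0 →
      (∀ q ∈ I, eval z q = 0) → (∀ x ∈ l, eval z x.1 ≠ 0) →
      eval z ((g y * h y) ^ M0) ≠ 0 → ∀ μ : ℝ, (∀ x ∈ l, μ ≤ lam f x.2 x.1 z) →
        μ ≤ lam f (M0 * (1 + e y)) ((g y * h y) ^ M0) z + C) := by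
    intro y
    by_cases hy : y ∈ Y
    · obtain ⟨C, hC0, hC⟩ := comb f hI l H.hom ((g y * h y) ^ M0) (M0 * (1 + e y)) (by
        have h1 := ((hgh y hy).1.mul (hgh y hy).2.1).pow M0
        rw [mul_comm (1 + e y)] at h1
        exact h1) (hMle y hy)
      exact ⟨C, hC0, fun _ => hC⟩
    · exact ⟨0, le_rfl, fun h => absurd h hy⟩
  choose C1 hC10 hC1 using hcomb
  set C2 : ℝ := |Real.log c| with hC2
  have hC20 : 0 ≤ C2 := abs_nonneg _
  set C3 : ℝ := ∑ y ∈ Y, (C1 y + Real.log (1 + cs f (g y))) with hC3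
  have hterm : ∀ y ∈ Y, 0 ≤ C1 y + Real.log (1 + cs f (g y)) := fun y _ =>
    add_nonneg (hC10 y) (Real.log_nonneg (by linarith [cs_nonneg f (g y)]))
  have hC30 : 0 ≤ C3 := Finset.sum_nonneg hterm
  have hC3y : ∀ y ∈ Y, C1 y + Real.log (1 + cs f (g y)) ≤ C3 := fun y hy =>
    Finset.single_le_sum (f := fun y => C1 y + Real.log (1 + cs f (g y))) hterm hy
  refine ⟨C2 + C3, by linarith, ?_⟩
  intro z hz hzI hzl
  have hnp := nrm_pos f hz
  obtain ⟨i, hi⟩ := hcx z hz
  rcases i with j | q | y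
  · simp only [Sum.elim_inl] at hi
    rw [hzI (G j) (by rw [hGI]; exact Ideal.subset_span ⟨j, rfl⟩), map_zero] at hi
    have : 0 < c * nrm f z ^ γ j := by positivity
    linarith
  · -- a form is large
    simp only [Sum.elim_inr, Sum.elim_inl] at hi
    obtain ⟨y0, hy0⟩ := H.hY
    refine ⟨y0, hy0, fun hg0 μ hμ => ?_⟩
    have hq : l[q] ∈ l := List.getElem_mem _
    have h1 := hμ _ hq
    rw [lam_eq f _ _ hz (hzl _ hq)] at h1
    have h2 := Real.log_le_log (by positivity) hi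
    rw [Real.log_mul hc.ne' (pow_pos hnp _).ne', Real.log_pow] at h2
    have h3 : μ ≤ C2 := by
      have := neg_abs_le (Real.log c)
      linarith
    have h4 := lam_low f hz (hgh y0 hy0).1 hg0
    have h5 := hC3y y0 hy0
    have h6 := hC10 y0
    have h7 : μ / M0 ≤ C2 := by
      rw [div_le_iff₀ hM0R]
      nlinarith
    linarith
  · -- near the point `y`
    simp only [Sum.elim_inr] at hi
    refine ⟨y.1, y.2, fun hg0 μ hμ => ?_⟩
    have hh0 : eval z (h y.1) ≠ 0 := by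
      intro h0
      rw [h0, map_zero] at hi
      have : 0 < c * nrm f z ^ e y.1 := by positivity
      linarith
    have h2 := Real.log_le_log (by positivity) hi
    rw [Real.log_mul hc.ne' (pow_pos hnp _).ne', Real.log_pow] at h2
    have h3 : lam f (e y.1) (h y.1) z ≤ C2 := by
      rw [lam_eq f _ _ hz hh0]
      have := neg_abs_le (Real.log c)
      linarith
    have h4 : eval z ((g y.1 * h y.1) ^ M0) ≠ 0 := by
      rw [map_pow, map_mul]
      exact pow_ne_zero _ (mul_ne_zero hg0 hh0)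
    have h5 := hC1 y.1 y.2 z hz hzI hzl h4 μ hμ
    rw [lam_pow f hz _ _ h4, lam_mul f hz _ _ hg0 hh0] at h5
    have h6 := hC3y y.1 y.2
    have h7 : 0 ≤ Real.log (1 + cs f (g y.1)) :=
      Real.log_nonneg (by linarith [cs_nonneg f (g y.1)])
    have h8 := hC10 y.1
    rw [div_le_iff₀ hM0R]
    have h9 : C1 y.1 ≤ (C1 y.1) * M0 := by nlinarith
    have h10 : M0 * (lam f 1 (g y.1) z + lam f (e y.1) (h y.1) z) ≤
        M0 * (lam f 1 (g y.1) z + C2) := mul_le_mul_of_nonneg_left (by linarith) hM0R.le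
    have h11 : (C1 y.1) * M0 ≤ C3 * M0 := mul_le_mul_of_nonneg_right (by linarith) hM0R.le
    nlinarith

end Pool.Agent.R404.TC
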