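import Mathlib
import Pool.Agent.R404.TC.Loc2

set_option autoImplicit false

/-!
The local inequality for the families.
-/

namespace Pool.Agent.R404.TC

open MvPolynomial Finset Module
open Pool.Agent.W180.OP (nrm le_nrm nrm_pos nrm_nonneg exists_nrm lam lam_eq cs cs_nonneg abv_mv
  not_small)

variable {K : Type} [Field K] {n : ℕ}

theorem cc_pos {J : Ideal (MvPolynomial (Fin n) K)} {s : ℕ} (p : MvPolynomial (Fin n) K)
    (hp : p.IsHomogeneous s) (hpJ : p ∉ J) : 0 < cc J s := by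
  by_contra hcon
  have h1 : cc J s = 0 := by omega
  have h2 := rank_gr_le J s
  have h3 : finrank K (gr J s) = finrank K (homogeneousSubmodule (Fin n) K s) := by
    unfold cc at h1
    omega
  have h4 := Submodule.eq_of_le_of_finrank_eq (gr_le J s) h3
  have h5 : p ∈ gr J s := by
    rw [h4]
    exact hp
  exact hpJ h5.1

/-- one family -/
theorem local_one {I : Ideal (MvPolynomial (Fin n) K)} (f : AbsoluteValue K ℝ)
    (l : List (MvPolynomial (Fin n) K × ℕ)) (hpos : ∀ x ∈ l, 0 < x.2)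
    (hhom : ∀ x ∈ l, x.1.IsHomogeneous x.2) (g : MvPolynomial (Fin n) K)
    (t : ℕ) {ι : Type} [Fintype ι] (c : ι → MvPolynomial (Fin n) K) (α : ι → ℕ → ℕ)
    (γ b : ι → ℕ) (hc : ∀ i, (c i).IsHomogeneous (b i))
    (hdeg : ∀ i, degl l (α i) + γ i + b i = t) (β δ M : ℝ) (hβ : 0 ≤ β) (hδ : 0 < δ)
    (hM : 0 < M)
    (hW : ∀ (p : ℕ) (hp : p < l.length), β ≤ (l[p].2 : ℝ) * (∑ i, α i p : ℕ))
    (hΓ : β ≤ δ * (∑ i, γ i : ℕ)) (Cn : ℝ) (hCn : 0 ≤ Cn) :
    ∃ C : ℝ, 0 ≤ C ∧ ∀ z : Fin n → K, z ≠ 0 → (∀ x ∈ l, eval z x.1 ≠ 0) →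
      (∀ i, eval z (prodl l (α i) * g ^ γ i * c i) ≠ 0) →
      (eval z g ≠ 0 → ∀ μ : ℝ, (∀ x ∈ l, μ ≤ lam f x.2 x.1 z) → μ / M ≤ lam f 1 g z + Cn) →
      ∀ μ : ℝ, (∀ x ∈ l, μ ≤ lam f x.2 x.1 z) →
        β * (lamD f l z + 1 / (δ * M) * μ) - C ≤
          ∑ i, lam f t (prodl l (α i) * g ^ γ i * c i) z := by
  classical
  set C0 : ℝ := (l.map fun x => Real.log (1 + cs f x.1)).sum with hC0
  have hlog : ∀ p : MvPolynomial (Fin n) K, 0 ≤ Real.log (1 + cs f p) := fun p =>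
    Real.log_nonneg (by linarith [cs_nonneg f p])
  have hC00 : 0 ≤ C0 := List.sum_nonneg (by
    intro y hy
    obtain ⟨x, -, rfl⟩ := List.mem_map.1 hy
    exact hlog _)
  have hC0x : ∀ x ∈ l, Real.log (1 + cs f x.1) ≤ C0 := by
    intro x hx
    rw [hC0]
    refine List.single_le_sum ?_ _ (List.mem_map.2 ⟨x, hx, rfl⟩)
    intro y hy
    obtain ⟨x, -, rfl⟩ := List.mem_map.1 hy
    exact hlog _
  set W : ℝ := ∑ p ∈ range l.length, ((∑ i, α i p : ℕ) : ℝ) with hWdef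
  have hW0 : 0 ≤ W := Finset.sum_nonneg fun _ _ => Nat.cast_nonneg _
  set Γ : ℝ := ((∑ i, γ i : ℕ) : ℝ) with hΓdef
  have hΓ0 : 0 ≤ Γ := Nat.cast_nonneg _
  set B : ℝ := ∑ i, Real.log (1 + cs f (c i)) with hB
  have hB0 : 0 ≤ B := Finset.sum_nonneg fun _ _ => hlog _
  refine ⟨C0 * W + Γ * (C0 / M + Cn) + B, by positivity, ?_⟩
  intro z hz hzl hze hnear μ hμ
  have hlow : ∀ x ∈ l, - C0 ≤ lam f x.2 x.1 z := by
    intro x hx
    have h1 := lam_low f hz (hhom x hx) (hzl x hx)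
    have h2 := hC0x x hx
    linarith
  -- decomposition
  have hdec : ∀ i, lam f t (prodl l (α i) * g ^ γ i * c i) z =
      lamW f l (fun p => (α i p : ℝ)) z + γ i * lam f 1 g z + lam f (b i) (c i) z := by
    intro i
    have h1 := hze i
    rw [map_mul, map_mul] at h1
    obtain ⟨h2, h3⟩ := mul_ne_zero_iff.1 h1
    obtain ⟨h4, h5⟩ := mul_ne_zero_iff.1 h2
    rw [← hdeg i, lam_mul f hz _ _ (by rw [map_mul]; exact h2) h3, lam_mul f hz _ _ h4 h5,
      lam_prodl f l _ hz h4]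
    have h6 := lam_pow f hz 1 (γ i) h5
    rw [mul_one] at h6
    rw [h6]
  have hsum : ∑ i, lam f t (prodl l (α i) * g ^ γ i * c i) z =
      lamW f l (fun p => ∑ i, (α i p : ℝ)) z + Γ * lam f 1 g z + ∑ i, lam f (b i) (c i) z := by
    simp only [hdec]
    rw [Finset.sum_add_distrib, Finset.sum_add_distrib, lamW_sum, ← Finset.sum_mul, hΓdef]
    push_cast
    rfl
  have hge := lamW_ge f l z C0 hC00 hpos hlow β hβ (fun p => ∑ i, (α i p : ℝ)) (by
    intro p hp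
    have := hW p hp
    push_cast at this
    exact this)
  have hWeq : ∑ p ∈ range l.length, ∑ i, (α i p : ℝ) = W := by
    rw [hWdef]
    push_cast
    rfl
  rw [hWeq] at hge
  have hcl : - B ≤ ∑ i, lam f (b i) (c i) z := by
    rw [hB, ← Finset.sum_neg_distrib]
    refine Finset.sum_le_sum fun i _ => ?_
    have h1 := hze i
    rw [map_mul] at h1
    exact lam_low f hz (hc i) (mul_ne_zero_iff.1 h1).2
  -- the linear form
  have hg : β * (1 / (δ * M) * μ) - Γ * (C0 / M + Cn) ≤ Γ * lam f 1 g z := by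
    rcases Nat.eq_zero_or_pos (∑ i, γ i) with h0 | h0
    · have h1 : Γ = 0 := by rw [hΓdef, h0, Nat.cast_zero]
      have h2 : β = 0 := by
        rw [h1, mul_zero] at hΓ
        exact le_antisymm hΓ hβ
      rw [h1, h2]
      simp
    · obtain ⟨i, -, hi⟩ := Finset.exists_ne_zero_of_sum_ne_zero h0.ne'
      have hgz : eval z g ≠ 0 := by
        intro hg0
        apply hze i
        rw [map_mul, map_mul, map_pow, hg0, zero_pow hi, mul_zero, zero_mul]
      set μ' := max μ (- C0) with hμ'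
      have h1 := hnear hgz μ' fun x hx => max_le (hμ x hx) (hlow x hx)
      have h2 : μ ≤ μ' := le_max_left _ _
      have h3 : - C0 ≤ μ' := le_max_right _ _
      have h4 : β / δ ≤ Γ := by
        rw [div_le_iff₀ hδ]
        linarith
      have h5 : 0 ≤ β / δ := by positivity
      have h6 : β * (1 / (δ * M) * μ) = β / δ * (μ / M) := by
        field_simp
      have h7 : β / δ * (μ / M) ≤ β / δ * (μ' / M) :=
        mul_le_mul_of_nonneg_left (div_le_div_of_nonneg_right h2 hM.le) h5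
      have h8 : 0 ≤ (Γ - β / δ) * (μ' / M + C0 / M) := by
        refine mul_nonneg (by linarith) ?_
        rw [← add_div]
        exact div_nonneg (by linarith) hM.le
      have h9 : 0 ≤ β / δ * (C0 / M) := by positivity
      have h10 := mul_le_mul_of_nonneg_left h1 hΓ0
      rw [h6]
      nlinarith
  rw [hsum]
  have : β * (lamD f l z + 1 / (δ * M) * μ) = β * lamD f l z + β * (1 / (δ * M) * μ) := by ring
  rw [this]
  linarith

/-- the local inequality at a set of crossing points -/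
theorem local_main [Infinite K] {I : Ideal (MvPolynomial (Fin n) K)} {m : ℕ}
    (G : Fin m → MvPolynomial (Fin n) K)
    (γ : Fin m → ℕ) (hG : ∀ j, (G j).IsHomogeneous (γ j)) (hGI : I = Ideal.span (Set.range G))
    {l : List (MvPolynomial (Fin n) K × ℕ)} {Y : Finset (Fin n → K)} (H : Cross I l Y) :
    ∃ c : ℝ, 0 < c ∧ ∀ ε : ℝ, 0 < ε → ε ≤ 1 → ∃ t0 : ℕ, ∀ t, t0 ≤ t →
      ∃ (ι : (Fin n → K) → Type) (_ : ∀ y, Fintype (ι y))
        (e : ∀ y, ι y → MvPolynomial (Fin n) K),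
        (∀ y i, (e y i).IsHomogeneous t) ∧
        (∀ y (κ : ι y → K), ∑ i, C (κ i) * e y i ∈ I → ∀ i, κ i = 0) ∧
        ∀ f : AbsoluteValue K ℝ, ∃ C : ℝ, 0 ≤ C ∧ ∀ z : Fin n → K, z ≠ 0 →
          (∀ q ∈ I, eval z q = 0) → (∀ x ∈ l, eval z x.1 ≠ 0) → ∃ y ∈ Y,
            (∀ i, eval z (e y i) ≠ 0) → ∀ μ : ℝ, (∀ x ∈ l, μ ≤ lam f x.2 x.1 z) →
              (1 - ε) * (t * cc I t) / (l.length + 1) * (lamD f l z + c * μ) - C ≤
                ∑ i, lam f t (e y i) z := by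
  classical
  have hI : HI I := by
    rw [hGI]
    refine HI.of_span ?_
    rintro _ ⟨j, rfl⟩
    exact ⟨_, hG j⟩
  have hJ : HI (Jf I l) := HI.jf l H.hom I hI
  obtain ⟨g, M, hM, hg, hnear⟩ := near G γ hG hGI H
  obtain ⟨δ, s1, hδ1, hδ2⟩ := cc_eventually hJ Y H.y0 H.cov H.hY
  have hgn : ∀ y ∈ Y, ∀ s, g y ^ s ∉ Sat (Jf I l) Y := by
    intro y hy s hs
    obtain ⟨y', hy', hgy'⟩ := (hg y hy).2
    obtain ⟨h, e, h1, h2, h3⟩ := hs y' hy'
    have h4 := H.zero y' hy' _ h3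
    rw [map_mul, map_pow] at h4
    rcases mul_eq_zero.1 h4 with h5 | h5
    · exact h2 h5
    · exact hgy' (eq_zero_of_pow_eq_zero h5)
  have hδpos : 0 < δ := by
    obtain ⟨y, hy⟩ := H.hY
    rw [← hδ2 s1 le_rfl]
    refine cc_pos (g y ^ s1) ?_ (hgn y hy s1)
    have := (hg y hy).1.pow s1
    rwa [one_mul] at this
  have hδR : (0 : ℝ) < δ := by exact_mod_cast hδpos
  have hMR : (0 : ℝ) < M := by exact_mod_cast hM
  refine ⟨1 / (δ * M), by positivity, fun ε hε hε1 => ?_⟩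
  have hdegs : ∀ e ∈ l.map Prod.snd, 0 < e := by
    intro e he
    obtain ⟨x, hx, rfl⟩ := List.mem_map.1 he
    exact H.pos x hx
  obtain ⟨t0, ht0⟩ := sums (cc (Jf I l)) (cc (Sat (Jf I l) Y)) δ s1 s1 hδpos hδ1 hδ2
    (l.map Prod.snd) hdegs (by simpa using H.ne) ε hε hε1
  refine ⟨t0, fun t ht => ?_⟩
  obtain ⟨hW, hΓ⟩ := ht0 t ht
  have hccNN : (cc I t : ℝ) ≤ NN (cc (Jf I l)) (l.map Prod.snd) t := by
    have hne := reg_ne Y H.hY l I H.reg H.zero
    exact_mod_cast cc_le_NN l (fun x hx => ⟨H.pos x hx, H.hom x hx, hne x hx⟩) I hI t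
  set β : ℝ := (1 - ε) * (t * cc I t) / (l.length + 1) with hβ
  have hβ0 : 0 ≤ β := by
    rw [hβ]
    have : 0 ≤ 1 - ε := by linarith
    positivity
  have hlen : (0 : ℝ) < (l.length : ℝ) + 1 := by positivity
  have hβle : β * (l.length + 1) ≤ (1 - ε) * (t * (NN (cc (Jf I l)) (l.map Prod.snd) t : ℝ)) := by
    rw [hβ, div_mul_cancel₀ _ hlen.ne']
    have h1 : (t : ℝ) * cc I t ≤ t * (NN (cc (Jf I l)) (l.map Prod.snd) t : ℝ) :=
      mul_le_mul_of_nonneg_left hccNN (Nat.cast_nonneg t)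
    exact mul_le_mul_of_nonneg_left h1 (by linarith)
  -- the families
  have hfam : ∀ y, ∃ (ι : Type) (_ : Fintype ι) (c : ι → MvPolynomial (Fin n) K)
      (α : ι → ℕ → ℕ) (γ b : ι → ℕ), (∀ κ : ι → K,
        ∑ i, C (κ i) * (prodl l (α i) * g y ^ γ i * c i) ∈ Sat I Y → ∀ i, κ i = 0) ∧
      (∀ i, (prodl l (α i) * g y ^ γ i * c i).IsHomogeneous t) ∧
      (y ∈ Y → (∀ i, (c i).IsHomogeneous (b i)) ∧ (∀ i, degl l (α i) + γ i + b i = t) ∧
        (∀ (p : ℕ) (hp : p < l.length), β ≤ (l[p].2 : ℝ) * (∑ i, α i p : ℕ)) ∧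
        β ≤ δ * (∑ i, γ i : ℕ)) := by
    intro y
    by_cases hy : y ∈ Y
    · obtain ⟨ι, hι, c, α, γ', b, h1, h2, h3, h4, h5, h6⟩ := fam_exists Y l H.pos (g y)
        (hg y hy).1 I H.reg (hgn y hy) t
      refine ⟨ι, hι, c, α, γ', b, h1, fun i => ?_, fun _ => ⟨h2, h3, fun p hp => ?_, ?_⟩⟩
      · rw [← h3 i]
        have h7 := (hg y hy).1.pow (γ' i)
        rw [one_mul] at h7
        exact ((prodl_hom l H.hom (α i)).mul h7).mul (h2 i)
      · have h7 := hW p (by simpa using hp)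
        rw [h5 p hp]
        simp only [List.length_map, List.getElem_map] at h7
        have h8 := hβle.trans h7
        have h9 : ((l.length : ℝ) + 1) * (l[p].2) *
            (WW (cc (Sat (Jf I l) Y)) (l.map Prod.snd) p t : ℝ) =
            ((l[p].2 : ℝ) * (WW (cc (Sat (Jf I l) Y)) (l.map Prod.snd) p t : ℝ)) *
              (l.length + 1) := by ring
        rw [h9] at h8
        exact le_of_mul_le_mul_right h8 hlen
      · rw [h6]
        simp only [List.length_map] at hΓ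
        have h8 := hβle.trans hΓ
        have h9 : ((l.length : ℝ) + 1) * δ * (GG (l.map Prod.snd) t : ℝ) =
            ((δ : ℝ) * (GG (l.map Prod.snd) t : ℝ)) * (l.length + 1) := by ring
        rw [h9] at h8
        exact le_of_mul_le_mul_right h8 hlen
    · exact ⟨Empty, inferInstance, Empty.elim, Empty.elim, Empty.elim, Empty.elim,
        fun _ _ i => i.elim, fun i => i.elim, fun h => absurd h hy⟩
  choose ι hι c α γ' b h1 h2 h3 using hfam
  refine ⟨ι, hι, fun y i => prodl l (α y i) * g y ^ γ' y i * c y i, h2,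
    fun y κ hκ => h1 y κ (le_Sat I Y hκ), fun f => ?_⟩
  obtain ⟨Cn, hCn0, hCn⟩ := hnear f
  have hone : ∀ y, ∃ C : ℝ, 0 ≤ C ∧ (y ∈ Y → ∀ z : Fin n → K, z ≠ 0 →
      (∀ x ∈ l, eval z x.1 ≠ 0) →
      (∀ i, eval z (prodl l (α y i) * g y ^ γ' y i * c y i) ≠ 0) →
      (eval z (g y) ≠ 0 → ∀ μ : ℝ, (∀ x ∈ l, μ ≤ lam f x.2 x.1 z) →
        μ / M ≤ lam f 1 (g y) z + Cn) →
      ∀ μ : ℝ, (∀ x ∈ l, μ ≤ lam f x.2 x.1 z) →
        β * (lamD f l z + 1 / (δ * M) * μ) - C ≤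
          ∑ i, lam f t (prodl l (α y i) * g y ^ γ' y i * c y i) z) := by
    intro y
    by_cases hy : y ∈ Y
    · obtain ⟨g1, g2, g3, g4⟩ := h3 y hy
      obtain ⟨C, hC0, hC⟩ := local_one (I := I) f l H.pos H.hom (g y) t (c y) (α y) (γ' y) (b y)
        g1 g2 β δ M hβ0 hδR hMR g3 g4 Cn hCn0
      exact ⟨C, hC0, fun _ => hC⟩
    · exact ⟨0, le_rfl, fun h => absurd h hy⟩
  choose C hC0 hC using hone
  refine ⟨∑ y ∈ Y, C y, Finset.sum_nonneg fun y _ => hC0 y, ?_⟩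
  intro z hz hzI hzl
  obtain ⟨y, hy, hnr⟩ := hCn z hz hzI hzl
  refine ⟨y, hy, fun hze μ hμ => ?_⟩
  have h4 := hC y hy z hz hzl hze hnr μ hμ
  have h5 : C y ≤ ∑ y ∈ Y, C y := Finset.single_le_sum (f := C) (fun y _ => hC0 y) hy
  linarith

end Pool.Agent.R404.TC
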