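import Mathlib
import Pool.Agent.R404.TC.Alg3

set_option autoImplicit false

/-!
Monomials as words, and a monomial basis modulo a homogeneous ideal.
-/

namespace Pool.Agent.R404.TC

open MvPolynomial Finset Module Height

variable {K : Type} [Field K] {n : ℕ}

/-- the monomial of a word -/
noncomputable def word (K : Type) [Field K] {n t : ℕ} (w : Fin t → Fin n) :
    MvPolynomial (Fin n) K := ∏ a, X (w a)

theorem word_hom {t : ℕ} (w : Fin t → Fin n) : (word K w).IsHomogeneous t := by
  have h := IsHomogeneous.prod (Finset.univ : Finset (Fin t)) (fun a => (X (w a) :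
    MvPolynomial (Fin n) K)) (fun _ => 1) fun a _ => isHomogeneous_X K (w a)
  simpa [word] using h

theorem eval_word {t : ℕ} (w : Fin t → Fin n) (x : Fin n → K) :
    eval x (word K w) = ∏ a, x (w a) := by
  simp [word]

theorem exists_word (t : ℕ) (m : Fin n →₀ ℕ) (hm : m.degree = t) :
    ∃ w : Fin t → Fin n, word K w = monomial m 1 := by
  induction t generalizing m with
  | zero =>
    have : m = 0 := by
      rwa [Finsupp.degree_eq_zero_iff] at hm
    subst this
    exact ⟨Fin.elim0, by simp [word]⟩
  | succ t ih =>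
    have hm0 : m ≠ 0 := by
      rintro rfl
      simp at hm
    obtain ⟨a, ha⟩ := Finsupp.ne_iff.1 hm0
    rw [Finsupp.zero_apply] at ha
    have h0 : m - Finsupp.single a 1 + Finsupp.single a 1 = m := by
      ext i
      rw [Finsupp.add_apply, Finsupp.tsub_apply]
      by_cases hi : a = i
      · subst hi
        rw [Finsupp.single_eq_same]
        omega
      · rw [Finsupp.single_eq_of_ne (Ne.symm hi)]
        omega
    obtain ⟨w, hw⟩ := ih (m - Finsupp.single a 1) (by
      have h1 := congrArg Finsupp.degree h0
      rw [map_add, Finsupp.degree_single, hm] at h1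
      omega)
    refine ⟨Fin.cons a w, ?_⟩
    unfold word at hw ⊢
    rw [Fin.prod_univ_succ]
    simp only [Fin.cons_zero, Fin.cons_succ]
    rw [hw]
    conv_rhs => rw [← h0]
    rw [X, monomial_mul, mul_one, add_comm]

/-- a basis of words modulo an ideal -/
theorem exists_words (I : Ideal (MvPolynomial (Fin n) K)) (t : ℕ) :
    ∃ (N : ℕ) (E : Fin N → Fin t → Fin n), N ≤ cc I t ∧
      (∀ w : Fin N → K, ∑ j, C (w j) * word K (E j) ∈ I → ∀ j, w j = 0) ∧
      ∀ p : MvPolynomial (Fin n) K, p.IsHomogeneous t →
        ∃ w : Fin N → K, p - ∑ j, C (w j) * word K (E j) ∈ I := by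
  classical
  set π : MvPolynomial (Fin n) K →ₗ[K] (MvPolynomial (Fin n) K ⧸ I) :=
    (Ideal.Quotient.mkₐ K I).toLinearMap with hπ
  have hπ0 : ∀ p, π p = 0 ↔ p ∈ I := by
    intro p
    rw [hπ]
    exact Ideal.Quotient.eq_zero_iff_mem
  set s : Set (MvPolynomial (Fin n) K ⧸ I) := Set.range fun w : Fin t → Fin n => π (word K w)
    with hs
  have hsfin : s.Finite := Set.finite_range _
  have hfd : FiniteDimensional K (Submodule.span K s) := FiniteDimensional.span_of_finite K hsfin
  obtain ⟨f, hf1, hf2, hf3⟩ := Submodule.exists_fun_fin_finrank_span_eq K s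
  choose E hE using hf1
  refine ⟨finrank K (Submodule.span K s), E, ?_, ?_, ?_⟩
  · -- the dimension
    set V := homogeneousSubmodule (Fin n) K t with hV
    set φ : V →ₗ[K] (MvPolynomial (Fin n) K ⧸ I) := π.comp V.subtype with hφ
    have h1 : Submodule.span K s ≤ LinearMap.range φ := by
      rw [Submodule.span_le]
      rintro _ ⟨w, rfl⟩
      exact ⟨⟨word K w, word_hom w⟩, rfl⟩
    have h2 := Submodule.finrank_mono h1
    have h3 := LinearMap.finrank_range_add_finrank_ker φ
    have h4 : LinearMap.ker φ = (gr I t).comap V.subtype := by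
      ext p
      rw [LinearMap.mem_ker, Submodule.mem_comap]
      constructor
      · intro h
        exact ⟨(hπ0 _).1 h, p.2⟩
      · intro h
        exact (hπ0 _).2 h.1
    have h5 : finrank K (LinearMap.ker φ) = finrank K (gr I t) := by
      rw [h4]
      exact (Submodule.comapSubtypeEquivOfLe (gr_le I t)).finrank_eq
    rw [cc, ← hV]
    omega
  · intro w hw j
    have h1 : ∑ j, w j • f j = 0 := by
      have h2 := (hπ0 _).2 hw
      rw [map_sum] at h2
      rw [← h2]
      refine Finset.sum_congr rfl fun j _ => ?_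
      rw [← smul_eq_C_mul, map_smul]
      exact congrArg _ (hE j).symm
    exact Fintype.linearIndependent_iff.1 hf3 w h1 j
  · intro p hp
    have h1 : π p ∈ Submodule.span K s := by
      rw [p.as_sum, map_sum]
      refine Submodule.sum_mem _ fun m hm => ?_
      have hdeg : m.degree = t :=
        (DFunLike.congr_fun (Finsupp.degree_eq_weight_one (σ := Fin n) (R := ℕ)) m).trans
          (hp (mem_support_iff.1 hm))
      obtain ⟨w, hw⟩ := exists_word (K := K) t m hdeg
      have h2 : monomial m (coeff m p) = coeff m p • word K w := by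
        rw [hw, smul_monomial, smul_eq_mul, mul_one]
      rw [h2, map_smul]
      exact Submodule.smul_mem _ _ (Submodule.subset_span ⟨w, rfl⟩)
    rw [← hf2] at h1
    obtain ⟨w, hw⟩ := (Submodule.mem_span_range_iff_exists_fun K).1 h1
    refine ⟨w, (hπ0 _).1 ?_⟩
    rw [map_sub, ← hw, sub_eq_zero, map_sum]
    refine Finset.sum_congr rfl fun j _ => ?_
    rw [← smul_eq_C_mul, map_smul]
    exact congrArg _ (hE j).symm

/-- the height of the point whose coordinates are monomials -/
theorem height_words {k : Type} [Field k] [NumberField k] {N t : ℕ} (E : Fin N → Fin t → Fin n)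
    (x : Fin n → k) (hx : x ≠ 0) :
    logHeight (fun j => ∏ a, x (E j a)) ≤ t * logHeight x := by
  have h1 := logHeight_comp_le (K := k) E (fun w : Fin t → Fin n => ∏ a, x (w a))
  have h2 := logHeight_fun_prod_eq (K := k) (α := Fin t) (ι := fun _ => Fin n)
    (x := fun _ => x) (fun _ => hx)
  rw [h2, Finset.sum_const, card_univ, Fintype.card_fin, nsmul_eq_mul] at h1
  exact h1

end Pool.Agent.R404.TC
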