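import Mathlib
import Pool.Agent.R404.TC.Word
import Pool.Agent.R405.Core

set_option autoImplicit false
set_option linter.unusedSectionVars false

/-!
The subspace theorem for families of forms on a projective scheme.
-/

namespace Pool.Agent.R404.TC

open MvPolynomial Finset Module Height NumberField
open Pool.Agent.W180.OP (Pl av wt nrm le_nrm nrm_pos nrm_nonneg exists_nrm lam lam_eq wt_nonneg
  cs cs_nonneg abv_mv nrm_le)
open Pool.Agent.R405 (Good up up_ne sch Good.nrm_ext Good.ext)

theorem extend_rows {K : Type} [Field K] {N : ℕ} {ι : Type} [Fintype ι] (b : ι → Fin N → K)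
    (hb : LinearIndependent K b) : ∃ (B : Fin N → Fin N → K) (τ : ι → Fin N),
      Function.Injective τ ∧ (∀ i, B (τ i) = b i) ∧ (Matrix.of B).det ≠ 0 := by
  classical
  let Bs := Module.Basis.sumExtend hb
  have hfin : Finite (ι ⊕ Module.Basis.sumExtendIndex hb) := Module.Finite.finite_basis Bs
  have := Fintype.ofFinite (ι ⊕ Module.Basis.sumExtendIndex hb)
  have hcard : Fintype.card (ι ⊕ Module.Basis.sumExtendIndex hb) = Fintype.card (Fin N) := by
    rw [← Module.finrank_eq_card_basis Bs, Fintype.card_fin, Module.finrank_fin_fun]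
  let σ := Fintype.equivOfCardEq hcard
  refine ⟨fun a => Bs (σ.symm a), fun i => σ (Sum.inl i), ?_, ?_, ?_⟩
  · intro i j hij
    have := σ.injective hij
    simpa using this
  · intro i
    simp only [Equiv.symm_apply_apply]
    simp only [Bs, Module.Basis.sumExtend, Module.Basis.reindex_apply,
      Module.Basis.extend_apply_self]
    rfl
  · have h1 : LinearIndependent K (fun a => Bs (σ.symm a)) :=
      Bs.linearIndependent.comp _ σ.symm.injective
    have h2 := (Matrix.linearIndependent_rows_iff_isUnit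
      (A := Matrix.of fun a => Bs (σ.symm a))).1 h1
    rw [Matrix.isUnit_iff_isUnit_det] at h2
    exact h2.ne_zero

variable {k K : Type} [Field k] [NumberField k] [Field K] [NumberField K] [Algebra k K]

/-- the value of a combination of words at a rational point -/
theorem eval_comb {n t N : ℕ} (E : Fin N → Fin t → Fin n) (w : Fin N → K) (x : Fin n → k) :
    eval (up K x) (∑ j, C (w j) * word K (E j)) =
      ∑ j, w j * algebraMap k K (∏ a, x (E j a)) := by
  rw [map_sum]
  refine Finset.sum_congr rfl fun j _ => ?_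
  rw [map_mul, eval_C, eval_word, map_prod]
  rfl

theorem sub_fam [IsGalois ℚ K] (hi : ∃ z : K, z ^ 2 = -1) {n : ℕ}
    (I : Ideal (MvPolynomial (Fin n) K)) {t N : ℕ} (hN : 1 ≤ N) (E : Fin N → Fin t → Fin n)
    (hE : ∀ p : MvPolynomial (Fin n) K, p.IsHomogeneous t →
        ∃ w : Fin N → K, p - ∑ j, C (w j) * word K (E j) ∈ I)
    (S : Finset (Pl k)) (f : Pl k → AbsoluteValue K ℝ) (hf : ∀ v ∈ S, Good v (f v))
    (ι : Pl k → Type) [∀ v, Fintype (ι v)] (e : ∀ v, ι v → MvPolynomial (Fin n) K)
    (he : ∀ v i, (e v i).IsHomogeneous t)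
    (hind : ∀ v ∈ S, ∀ κ : ι v → K, ∑ i, C (κ i) * e v i ∈ I → ∀ i, κ i = 0)
    (ε : ℝ) (hε : 0 < ε) :
    ∃ (Z : Finset (Fin N → K)) (C : ℝ), (∀ z ∈ Z, z ≠ 0) ∧ ∀ x : Fin n → k, x ≠ 0 →
      (∀ p ∈ I, eval (up K x) p = 0) →
      (∀ z ∈ Z, ∑ j, z j * algebraMap k K (∏ a, x (E j a)) ≠ 0) →
      (∀ v ∈ S, ∀ i, eval (up K x) (e v i) ≠ 0) ∧
      ∑ v ∈ S, wt v * ∑ i, lam (f v) t (e v i) (up K x) ≤ (N + ε) * (t * logHeight x) + C := by
  classical
  -- the rows
  have hb := fun v i => hE (e v i) (he v i)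
  choose b hb using hb
  have hbind : ∀ v ∈ S, LinearIndependent K (b v) := by
    intro v hv
    rw [Fintype.linearIndependent_iff]
    intro κ hκ
    refine hind v hv κ ?_
    have h1 : ∑ i, C (κ i) * e v i = ∑ i, C (κ i) * (e v i - ∑ j, C (b v i j) * word K (E j)) +
        ∑ j, C ((∑ i, κ i • b v i) j) * word K (E j) := by
      have h2 : ∑ j, C ((∑ i, κ i • b v i) j) * word K (E j) =
          ∑ i, C (κ i) * ∑ j, C (b v i j) * word K (E j) := by
        simp only [Finset.mul_sum]
        rw [Finset.sum_comm]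
        refine Finset.sum_congr rfl fun j _ => ?_
        rw [Finset.sum_apply, map_sum, Finset.sum_mul]
        refine Finset.sum_congr rfl fun i _ => ?_
        rw [Pi.smul_apply, smul_eq_mul, C_mul]
        ring
      rw [h2, ← Finset.sum_add_distrib]
      refine Finset.sum_congr rfl fun i _ => ?_
      ring
    rw [h1, hκ]
    refine I.add_mem (I.sum_mem fun i _ => I.mul_mem_left _ (hb v i)) ?_
    simp
  have hrows : ∀ v, ∃ (B : Fin N → Fin N → K) (τ : ι v → Fin N), v ∈ S →
      Function.Injective τ ∧ (∀ i, B (τ i) = b v i) ∧ (Matrix.of B).det ≠ 0 := by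
    intro v
    by_cases hv : v ∈ S
    · obtain ⟨B, τ, h⟩ := extend_rows (b v) (hbind v hv)
      exact ⟨B, τ, fun _ => h⟩
    · exact ⟨fun _ _ => 0, fun _ => ⟨0, hN⟩, fun h => absurd h hv⟩
  choose B τ hB using hrows
  obtain ⟨Z, C0, hZ, hC0⟩ := sch hi hN S f hf B (fun v hv => (hB v hv).2.2) ε hε
  -- the powers of the coordinates
  have hpow : ∀ a : Fin n, ∃ w : Fin N → K,
      (X a : MvPolynomial (Fin n) K) ^ t - ∑ j, C (w j) * word K (E j) ∈ I := fun a =>
    hE _ (by simpa using (isHomogeneous_X K a).pow t)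
  choose w hw using hpow
  -- constants
  set c1 : Pl k → ℝ := fun v => 1 + ∑ a, ∑ j, f v (w a j) with hc1
  have hc1pos : ∀ v, 1 ≤ c1 v := by
    intro v
    have : 0 ≤ ∑ a, ∑ j, f v (w a j) :=
      Finset.sum_nonneg fun _ _ => Finset.sum_nonneg fun _ _ => (f v).nonneg _
    rw [hc1]
    simp only
    linarith
  set c2 : Pl k → Fin N → ℝ := fun v a => 1 + ∑ j, f v (B v a j) with hc2
  have hc2pos : ∀ v a, 1 ≤ c2 v a := by
    intro v a
    have : 0 ≤ ∑ j, f v (B v a j) := Finset.sum_nonneg fun _ _ => (f v).nonneg _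
    rw [hc2]
    simp only
    linarith
  set C1 : ℝ := ∑ v ∈ S, wt v * (Fintype.card (ι v) * Real.log (c1 v) +
    ∑ a, Real.log (c2 v a)) with hC1
  refine ⟨Z ∪ S.biUnion (fun v => Finset.univ.image (B v)), C0 + C1, ?_, ?_⟩
  · intro z hz
    rcases Finset.mem_union.1 hz with h | h
    · exact hZ z h
    · obtain ⟨v, hv, h⟩ := Finset.mem_biUnion.1 h
      obtain ⟨a, -, rfl⟩ := Finset.mem_image.1 h
      intro h0
      exact (hB v hv).2.2 (Matrix.det_eq_zero_of_row_eq_zero a fun j => congrFun h0 j)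
  intro x hx hxI hxZ
  set ex : Fin N → k := fun j => ∏ a, x (E j a) with hex
  have hxup : up K x ≠ 0 := up_ne hx
  -- the forms at `x`
  have hval : ∀ v i, eval (up K x) (e v i) = ∑ j, b v i j * algebraMap k K (ex j) := by
    intro v i
    have h1 := hxI _ (hb v i)
    rw [map_sub, eval_comb, sub_eq_zero] at h1
    exact h1
  have hvalB : ∀ v ∈ S, ∀ i, eval (up K x) (e v i) =
      ∑ j, B v (τ v i) j * algebraMap k K (ex j) := by
    intro v hv i
    rw [hval, (hB v hv).2.1 i]
  have hBne : ∀ v ∈ S, ∀ a, ∑ j, B v a j * algebraMap k K (ex j) ≠ 0 := by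
    intro v hv a
    exact hxZ _ (Finset.mem_union_right _ (Finset.mem_biUnion.2
      ⟨v, hv, Finset.mem_image_of_mem _ (Finset.mem_univ a)⟩))
  have hene : ∀ v ∈ S, ∀ i, eval (up K x) (e v i) ≠ 0 := by
    intro v hv i
    rw [hvalB v hv i]
    exact hBne v hv _
  refine ⟨hene, ?_⟩
  have hsch := hC0 ex (fun z hz => hxZ z (Finset.mem_union_left _ hz))
  have hht : logHeight ex ≤ t * logHeight x := height_words E x hx
  have hex0 : ∀ v ∈ S, ex ≠ 0 := by
    intro v hv h
    refine hBne v hv ⟨0, hN⟩ ?_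
    rw [h]
    simp
  -- norms
  have hn : ∀ v ∈ S, t * Real.log (nrm (av v) x) ≤ Real.log (c1 v) + Real.log (nrm (av v) ex) := by
    intro v hv
    have hgood := hf v hv
    obtain ⟨a0, -⟩ := Function.ne_iff.1 hx
    have hnpos : 0 < n := Fin.pos a0
    obtain ⟨a, ha⟩ := exists_nrm (av v) hnpos x
    have h1 := hxI _ (hw a)
    rw [map_sub, eval_comb, sub_eq_zero, map_pow, eval_X] at h1
    have h2 : nrm (av v) x ^ t ≤ c1 v * nrm (av v) ex := by
      have h3 : nrm (av v) x ^ t = f v (up K x a ^ t) := by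
        rw [map_pow, ← ha]
        congr 1
        exact (hgood.ext (x a)).symm
      rw [h3, h1]
      refine ((f v).sum_le _ _).trans ?_
      have h4 : ∀ j, f v (w a j * algebraMap k K (ex j)) ≤ f v (w a j) * nrm (av v) ex := by
        intro j
        rw [map_mul, hgood.ext]
        exact mul_le_mul_of_nonneg_left (le_nrm _ _ _) ((f v).nonneg _)
      refine (Finset.sum_le_sum fun j _ => h4 j).trans ?_
      rw [← Finset.sum_mul]
      refine mul_le_mul_of_nonneg_right ?_ (nrm_nonneg _ _)
      have h5 : ∑ j, f v (w a j) ≤ ∑ a, ∑ j, f v (w a j) :=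
        Finset.single_le_sum (f := fun a => ∑ j, f v (w a j))
          (fun _ _ => Finset.sum_nonneg fun _ _ => (f v).nonneg _) (Finset.mem_univ a)
      rw [hc1]
      simp only
      linarith
    have h6 := Real.log_le_log (pow_pos (nrm_pos _ hx) t) h2
    have h7 : c1 v ≠ 0 := by
      have := hc1pos v
      linarith
    rw [Real.log_pow, Real.log_mul h7 (nrm_pos _ (hex0 v hv)).ne'] at h6
    exact h6
  -- one place
  have hplace : ∀ v ∈ S, ∑ i, lam (f v) t (e v i) (up K x) ≤
      ∑ a, (Real.log (nrm (av v) ex) -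
        Real.log (f v (∑ j, B v a j * algebraMap k K (ex j)))) +
      (Fintype.card (ι v) * Real.log (c1 v) + ∑ a, Real.log (c2 v a)) := by
    intro v hv
    have hgood := hf v hv
    set T : Fin N → ℝ := fun a => Real.log (nrm (av v) ex) -
        Real.log (f v (∑ j, B v a j * algebraMap k K (ex j))) with hT
    have hTlow : ∀ a, 0 ≤ T a + Real.log (c2 v a) := by
      intro a
      have h1 : f v (∑ j, B v a j * algebraMap k K (ex j)) ≤ c2 v a * nrm (av v) ex := by
        refine ((f v).sum_le _ _).trans ?_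
        have h4 : ∀ j, f v (B v a j * algebraMap k K (ex j)) ≤ f v (B v a j) * nrm (av v) ex := by
          intro j
          rw [map_mul, hgood.ext]
          exact mul_le_mul_of_nonneg_left (le_nrm _ _ _) ((f v).nonneg _)
        refine (Finset.sum_le_sum fun j _ => h4 j).trans ?_
        rw [← Finset.sum_mul]
        refine mul_le_mul_of_nonneg_right ?_ (nrm_nonneg _ _)
        rw [hc2]
        simp only
        linarith
      have h2 := Real.log_le_log ((f v).pos_iff.2 (hBne v hv a)) h1
      have h7 : c2 v a ≠ 0 := by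
        have := hc2pos v a
        linarith
      rw [Real.log_mul h7 (nrm_pos _ (hex0 v hv)).ne'] at h2
      rw [hT]
      simp only
      linarith
    have hlam : ∀ i, lam (f v) t (e v i) (up K x) ≤ Real.log (c1 v) + T (τ v i) := by
      intro i
      rw [lam_eq _ _ _ hxup (hene v hv i), hvalB v hv i]
      have h1 := hn v hv
      have h2 : nrm (f v) (up K x) = nrm (av v) x := hgood.nrm_ext x
      rw [h2, hT]
      simp only
      linarith
    have h1 : ∑ i, lam (f v) t (e v i) (up K x) ≤
        ∑ i, (Real.log (c1 v) + (T (τ v i) + Real.log (c2 v (τ v i)))) := by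
      refine Finset.sum_le_sum fun i _ => (hlam i).trans ?_
      have := Real.log_nonneg (hc2pos v (τ v i))
      linarith
    rw [Finset.sum_add_distrib, Finset.sum_const, card_univ, nsmul_eq_mul] at h1
    have h2 : ∑ i, (T (τ v i) + Real.log (c2 v (τ v i))) ≤ ∑ a, (T a + Real.log (c2 v a)) := by
      have h3 := Finset.sum_image (f := fun a => T a + Real.log (c2 v a))
        (s := (Finset.univ : Finset (ι v))) (g := τ v) ((hB v hv).1.injOn)
      rw [← h3]
      exact Finset.sum_le_sum_of_subset_of_nonneg (Finset.subset_univ _) fun a _ _ => hTlow a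
    have h3 : ∑ a, (T a + Real.log (c2 v a)) = ∑ a, T a + ∑ a, Real.log (c2 v a) :=
      Finset.sum_add_distrib
    rw [h3] at h2
    linarith
  have h1 : ∑ v ∈ S, wt v * ∑ i, lam (f v) t (e v i) (up K x) ≤
      ∑ v ∈ S, (wt v * ∑ a, (Real.log (nrm (av v) ex) -
        Real.log (f v (∑ j, B v a j * algebraMap k K (ex j)))) +
      wt v * (Fintype.card (ι v) * Real.log (c1 v) + ∑ a, Real.log (c2 v a))) := by
    refine Finset.sum_le_sum fun v hv => ?_
    rw [← mul_add]
    exact mul_le_mul_of_nonneg_left (hplace v hv) (wt_nonneg v)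
  rw [Finset.sum_add_distrib] at h1
  have h2 : ((N : ℝ) + ε) * logHeight ex ≤ (N + ε) * (t * logHeight x) :=
    mul_le_mul_of_nonneg_left hht (by positivity)
  rw [hC1]
  linarith

end Pool.Agent.R404.TC
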