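import Mathlib
import Pool.Agent.R404.TC.Loc3
import Pool.Agent.R404.TC.Sub

set_option autoImplicit false
set_option linter.unusedSectionVars false

/-!
The inequality over a large number field.
-/

namespace Pool.Agent.R404.TC

open MvPolynomial Finset Module Height NumberField
open Pool.Agent.W180.OP (Pl av wt nrm le_nrm nrm_pos nrm_nonneg exists_nrm lam lam_eq wt_nonneg
  cs cs_nonneg abv_mv not_small)
open Pool.Agent.R405 (Good up up_ne)

section loc

variable {K : Type} [Field K] {n : ℕ}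

/-- the list of forms of a tuple of components -/
noncomputable def lst {q r : ℕ} (F : Fin q → MvPolynomial (Fin n) K) (d : Fin q → ℕ)
    (σ : Fin r → Fin q) : List (MvPolynomial (Fin n) K × ℕ) :=
  List.ofFn fun j => (F (σ j), d (σ j))

theorem mem_lst {q r : ℕ} {F : Fin q → MvPolynomial (Fin n) K} {d : Fin q → ℕ}
    {σ : Fin r → Fin q} {x : MvPolynomial (Fin n) K × ℕ} :
    x ∈ lst F d σ ↔ ∃ j, (F (σ j), d (σ j)) = x := by
  unfold lst
  rw [List.mem_ofFn']
  exact Set.mem_range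

theorem lamD_ofFn (f : AbsoluteValue K ℝ) {r : ℕ} (a : Fin r → MvPolynomial (Fin n) K × ℕ)
    (z : Fin n → K) :
    lamD f (List.ofFn a) z = ∑ j, lam f (a j).2 (a j).1 z / (a j).2 := by
  induction r with
  | zero => simp [lamD]
  | succ r ih =>
    rw [List.ofFn_succ, Fin.sum_univ_succ]
    simp only [lamD]
    rw [ih]

theorem lamD_lst (f : AbsoluteValue K ℝ) {q r : ℕ} (F : Fin q → MvPolynomial (Fin n) K)
    (d : Fin q → ℕ) (σ : Fin r → Fin q) (z : Fin n → K) :
    lamD f (lst F d σ) z = ∑ j, lam f (d (σ j)) (F (σ j)) z / d (σ j) :=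
  lamD_ofFn f _ z

/-- all but `r` of the local heights are bounded -/
theorem few {I : Ideal (MvPolynomial (Fin n) K)} {m : ℕ}
    (G : Fin m → MvPolynomial (Fin n) K)
    (γ : Fin m → ℕ) (hG : ∀ j, (G j).IsHomogeneous (γ j)) (hGI : I = Ideal.span (Set.range G))
    (hn : 0 < n) {q r : ℕ} (hr : r ≤ q) (F : Fin q → MvPolynomial (Fin n) K) (d : Fin q → ℕ)
    (hF : ∀ i, (F i).IsHomogeneous (d i))
    (hno : ∀ T : Finset (Fin q), T.card = r + 1 → ∀ (L : Type) [Field L] [Algebra K L]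
      (x : Fin n → L), (∀ j, aeval x (G j) = 0) → (∀ i ∈ T, aeval x (F i) = 0) → x = 0)
    (f : AbsoluteValue K ℝ) :
    ∃ C : ℝ, 0 ≤ C ∧ ∀ z : Fin n → K, z ≠ 0 → (∀ p ∈ I, eval z p = 0) →
      (∀ i, eval z (F i) ≠ 0) → ∃ σ : Fin r → Fin q, StrictMono σ ∧
        ∀ i, i ∉ Set.range σ → lam f (d i) (F i) z ≤ C := by
  classical
  have hT : ∀ T : Finset (Fin q), ∃ C : ℝ, 0 ≤ C ∧ (T.card = r + 1 → ∀ z : Fin n → K, z ≠ 0 →
      (∀ p ∈ I, eval z p = 0) → (∀ i, eval z (F i) ≠ 0) → ∃ i ∈ T, lam f (d i) (F i) z ≤ C) := by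
    intro T
    by_cases hT : T.card = r + 1
    · obtain ⟨c, hc, hcx⟩ := not_small (ι := Fin m ⊕ T) hn
        (Sum.elim G (fun i => F i.1)) (Sum.elim γ (fun i => d i.1)) (by
          rintro (j | i)
          · exact hG j
          · exact hF i.1) (by
          intro L _ _ x hx
          exact hno T hT L x (fun j => hx (Sum.inl j)) (fun i hi => hx (Sum.inr ⟨i, hi⟩))) f
      refine ⟨|Real.log c|, abs_nonneg _, fun _ z hz hzI hzF => ?_⟩
      have hnp := nrm_pos f hz
      obtain ⟨i, hi⟩ := hcx z hz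
      rcases i with j | i
      · simp only [Sum.elim_inl] at hi
        rw [hzI (G j) (by rw [hGI]; exact Ideal.subset_span ⟨j, rfl⟩), map_zero] at hi
        have : 0 < c * nrm f z ^ γ j := by positivity
        linarith
      · simp only [Sum.elim_inr] at hi
        refine ⟨i.1, i.2, ?_⟩
        have h2 := Real.log_le_log (by positivity) hi
        rw [Real.log_mul hc.ne' (pow_pos hnp _).ne', Real.log_pow] at h2
        rw [lam_eq f _ _ hz (hzF _)]
        have := neg_abs_le (Real.log c)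
        linarith
    · exact ⟨0, le_rfl, fun h => absurd h hT⟩
  choose C hC0 hC using hT
  refine ⟨∑ T, C T, Finset.sum_nonneg fun T _ => hC0 T, fun z hz hzI hzF => ?_⟩
  set B := ∑ T, C T with hB
  set A : Finset (Fin q) := Finset.univ.filter fun i => B < lam f (d i) (F i) z with hA
  have hcard : A.card ≤ r := by
    by_contra hcon
    push Not at hcon
    obtain ⟨T, hTA, hTc⟩ := Finset.exists_subset_card_eq (s := A) (n := r + 1) hcon
    obtain ⟨i, hi, hle⟩ := hC T hTc z hz hzI hzF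
    have h1 := (Finset.mem_filter.1 (hTA hi)).2
    have h2 : C T ≤ B := Finset.single_le_sum (f := C) (fun T _ => hC0 T) (Finset.mem_univ T)
    linarith
  obtain ⟨T, hAT, -, hTc⟩ := Finset.exists_subsuperset_card_eq (Finset.subset_univ A) hcard
    (by simpa using hr)
  refine ⟨T.orderEmbOfFin hTc, (T.orderEmbOfFin hTc).strictMono, fun i hi => ?_⟩
  rw [Finset.range_orderEmbOfFin, Finset.mem_coe] at hi
  by_contra hcon
  push Not at hcon
  exact hi (hAT (Finset.mem_filter.2 ⟨Finset.mem_univ _, hcon⟩))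

end loc

variable {k K : Type} [Field k] [NumberField k] [Field K] [NumberField K] [Algebra k K]

theorem main [IsGalois ℚ K] (hi : ∃ z : K, z ^ 2 = -1) {n : ℕ}
    {I : Ideal (MvPolynomial (Fin n) K)} {m : ℕ} (G : Fin m → MvPolynomial (Fin n) K)
    (γ : Fin m → ℕ) (hG : ∀ j, (G j).IsHomogeneous (γ j)) (hGI : I = Ideal.span (Set.range G))
    {q r : ℕ} (hr0 : 0 < r) (hr : r ≤ q) (F : Fin q → MvPolynomial (Fin n) K) (d : Fin q → ℕ)
    (hd : ∀ i, 0 < d i) (hF : ∀ i, (F i).IsHomogeneous (d i))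
    (hno : ∀ T : Finset (Fin q), T.card = r + 1 → ∀ (L : Type) [Field L] [Algebra K L]
      (x : Fin n → L), (∀ j, aeval x (G j) = 0) → (∀ i ∈ T, aeval x (F i) = 0) → x = 0)
    (Y : (Fin r → Fin q) → Finset (Fin n → K))
    (hY : ∀ σ : Fin r → Fin q, StrictMono σ → Cross I (lst F d σ) (Y σ)) :
    ∃ c : ℝ, 0 < c ∧ ∀ (S : Finset (Pl k)) (f : Pl k → AbsoluteValue K ℝ),
      (∀ v ∈ S, Good v (f v)) → ∀ ε : ℝ, 0 < ε → ∃ (t N : ℕ) (E : Fin N → Fin t → Fin n)
        (Z : Finset (Fin N → K)) (C : ℝ),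
        (∀ w : Fin N → K, ∑ j, MvPolynomial.C (w j) * word K (E j) ∈ I → ∀ j, w j = 0) ∧
        (∀ z ∈ Z, z ≠ 0) ∧ ∀ x : Fin n → k, x ≠ 0 → (∀ p ∈ I, eval (up K x) p = 0) →
          (∀ i, eval (up K x) (F i) ≠ 0) →
          (∀ z ∈ Z, ∑ j, z j * algebraMap k K (∏ a, x (E j a)) ≠ 0) →
          ∀ (τ : Pl k → Fin r → Fin q), (∀ v, Function.Injective (τ v)) → ∀ μ : Pl k → ℝ,
            (∀ v ∈ S, ∀ j, μ v ≤ lam (f v) (d (τ v j)) (F (τ v j)) (up K x)) →
            ∑ v ∈ S, wt v * (∑ i, lam (f v) (d i) (F i) (up K x) / d i + c * μ v) ≤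
              (r + 1 + ε) * logHeight x + C := by
  classical
  -- a place where all is trivial
  have hn : 0 < n := by
    obtain ⟨σ, hσ⟩ : ∃ σ : Fin r → Fin q, StrictMono σ :=
      ⟨Fin.castLE hr, Fin.strictMono_castLE hr⟩
    obtain ⟨y, hy⟩ := (hY σ hσ).hY
    obtain ⟨a, -⟩ := Function.ne_iff.1 ((hY σ hσ).y0 y hy)
    exact Fin.pos a
  -- the local inequalities
  have hlm := fun σ : {σ : Fin r → Fin q // StrictMono σ} =>
    local_main G γ hG hGI (hY σ.1 σ.2)
  choose c0 hc0 hlm using hlm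
  have hne : Nonempty {σ : Fin r → Fin q // StrictMono σ} :=
    ⟨⟨Fin.castLE hr, Fin.strictMono_castLE hr⟩⟩
  obtain ⟨σ0, -, hσ0⟩ := Finset.exists_min_image
    (Finset.univ : Finset {σ : Fin r → Fin q // StrictMono σ}) c0 Finset.univ_nonempty
  refine ⟨c0 σ0, hc0 σ0, ?_⟩
  set c := c0 σ0 with hc
  have hcpos : 0 < c := hc0 σ0
  intro S f hf ε hε
  -- the small number
  set ε1 : ℝ := ε / (2 * (r + 1) + ε) with hε1
  have hden : (0 : ℝ) < 2 * (r + 1) + ε := by positivity
  have hε10 : 0 < ε1 := by positivity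
  have hε1lt : ε1 < 1 := by
    rw [hε1, div_lt_one hden]
    have : (0 : ℝ) ≤ r := Nat.cast_nonneg r
    linarith
  have hεε : (1 + ε1) * (r + 1) ≤ (r + 1 + ε) * (1 - ε1) := by
    have h1 : ε1 * (2 * (r + 1) + ε) = ε := by rw [hε1]; field_simp
    nlinarith
  have ht0 := fun σ => hlm σ ε1 hε10 hε1lt.le
  choose t0 ht0 using ht0
  set t : ℕ := ∑ σ, t0 σ + 1 with ht
  have htle : ∀ σ, t0 σ ≤ t := fun σ => by
    have := Finset.single_le_sum (f := t0) (fun _ _ => Nat.zero_le _) (Finset.mem_univ σ)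
    omega
  have hfam := fun σ => ht0 σ t (htle σ)
  choose ι hι e he1 he2 he3 using hfam
  obtain ⟨N, E, hN, hE1, hE2⟩ := exists_words I t
  rcases Nat.eq_zero_or_pos N with hN0 | hNpos
  · subst hN0
    refine ⟨t, 0, E, ∅, 0, hE1, fun z hz => absurd hz (Finset.notMem_empty z), ?_⟩
    intro x hx hxI
    exfalso
    obtain ⟨a, ha⟩ := Function.ne_iff.1 hx
    obtain ⟨w, hw⟩ := hE2 ((X a : MvPolynomial (Fin n) K) ^ t)
      (by simpa using (isHomogeneous_X K a).pow t)
    have h1 := hxI _ hw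
    simp only [Finset.univ_eq_empty, Finset.sum_empty, sub_zero, map_pow, eval_X] at h1
    have h2 := eq_zero_of_pow_eq_zero h1
    apply ha
    have h3 : algebraMap k K (x a) = 0 := h2
    exact (map_eq_zero _).1 h3
  -- the choices
  let Ξ : Type := Σ σ : {σ : Fin r → Fin q // StrictMono σ}, Y σ.1
  have hΞ : Nonempty Ξ := ⟨⟨σ0, ⟨_, (hY σ0.1 σ0.2).hY.choose_spec⟩⟩⟩
  let ξ0 : Ξ := Classical.choice hΞ
  let ext : (S → Ξ) → Pl k → Ξ := fun χ v => if h : v ∈ S then χ ⟨v, h⟩ else ξ0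
  have hsub := fun χ : S → Ξ => sub_fam (k := k) (K := K) hi I hNpos E hE2 S f hf
    (fun v => ι (ext χ v).1 (ext χ v).2.1) (fun v => e (ext χ v).1 (ext χ v).2.1)
    (fun v i => he1 (ext χ v).1 (ext χ v).2.1 i)
    (fun v _ κ hκ => he2 (ext χ v).1 (ext χ v).2.1 κ hκ) ε1 hε10
  choose Zχ Cχ hZχ hCχ using hsub
  -- the constants
  have hfew := fun v => few G γ hG hGI hn hr F d hF hno (f v)
  choose Cf hCf0 hCf using hfew
  have hloc := fun σ v => he3 σ (f v)
  choose Cl hCl0 hCl using hloc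
  set C0 : Pl k → ℝ := fun v => ∑ i, Real.log (1 + cs (f v) (F i)) with hC0
  have hlog : ∀ (g : AbsoluteValue K ℝ) (p : MvPolynomial (Fin n) K), 0 ≤ Real.log (1 + cs g p) :=
    fun g p => Real.log_nonneg (by linarith [cs_nonneg g p])
  have hC00 : ∀ v, 0 ≤ C0 v := fun v => Finset.sum_nonneg fun i _ => hlog _ _
  set a : ℝ := t * cc I t / (r + 1) with ha
  have hcc : (1 : ℝ) ≤ cc I t := by
    have : 1 ≤ cc I t := by omega
    exact_mod_cast this
  have htR : (1 : ℝ) ≤ t := by
    have : 1 ≤ t := by omega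
    exact_mod_cast this
  have hr1 : (0 : ℝ) < (r : ℝ) + 1 := by positivity
  have hapos : 0 < a := by positivity
  -- local constants for the final estimate
  set D : Pl k → ℝ := fun v => q * (Cf v) + c * (Cf v + C0 v) +
    ∑ σ, (c0 σ * C0 v + Cl σ v / ((1 - ε1) * a)) with hD
  have h1ε : 0 < 1 - ε1 := by linarith
  have hD0 : ∀ v, 0 ≤ D v := by
    intro v
    have h1 := hCf0 v
    have h2 := hC00 v
    have h3 : 0 ≤ ∑ σ, (c0 σ * C0 v + Cl σ v / ((1 - ε1) * a)) :=
      Finset.sum_nonneg fun σ _ => add_nonneg (mul_nonneg (hc0 σ).le h2)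
        (div_nonneg (hCl0 σ v) (by positivity))
    rw [hD]
    simp only
    positivity
  refine ⟨t, N, E, Finset.univ.biUnion Zχ,
    ∑ v ∈ S, wt v * D v + (∑ χ, |Cχ χ|) / ((1 - ε1) * a), hE1, ?_, ?_⟩
  · intro z hz
    obtain ⟨χ, -, h⟩ := Finset.mem_biUnion.1 hz
    exact hZχ χ z h
  intro x hx hxI hxF hxZ τ hτ μ hμ
  set z := up K x with hz
  have hz0 : z ≠ 0 := up_ne hx
  have hlow : ∀ v i, - C0 v ≤ lam (f v) (d i) (F i) z := by
    intro v i
    have h1 := lam_low (f v) hz0 (hF i) (hxF i)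
    have h2 : Real.log (1 + cs (f v) (F i)) ≤ C0 v :=
      Finset.single_le_sum (f := fun i => Real.log (1 + cs (f v) (F i)))
        (fun i _ => hlog _ _) (Finset.mem_univ i)
    linarith
  -- the nearest components and points
  have hσ := fun v => hCf v z hz0 hxI hxF
  choose σ hσm hσ using hσ
  have hy := fun v => hCl ⟨σ v, hσm v⟩ v z hz0 hxI (fun y hy => by
    obtain ⟨j, rfl⟩ := mem_lst.1 hy
    exact hxF _)
  choose y hyY hy using hy
  let χ : S → Ξ := fun v => ⟨⟨σ v.1, hσm v.1⟩, ⟨y v.1, hyY v.1⟩⟩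
  have hext : ∀ v ∈ S, ext χ v = ⟨⟨σ v, hσm v⟩, ⟨y v, hyY v⟩⟩ := by
    intro v hv
    show (if h : v ∈ S then χ ⟨v, h⟩ else ξ0) = _
    rw [dif_pos hv]
  obtain ⟨hnv, hineq⟩ := hCχ χ x hx hxI fun w hw => hxZ w
    (Finset.mem_biUnion.2 ⟨χ, Finset.mem_univ _, hw⟩)
  have hnv' : ∀ v ∈ S, ∀ i, eval z (e ⟨σ v, hσm v⟩ (y v) i) ≠ 0 := by
    intro v hv i
    have h1 := hnv v hv
    rw [hext v hv] at h1
    exact h1 i
  have hsumeq : ∑ v ∈ S, wt v * ∑ i, lam (f v) t (e (ext χ v).1 (ext χ v).2.1 i) z =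
      ∑ v ∈ S, wt v * ∑ i, lam (f v) t (e ⟨σ v, hσm v⟩ (y v) i) z := by
    refine Finset.sum_congr rfl fun v hv => ?_
    rw [hext v hv]
  rw [hsumeq] at hineq
  -- one place
  have hplace : ∀ v ∈ S, ∑ i, lam (f v) (d i) (F i) z / d i + c * μ v ≤
      (∑ i, lam (f v) t (e ⟨σ v, hσm v⟩ (y v) i) z) / ((1 - ε1) * a) + D v := by
    intro v hv
    set s : {σ : Fin r → Fin q // StrictMono σ} := ⟨σ v, hσm v⟩ with hs
    -- the lower bound for the components of `σ`
    set μ' : ℝ := max (- C0 v) (if Set.range (τ v) = Set.range (σ v) then μ v else - C0 v)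
      with hμ'
    have hμle : ∀ y ∈ lst F d (σ v), μ' ≤ lam (f v) y.2 y.1 z := by
      intro y hy
      obtain ⟨j, rfl⟩ := mem_lst.1 hy
      refine max_le (hlow v _) ?_
      split_ifs with hrange
      · have h1 : σ v j ∈ Set.range (τ v) := by
          rw [hrange]
          exact ⟨j, rfl⟩
        obtain ⟨j', hj'⟩ := h1
        have h2 := hμ v hv j'
        rw [hj'] at h2
        exact h2
      · exact hlow v _
    have h1 := hy v (hnv' v hv) μ' hμle
    have hlen : ((lst F d (σ v)).length : ℝ) = r := by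
      unfold lst
      rw [List.length_ofFn]
    rw [hlen, lamD_lst] at h1
    have h2 : (1 - ε1) * (t * cc I t) / ((r : ℝ) + 1) = (1 - ε1) * a := by
      rw [ha]
      ring
    rw [h2] at h1
    have hpos2 : 0 < (1 - ε1) * a := by positivity
    have h3 : ∑ j, lam (f v) (d (σ v j)) (F (σ v j)) z / d (σ v j) + c0 s * μ' ≤
        (∑ i, lam (f v) t (e s (y v) i) z) / ((1 - ε1) * a) + Cl s v / ((1 - ε1) * a) := by
      rw [← add_div, le_div_iff₀ hpos2]
      linarith
    -- the other components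
    have h4 : ∑ i, lam (f v) (d i) (F i) z / d i ≤
        ∑ j, lam (f v) (d (σ v j)) (F (σ v j)) z / d (σ v j) + q * Cf v := by
      have hinj := (hσm v).injective
      have e1 : ∑ j, lam (f v) (d (σ v j)) (F (σ v j)) z / d (σ v j) =
          ∑ i ∈ Finset.univ.image (σ v), lam (f v) (d i) (F i) z / d i := by
        rw [Finset.sum_image hinj.injOn]
      rw [e1, ← Finset.sum_sdiff (Finset.subset_univ (Finset.univ.image (σ v))), add_comm]
      have e2 : ∑ i ∈ Finset.univ \ Finset.univ.image (σ v), lam (f v) (d i) (F i) z / d i ≤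
          ∑ _i ∈ Finset.univ \ Finset.univ.image (σ v), Cf v := by
        refine Finset.sum_le_sum fun i hi => ?_
        have hi' : i ∉ Set.range (σ v) := by
          rintro ⟨j, hj⟩
          rw [Finset.mem_sdiff] at hi
          exact hi.2 (Finset.mem_image.2 ⟨j, Finset.mem_univ _, hj⟩)
        have e3 := hσ v i hi'
        have e4 : (1 : ℝ) ≤ d i := by exact_mod_cast hd i
        rw [div_le_iff₀ (by linarith)]
        have e5 := hCf0 v
        nlinarith
      rw [Finset.sum_const, nsmul_eq_mul] at e2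
      have e3 : ((Finset.univ \ Finset.univ.image (σ v)).card : ℝ) ≤ q := by
        have := Finset.card_le_univ (Finset.univ \ Finset.univ.image (σ v))
        rw [Fintype.card_fin] at this
        exact_mod_cast this
      have e4 := mul_le_mul_of_nonneg_right e3 (hCf0 v)
      linarith
    -- the crossing point
    have h5 : μ v ≤ μ' + (Cf v + C0 v) := by
      have hm := le_max_left (- C0 v)
        (if Set.range (τ v) = Set.range (σ v) then μ v else - C0 v)
      by_cases hrange : Set.range (τ v) = Set.range (σ v)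
      · have h6 : μ v ≤ μ' := by
          rw [hμ', if_pos hrange]
          exact le_max_right _ _
        have := hCf0 v
        have := hC00 v
        linarith
      · obtain ⟨j, hj⟩ : ∃ j, τ v j ∉ Set.range (σ v) := by
          by_contra hcon
          push Not at hcon
          apply hrange
          have e1 : Finset.univ.image (τ v) ⊆ Finset.univ.image (σ v) := by
            intro i hi
            obtain ⟨j, -, rfl⟩ := Finset.mem_image.1 hi
            obtain ⟨j', hj'⟩ := hcon j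
            exact Finset.mem_image.2 ⟨j', Finset.mem_univ _, hj'⟩
          have e2 := Finset.eq_of_subset_of_card_le e1 (by
            rw [Finset.card_image_of_injective _ (hτ v),
              Finset.card_image_of_injective _ (hσm v).injective])
          have e3 := congrArg (fun s : Finset (Fin q) => (s : Set (Fin q))) e2
          simpa using e3
        have h6 := hμ v hv j
        have h7 := hσ v _ hj
        linarith
    have h6 : c * μ v ≤ c * μ' + c * (Cf v + C0 v) := by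
      rw [← mul_add]
      exact mul_le_mul_of_nonneg_left h5 hcpos.le
    have h7 : c * μ' ≤ c0 s * μ' + c0 s * C0 v := by
      have e1 : c ≤ c0 s := hσ0 s (Finset.mem_univ _)
      have e2 : - C0 v ≤ μ' := le_max_left _ _
      have e3 := hC00 v
      have e4 : 0 ≤ (c0 s - c) * (μ' + C0 v) := mul_nonneg (by linarith) (by linarith)
      have e5 : 0 ≤ c * C0 v := by positivity
      nlinarith
    have h8 : c0 s * C0 v + Cl s v / ((1 - ε1) * a) ≤
        ∑ σ, (c0 σ * C0 v + Cl σ v / ((1 - ε1) * a)) :=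
      Finset.single_le_sum (f := fun σ => c0 σ * C0 v + Cl σ v / ((1 - ε1) * a))
        (fun σ _ => add_nonneg (mul_nonneg (hc0 σ).le (hC00 v))
          (div_nonneg (hCl0 σ v) hpos2.le)) (Finset.mem_univ s)
    rw [hD]
    simp only
    linarith
  -- the sum
  have hh := logHeight_nonneg x
  have hpos2 : 0 < (1 - ε1) * a := by positivity
  have h1 : ∑ v ∈ S, wt v * (∑ i, lam (f v) (d i) (F i) z / d i + c * μ v) ≤
      (∑ v ∈ S, wt v * ∑ i, lam (f v) t (e ⟨σ v, hσm v⟩ (y v) i) z) / ((1 - ε1) * a) +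
      ∑ v ∈ S, wt v * D v := by
    rw [Finset.sum_div, ← Finset.sum_add_distrib]
    refine Finset.sum_le_sum fun v hv => ?_
    have h2 := mul_le_mul_of_nonneg_left (hplace v hv) (wt_nonneg v)
    refine h2.trans (le_of_eq ?_)
    ring
  have h2 : (N + ε1) * (t * logHeight x) ≤ ((r + 1 + ε) * logHeight x) * ((1 - ε1) * a) := by
    have e1 : (N : ℝ) ≤ cc I t := by exact_mod_cast hN
    have e2 : (N : ℝ) + ε1 ≤ cc I t * (1 + ε1) := by nlinarith
    have e3 : 0 ≤ (t : ℝ) * logHeight x := by positivity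
    have e4 := mul_le_mul_of_nonneg_right e2 e3
    have e5 : (cc I t : ℝ) * (1 + ε1) * (t * logHeight x) =
        ((1 + ε1) * (r + 1)) * (a * logHeight x) := by
      rw [ha]
      field_simp
    have e6 : ((1 + ε1) * (r + 1)) * (a * logHeight x) ≤
        ((r + 1 + ε) * (1 - ε1)) * (a * logHeight x) :=
      mul_le_mul_of_nonneg_right hεε (by positivity)
    rw [e5] at e4
    refine (e4.trans e6).trans (le_of_eq ?_)
    ring
  have h3 : Cχ χ ≤ ∑ χ, |Cχ χ| :=
    (le_abs_self _).trans (Finset.single_le_sum (f := fun χ => |Cχ χ|)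
      (fun _ _ => abs_nonneg _) (Finset.mem_univ χ))
  have h4 : (∑ v ∈ S, wt v * ∑ i, lam (f v) t (e ⟨σ v, hσm v⟩ (y v) i) z) / ((1 - ε1) * a) ≤
      (r + 1 + ε) * logHeight x + (∑ χ, |Cχ χ|) / ((1 - ε1) * a) := by
    rw [← sub_le_iff_le_add, ← sub_div, div_le_iff₀ hpos2]
    linarith
  linarith

end Pool.Agent.R404.TC
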