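import Mathlib
import Pool.Agent.R404.TC.Main
import Pool.Agent.R405.Fin1

set_option autoImplicit false
set_option linter.unusedSectionVars false

/-!
Base change to a large number field.
-/

namespace Pool.Agent.R404.TC

open MvPolynomial Finset Module Height NumberField
open Pool.Agent.W180.OP (Pl av wt nrm le_nrm nrm_pos nrm_nonneg exists_nrm lam lam_eq wt_nonneg
  cs cs_nonneg abv_mv not_small)
open Pool.Agent.R405 (Good exists_good up up_ne lam_up eval_up descend exists_big)

/-- over an algebraically closed field it suffices to know the zeros over the field itself -/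
theorem covers_alg {Ω : Type} [Field Ω] [IsAlgClosed Ω] {n : ℕ}
    (J : Ideal (MvPolynomial (Fin n) Ω)) (T : Finset (Fin n → Ω)) (hT0 : ∀ y ∈ T, y ≠ 0)
    (hT : ∀ x : Fin n → Ω, x ≠ 0 → (∀ p ∈ J, eval x p = 0) → ∃ y ∈ T, ∃ c : Ω, x = c • y) :
    Covers J T := by
  classical
  intro L _ _ x hx hxJ
  by_contra hcon
  push Not at hcon
  obtain ⟨a0, ha0⟩ := Function.ne_iff.1 hx
  have ha0' : x a0 ≠ 0 := ha0
  -- linear forms
  have hlin : ∀ y : Fin n → Ω, ∃ g : MvPolynomial (Fin n) Ω, y ∈ T → aeval x g ≠ 0 ∧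
      ∀ c : Ω, eval (c • y) g = 0 := by
    intro y
    by_cases hy : y ∈ T
    · obtain ⟨a, ha⟩ := Function.ne_iff.1 (hT0 y hy)
      have ha' : y a ≠ 0 := ha
      have hya : algebraMap Ω L (y a) ≠ 0 := by rwa [Ne, map_eq_zero]
      obtain ⟨b, hb⟩ : ∃ b, algebraMap Ω L (y a) * x b - algebraMap Ω L (y b) * x a ≠ 0 := by
        by_contra hc
        push Not at hc
        refine hcon y hy (x a / algebraMap Ω L (y a)) ?_
        funext b
        rw [Pi.smul_apply, smul_eq_mul, div_mul_eq_mul_div, eq_div_iff hya]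
        linear_combination hc b
      refine ⟨C (y a) * X b - C (y b) * X a, fun _ => ⟨?_, fun c => ?_⟩⟩
      · simpa using hb
      · simp only [map_sub, map_mul, eval_C, eval_X, Pi.smul_apply, smul_eq_mul]
        ring
    · exact ⟨0, fun h => absurd h hy⟩
  choose g hg using hlin
  set W : MvPolynomial (Fin n) Ω := X a0 * ∏ y ∈ T, g y with hW
  have hWx : aeval x W ≠ 0 := by
    rw [hW, map_mul, aeval_X, map_prod]
    exact mul_ne_zero ha0' (Finset.prod_ne_zero_iff.2 fun y hy => (hg y hy).1)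
  have hWJ : W ∈ J.radical := by
    rw [← MvPolynomial.vanishingIdeal_zeroLocus_eq_radical (K := Ω) J]
    rw [MvPolynomial.mem_vanishingIdeal_iff]
    intro z hz
    rw [MvPolynomial.mem_zeroLocus_iff] at hz
    have h2 : ∀ (p : MvPolynomial (Fin n) Ω), aeval z p = eval z p := fun p =>
      DFunLike.congr_fun (coe_aeval_eq_eval z) p
    rw [h2, hW, map_mul, map_prod, eval_X]
    by_cases hz0 : z = 0
    · rw [hz0, Pi.zero_apply, zero_mul]
    · obtain ⟨y, hy, c, rfl⟩ := hT z hz0 fun p hp => by rw [← h2]; exact hz p hp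
      rw [Finset.prod_eq_zero hy ((hg y hy).2 c), mul_zero]
  obtain ⟨N, hN⟩ := hWJ
  have h1 := hxJ _ hN
  rw [map_pow] at h1
  exact hWx (eq_zero_of_pow_eq_zero h1)

theorem aeval_map_alg {k K L : Type} [Field k] [Field K] [Field L] [Algebra k K] [Algebra K L]
    [Algebra k L] [IsScalarTower k K L] {n : ℕ} (P : MvPolynomial (Fin n) k) (x : Fin n → L) :
    aeval x (map (algebraMap k K) P) = aeval x P := aeval_map_algebraMap K x P

/-- the crossing points generate a number field over which all of them are rational -/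
theorem transfer {K1 Ω : Type} [Field K1] [Field Ω] [IsAlgClosed Ω] [Algebra K1 Ω]
    [Algebra.IsAlgebraic K1 Ω] {n : ℕ} {ι : Type}
    (H : ι → MvPolynomial (Fin n) K1) (T : Finset (Fin n → Ω)) (hT0 : ∀ y ∈ T, y ≠ 0)
    (hT : ∀ x : Fin n → Ω, x ≠ 0 → (∀ i, aeval x (H i) = 0) → ∃ y ∈ T, ∃ c : Ω, x = c • y)
    (Z : (Fin n → Ω) → Fin n → K1) (hZ : ∀ y ∈ T, ∀ b, algebraMap K1 Ω (Z y b) = y b)
    (L : Type) [Field L] [Algebra K1 L]
    (x : Fin n → L) (hx : x ≠ 0) (hH : ∀ i, aeval x (H i) = 0) :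
    ∃ y ∈ T, ∃ c : L, x = c • fun b => algebraMap K1 L (Z y b) := by
  classical
  let L' := AlgebraicClosure L
  let σ : Ω →ₐ[K1] L' := IsAlgClosed.lift
  let _ : Algebra Ω L' := σ.toRingHom.toAlgebra
  have hσ : ∀ y : K1, algebraMap Ω L' (algebraMap K1 Ω y) = algebraMap L L' (algebraMap K1 L y) :=
    fun y => (σ.commutes y).trans (IsScalarTower.algebraMap_apply K1 L L' y)
  have hcov := covers_alg (Ideal.span (Set.range fun i => map (algebraMap K1 Ω) (H i))) T hT0 (by
    intro x hx hxJ
    refine hT x hx fun i => ?_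
    have h1 := hxJ _ (Ideal.subset_span ⟨i, rfl⟩)
    rw [eval_map] at h1
    exact h1)
  have hx' : (fun b => algebraMap L L' (x b)) ≠ 0 := by
    intro h
    apply hx
    funext b
    have := congrFun h b
    simpa using this
  obtain ⟨y, hy, c, hc⟩ := hcov L' _ hx' (by
    intro p hp
    refine Submodule.span_induction (p := fun p _ => aeval (fun b => algebraMap L L' (x b)) p = 0)
      ?_ ?_ ?_ ?_ hp
    · rintro _ ⟨i, rfl⟩
      have h1 : aeval (fun b => algebraMap L L' (x b)) (H i) = 0 := by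
        have h2 := aeval_algebraMap_apply L' x (H i)
        rw [hH i, map_zero] at h2
        exact h2
      rw [← h1]
      rw [aeval_def, aeval_def, eval₂_map]
      congr 1
      ext t
      exact σ.commutes t
    · rw [map_zero]
    · intro a b _ _ ha hb
      rw [map_add, ha, hb, add_zero]
    · intro a b _ hb
      rw [smul_eq_mul, map_mul, hb, mul_zero])
  obtain ⟨a, ha⟩ := Function.ne_iff.1 (hT0 y hy)
  have hza : Z y a ≠ 0 := by
    intro h
    apply ha
    rw [← hZ y hy a, h, map_zero]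
    rfl
  refine ⟨y, hy, x a / algebraMap K1 L (Z y a), ?_⟩
  have hc' : ∀ b, algebraMap L L' (x b) = c * algebraMap L L' (algebraMap K1 L (Z y b)) := by
    intro b
    have h1 := congrFun hc b
    rw [Pi.smul_apply, smul_eq_mul] at h1
    rw [h1, ← hσ, hZ y hy]
  funext b
  rw [Pi.smul_apply, smul_eq_mul]
  apply (algebraMap L L').injective
  have h0 : algebraMap L L' (algebraMap K1 L (Z y a)) ≠ 0 := by
    rw [Ne, map_eq_zero, map_eq_zero]
    exact hza
  rw [map_mul, map_div₀, hc' b, hc' a, mul_div_assoc, div_self h0, mul_one]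

/-- `f` is not a zero divisor modulo `J`, locally at the point `y` -/
def RegAt {n : ℕ} {L : Type} [Field L] (J : Ideal (MvPolynomial (Fin n) L))
    (f : MvPolynomial (Fin n) L) (y : Fin n → L) : Prop :=
  ∀ u, f * u ∈ J → ∃ (h : MvPolynomial (Fin n) L) (e : ℕ),
    h.IsHomogeneous e ∧ eval y h ≠ 0 ∧ h * u ∈ J

theorem RegL_ofFn {K : Type} [Field K] {n r : ℕ} (Y : Finset (Fin n → K))
    (a : Fin r → MvPolynomial (Fin n) K × ℕ) (I : Ideal (MvPolynomial (Fin n) K))
    (h : ∀ j : Fin r, ∀ y ∈ Y,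
      RegAt (I ⊔ Ideal.span ((fun i => (a i).1) '' Set.Iio j)) (a j).1 y) :
    RegL Y I (List.ofFn a) := by
  induction r generalizing I with
  | zero =>
    rw [List.ofFn_zero]
    exact trivial
  | succ r ih =>
    rw [List.ofFn_succ]
    refine ⟨fun y hy u hu => ?_, ?_⟩
    · have h1 := h 0 y hy
      have h2 : (Set.Iio (0 : Fin (r + 1))) = ∅ := by
        ext i
        simp
      rw [h2, Set.image_empty, Ideal.span_empty, sup_bot_eq] at h1
      exact h1 u hu
    · refine ih (fun j => a j.succ) _ fun j y hy => ?_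
      have h1 := h j.succ y hy
      have h2 : (fun i => (a i).1) '' Set.Iio j.succ =
          {(a 0).1} ∪ (fun i : Fin r => (a i.succ).1) '' Set.Iio j := by
        ext p
        constructor
        · rintro ⟨i, hi, rfl⟩
          rcases Fin.eq_zero_or_eq_succ i with rfl | ⟨i, rfl⟩
          · exact Or.inl rfl
          · exact Or.inr ⟨i, Fin.succ_lt_succ_iff.1 hi, rfl⟩
        · rintro (hp | ⟨i, hi, rfl⟩)
          · rw [Set.mem_singleton_iff] at hp
            exact ⟨0, Fin.succ_pos j, hp.symm⟩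
          · exact ⟨i.succ, Fin.succ_lt_succ_iff.2 hi, rfl⟩
      rw [h2, Ideal.span_union, ← sup_assoc] at h1
      exact h1

end Pool.Agent.R404.TC
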