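import Mathlib
import Pool.Agent.R404.TC.Bc

set_option autoImplicit false
set_option linter.unusedSectionVars false

/-!
The inequality over a number field.
-/

namespace Pool.Agent.R404.TC

open MvPolynomial Finset Module Height NumberField
open Pool.Agent.W180.OP (Pl av wt nrm le_nrm nrm_pos nrm_nonneg exists_nrm lam lam_eq wt_nonneg
  cs cs_nonneg abv_mv not_small)
open Pool.Agent.R405 (Good exists_good up up_ne lam_up eval_up descend exists_big)

variable {k : Type} [Field k] [NumberField k]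

theorem Jf_lst {K : Type} [Field K] {n : ℕ} (I : Ideal (MvPolynomial (Fin n) K)) {q r : ℕ}
    (F : Fin q → MvPolynomial (Fin n) K) (d : Fin q → ℕ) (σ : Fin r → Fin q) :
    Jf I (lst F d σ) = I ⊔ Ideal.span (Set.range fun j => F (σ j)) := by
  rw [Jf_eq]
  congr 2
  ext p
  constructor
  · rintro ⟨i, rfl⟩
    obtain ⟨j, hj⟩ := mem_lst.1 (List.getElem_mem i.2 : (lst F d σ)[i.1] ∈ lst F d σ)
    refine ⟨j, ?_⟩
    have h2 := congrArg Prod.fst hj
    exact h2
  · rintro ⟨j, rfl⟩
    have h1 : (F (σ j), d (σ j)) ∈ lst F d σ := mem_lst.2 ⟨j, rfl⟩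
    obtain ⟨i, hi, h⟩ := List.getElem_of_mem h1
    refine ⟨⟨i, hi⟩, ?_⟩
    have h2 := congrArg Prod.fst h
    exact h2

theorem overk {n m : ℕ} (G : Fin m → MvPolynomial (Fin n) k) (γ : Fin m → ℕ)
    (hG : ∀ j, (G j).IsHomogeneous (γ j)) {q r : ℕ} (hr0 : 0 < r) (hr : r ≤ q)
    (F : Fin q → MvPolynomial (Fin n) k) (d : Fin q → ℕ) (hd : ∀ i, 0 < d i)
    (hF : ∀ i, (F i).IsHomogeneous (d i))
    (hno : ∀ T : Finset (Fin q), T.card = r + 1 → ∀ (L : Type) [Field L] [Algebra k L]
      (x : Fin n → L), (∀ j, aeval x (G j) = 0) → (∀ i ∈ T, aeval x (F i) = 0) → x = 0)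
    (T : (Fin r → Fin q) → Finset (Fin n → AlgebraicClosure k))
    (hT0 : ∀ σ : Fin r → Fin q, StrictMono σ → ∀ y ∈ T σ, y ≠ 0 ∧ (∀ j, aeval y (G j) = 0) ∧
      ∀ j, aeval y (F (σ j)) = 0)
    (hTc : ∀ σ : Fin r → Fin q, StrictMono σ → ∀ x : Fin n → AlgebraicClosure k, x ≠ 0 →
      (∀ j, aeval x (G j) = 0) → (∀ j, aeval x (F (σ j)) = 0) → ∃ y ∈ T σ,
        ∃ c : AlgebraicClosure k, x = c • y)
    (htwo : ∀ σ : Fin r → Fin q, StrictMono σ → (T σ).Nonempty ∧ ∀ y ∈ T σ, ∃ y' ∈ T σ,
      ∀ c : AlgebraicClosure k, y' ≠ c • y)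
    (hreg : ∀ σ : Fin r → Fin q, StrictMono σ → ∀ (L : Type) [Field L] [Algebra k L]
      (y : Fin n → L), y ≠ 0 → (∀ j, aeval y (G j) = 0) → (∀ j, aeval y (F (σ j)) = 0) →
      ∀ j : Fin r, RegAt (Ideal.span (Set.range fun l => map (algebraMap k L) (G l)) ⊔
        Ideal.span ((fun i => map (algebraMap k L) (F (σ i))) '' Set.Iio j))
        (map (algebraMap k L) (F (σ j))) y) :
    ∃ c : ℝ, 0 < c ∧ ∀ (S : Finset (Pl k)) (ε : ℝ), 0 < ε →
      ∃ (t : ℕ) (Z : Finset (MvPolynomial (Fin n) k)) (C : ℝ),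
        (∀ Φ ∈ Z, Φ.IsHomogeneous t ∧ Φ ∉ Ideal.span (Set.range G)) ∧
        ∀ x : Fin n → k, x ≠ 0 → (∀ j, eval x (G j) = 0) → (∀ i, eval x (F i) ≠ 0) →
          (∀ Φ ∈ Z, eval x Φ ≠ 0) →
          ∀ τ : Pl k → Fin r → Fin q, (∀ v, Function.Injective (τ v)) → ∀ μ : Pl k → ℝ,
            (∀ v ∈ S, ∀ j, μ v ≤ lam (av v) (d (τ v j)) (F (τ v j)) x) →
            ∑ v ∈ S, wt v * (∑ i, lam (av v) (d i) (F i) x / d i + c * μ v) ≤
              (r + 1 + ε) * logHeight x + C := by
  classical
  set P : Finset (AlgebraicClosure k) := (Finset.univ : Finset (Fin r → Fin q)).biUnion fun σ =>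
    (T σ).biUnion fun y => Finset.univ.image y with hP
  let K1 : IntermediateField k (AlgebraicClosure k) :=
    IntermediateField.adjoin k (P : Set (AlgebraicClosure k))
  have hfdK1 : FiniteDimensional k K1 :=
    IntermediateField.finiteDimensional_adjoin fun x _ => Algebra.IsIntegral.isIntegral x
  have hmem : ∀ σ, ∀ y ∈ T σ, ∀ b, y b ∈ K1 := by
    intro σ y hy b
    refine IntermediateField.subset_adjoin k _ ?_
    rw [Finset.mem_coe, hP, Finset.mem_biUnion]
    exact ⟨σ, Finset.mem_univ _, Finset.mem_biUnion.2 ⟨y, hy, Finset.mem_image_of_mem _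
      (Finset.mem_univ _)⟩⟩
  have hfdQ : FiniteDimensional ℚ K1 := Module.Finite.trans (R := ℚ) k K1
  have hnfK1 : NumberField K1 := ⟨⟩
  obtain ⟨M, hM1, hM2, hi, ⟨φ⟩⟩ := exists_big K1
  have hnfM : NumberField M := ⟨⟩
  let _ : Algebra K1 M := φ.toAlgebra
  let _ : Algebra k M := (φ.comp (algebraMap k K1)).toAlgebra
  have hst : IsScalarTower k K1 M := IsScalarTower.of_algebraMap_eq fun _ => rfl
  have hfdM : FiniteDimensional k M := Module.Finite.of_restrictScalars_finite ℚ k M
  -- the coordinates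
  let Z : (Fin n → AlgebraicClosure k) → Fin n → K1 := fun y b =>
    if h : y b ∈ K1 then ⟨y b, h⟩ else 0
  have hZ : ∀ σ, ∀ y ∈ T σ, ∀ b, algebraMap K1 (AlgebraicClosure k) (Z y b) = y b := by
    intro σ y hy b
    show algebraMap K1 (AlgebraicClosure k) (if h : y b ∈ K1 then ⟨y b, h⟩ else 0) = y b
    rw [dif_pos (hmem σ y hy b)]
    rfl
  have hZev : ∀ σ, ∀ y ∈ T σ, ∀ p : MvPolynomial (Fin n) k, aeval y p = 0 →
      aeval (Z y) p = 0 := by
    intro σ y hy p hp
    have h1 := aeval_algebraMap_apply (AlgebraicClosure k) (Z y) p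
    have h2 : (algebraMap K1 (AlgebraicClosure k)) ∘ Z y = y := by
      funext b
      exact hZ σ y hy b
    have h3 : (fun b => algebraMap K1 (AlgebraicClosure k) (Z y b)) = y := h2
    rw [show (algebraMap K1 (AlgebraicClosure k) ∘ Z y) = y from h2, hp] at h1
    exact (map_eq_zero _).1 h1.symm
  let up1 : (Fin n → K1) → Fin n → M := fun z b => algebraMap K1 M (z b)
  have hup1 : ∀ (z : Fin n → K1) (p : MvPolynomial (Fin n) k), aeval (up1 z) p =
      algebraMap K1 M (aeval z p) := by
    intro z p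
    have h1 := aeval_algebraMap_apply M z p
    exact h1
  have hup1e : ∀ (z : Fin n → K1) (p : MvPolynomial (Fin n) k),
      eval (up1 z) (map (algebraMap k M) p) = algebraMap K1 M (aeval z p) := by
    intro z p
    rw [← hup1, eval_map]
    rfl
  let YM : (Fin r → Fin q) → Finset (Fin n → M) := fun σ => (T σ).image fun y => up1 (Z y)
  set I : Ideal (MvPolynomial (Fin n) M) :=
    Ideal.span (Set.range fun l => map (algebraMap k M) (G l)) with hI
  let FM : Fin q → MvPolynomial (Fin n) M := fun i => map (algebraMap k M) (F i)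
  have hFM : ∀ i, (FM i).IsHomogeneous (d i) := fun i => (hF i).map _
  have hae : ∀ (L : Type) [Field L] [Algebra M L] (x : Fin n → L) (p : MvPolynomial (Fin n) k),
      aeval x (map (algebraMap k M) p) = @aeval k L (Fin n) _ _
        ((algebraMap M L).comp (algebraMap k M)).toAlgebra x p := by
    intro L _ _ x p
    rw [aeval_def, eval₂_map]
    rfl
  have hcross : ∀ σ : Fin r → Fin q, StrictMono σ → Cross I (lst FM d σ) (YM σ) := by
    intro σ hσ
    have hYM : ∀ y ∈ YM σ, ∃ y0 ∈ T σ, up1 (Z y0) = y := fun y hy => Finset.mem_image.1 hy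
    have hy0 : ∀ y ∈ T σ, up1 (Z y) ≠ 0 := by
      intro y hy h0
      apply (hT0 σ hσ y hy).1
      funext b
      have h1 := congrFun h0 b
      have h2 : Z y b = 0 := (map_eq_zero (algebraMap K1 M)).1 h1
      rw [← hZ σ y hy b, h2, map_zero]
      rfl
    refine ⟨?_, ?_, ?_, ?_, ?_, ?_, ?_, ?_, ?_⟩
    · intro x hx
      obtain ⟨j, rfl⟩ := mem_lst.1 hx
      exact hd _
    · intro x hx
      obtain ⟨j, rfl⟩ := mem_lst.1 hx
      exact hFM _
    · intro h
      have h1 := congrArg List.length h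
      unfold lst at h1
      rw [List.length_ofFn, List.length_nil] at h1
      omega
    · intro y hy
      obtain ⟨y0, hy0', rfl⟩ := hYM y hy
      exact hy0 y0 hy0'
    · intro y hy p hp
      obtain ⟨y0, hy0', rfl⟩ := hYM y hy
      rw [Jf_lst, hI, ← Ideal.span_union] at hp
      refine Submodule.span_induction (p := fun p _ => eval (up1 (Z y0)) p = 0) ?_ ?_ ?_ ?_ hp
      · rintro p (⟨l, rfl⟩ | ⟨j, rfl⟩)
        · simp only
          rw [hup1e, hZev σ y0 hy0' _ ((hT0 σ hσ y0 hy0').2.1 l), map_zero]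
        · simp only
          rw [hup1e, hZev σ y0 hy0' _ ((hT0 σ hσ y0 hy0').2.2 j), map_zero]
      · rw [map_zero]
      · intro a b _ _ ha hb
        rw [map_add, ha, hb, add_zero]
      · intro a b _ hb
        rw [smul_eq_mul, map_mul, hb, mul_zero]
    · intro L _ _ x hx hxJ
      let _ : Algebra K1 L := ((algebraMap M L).comp (algebraMap K1 M)).toAlgebra
      obtain ⟨y, hy, c, hc⟩ := transfer (K1 := K1) (Ω := AlgebraicClosure k)
        (Sum.elim (fun l => map (algebraMap k K1) (G l)) fun j => map (algebraMap k K1) (F (σ j)))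
        (T σ) (fun y hy => (hT0 σ hσ y hy).1) (by
          intro x hx h
          refine hTc σ hσ x hx (fun l => ?_) fun j => ?_
          · have h1 := h (Sum.inl l)
            rw [Sum.elim_inl, aeval_map_alg] at h1
            exact h1
          · have h1 := h (Sum.inr j)
            rw [Sum.elim_inr, aeval_map_alg] at h1
            exact h1) Z (hZ σ) L x hx (by
          have h3 : ∀ p : MvPolynomial (Fin n) k, aeval x (map (algebraMap k K1) p) =
              aeval x (map (algebraMap k M) p) := by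
            intro p
            rw [aeval_def, eval₂_map, aeval_def, eval₂_map]
            rfl
          rintro (l | j)
          · rw [Sum.elim_inl, h3]
            refine hxJ _ ?_
            rw [Jf_lst]
            exact Ideal.mem_sup_left (Ideal.subset_span ⟨l, rfl⟩)
          · rw [Sum.elim_inr, h3]
            refine hxJ _ ?_
            rw [Jf_lst]
            exact Ideal.mem_sup_right (Ideal.subset_span ⟨j, rfl⟩))
      exact ⟨_, Finset.mem_image_of_mem _ hy, c, hc⟩
    · unfold lst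
      refine RegL_ofFn _ _ _ fun j y hy => ?_
      obtain ⟨y0, hy0', rfl⟩ := hYM y hy
      have h1 : ∀ p : MvPolynomial (Fin n) k, aeval y0 p = 0 → aeval (up1 (Z y0)) p = 0 := by
        intro p hp
        rw [hup1, hZev σ y0 hy0' p hp, map_zero]
      exact hreg σ hσ M (up1 (Z y0)) (hy0 y0 hy0') (fun l => h1 _ ((hT0 σ hσ y0 hy0').2.1 l))
        (fun j => h1 _ ((hT0 σ hσ y0 hy0').2.2 j)) j
    · intro y hy
      obtain ⟨y0, hy0', rfl⟩ := hYM y hy
      obtain ⟨y1, hy1, hc⟩ := (htwo σ hσ).2 y0 hy0'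
      refine ⟨up1 (Z y1), Finset.mem_image_of_mem _ hy1, fun c h => ?_⟩
      obtain ⟨a, ha⟩ := Function.ne_iff.1 (hT0 σ hσ y0 hy0').1
      have hza : Z y0 a ≠ 0 := by
        intro h0
        apply ha
        rw [← hZ σ y0 hy0' a, h0, map_zero]
        rfl
      apply hc (algebraMap K1 (AlgebraicClosure k) (Z y1 a / Z y0 a))
      have h1 : ∀ b, algebraMap K1 M (Z y1 b) = c * algebraMap K1 M (Z y0 b) := fun b => by
        have := congrFun h b
        exact this
      have h2 : ∀ b, Z y1 b = Z y1 a / Z y0 a * Z y0 b := by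
        intro b
        apply (algebraMap K1 M).injective
        have h0 : algebraMap K1 M (Z y0 a) ≠ 0 := by rwa [Ne, map_eq_zero]
        rw [map_mul, map_div₀, h1 b, h1 a, mul_div_assoc, div_self h0, mul_one]
      funext b
      rw [Pi.smul_apply, smul_eq_mul, ← hZ σ y1 hy1 b, ← hZ σ y0 hy0' b, ← map_mul, ← h2]
    · obtain ⟨y, hy⟩ := (htwo σ hσ).1
      exact ⟨_, Finset.mem_image_of_mem _ hy⟩
  obtain ⟨c, hc, hmain⟩ := main (k := k) (K := M) hi (I := I) (fun l => map (algebraMap k M) (G l))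
    γ (fun l => (hG l).map _) hI hr0 hr FM d hd hFM (by
      intro T hT L _ _ x hx1 hx2
      let _ : Algebra k L := ((algebraMap M L).comp (algebraMap k M)).toAlgebra
      refine hno T hT L x (fun j => ?_) fun i hi => ?_
      · rw [← hx1 j]
        exact (hae L x _).symm
      · rw [← hx2 i hi]
        exact (hae L x _).symm) YM hcross
  refine ⟨c, hc, fun S ε hε => ?_⟩
  have hgood := fun v : Pl k => exists_good (K := M) v
  choose f hf using hgood
  obtain ⟨t, N, E, Z', C, hE, hZ0, hC⟩ := hmain S f (fun v _ => hf v) ε hε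
  -- descend
  have hdesc : ∀ z : Fin N → M, ∃ m : Fin N → k, z ∈ Z' → m ≠ 0 ∧ ∀ x : Fin N → k,
      ∑ j, m j * x j ≠ 0 → ∑ j, z j * algebraMap k M (x j) ≠ 0 := by
    intro z
    by_cases hz : z ∈ Z'
    · obtain ⟨m, h1, h2⟩ := descend (k := k) z (hZ0 z hz)
      exact ⟨m, fun _ => ⟨h1, h2⟩⟩
    · exact ⟨0, fun h => absurd h hz⟩
  choose md hmd using hdesc
  refine ⟨t, Z'.image fun z => ∑ j, MvPolynomial.C (md z j) * word k (E j), C, ?_, ?_⟩
  · intro Φ hΦ
    obtain ⟨z, hz, rfl⟩ := Finset.mem_image.1 hΦ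
    refine ⟨IsHomogeneous.sum _ _ _ fun j _ => ?_, fun hmemI => ?_⟩
    · simpa using (isHomogeneous_C (Fin n) (md z j)).mul (word_hom (K := k) (E j))
    · apply (hmd z hz).1
      have h1 : ∑ j, MvPolynomial.C (algebraMap k M (md z j)) * word M (E j) ∈ I := by
        have h2 := Ideal.mem_map_of_mem (map (algebraMap k M)) hmemI
        rw [Ideal.map_span, ← Set.range_comp] at h2
        rw [map_sum] at h2
        have h3 : ∀ j, map (algebraMap k M) (MvPolynomial.C (md z j) * word k (E j)) =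
            MvPolynomial.C (algebraMap k M (md z j)) * word M (E j) := by
          intro j
          rw [map_mul, map_C, word, word, map_prod]
          simp
        rw [Finset.sum_congr rfl fun j _ => h3 j] at h2
        exact h2
      funext j
      exact (map_eq_zero (algebraMap k M)).1 (hE _ h1 j)
  · intro x hx hxG hxF hxZ τ hτ μ hμ
    have hxF' : ∀ i, eval (up M x) (FM i) ≠ 0 := by
      intro i
      show eval (up M x) (map (algebraMap k M) (F i)) ≠ 0
      rw [eval_up, Ne, map_eq_zero]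
      exact hxF i
    have hlam : ∀ v i, lam (f v) (d i) (FM i) (up M x) = lam (av v) (d i) (F i) x := fun v i =>
      lam_up (hf v) (d i) (F i) hx (hxF i)
    have h1 := hC x hx (by
      intro p hp
      rw [hI] at hp
      refine Submodule.span_induction (p := fun p _ => eval (up M x) p = 0) ?_ ?_ ?_ ?_ hp
      · rintro _ ⟨l, rfl⟩
        simp only
        rw [eval_up, hxG l, map_zero]
      · rw [map_zero]
      · intro a b _ _ ha hb
        rw [map_add, ha, hb, add_zero]
      · intro a b _ hb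
        rw [smul_eq_mul, map_mul, hb, mul_zero]) hxF' (by
      intro z hz
      refine (hmd z hz).2 (fun j => ∏ a, x (E j a)) ?_
      have h2 := hxZ _ (Finset.mem_image_of_mem _ hz)
      rw [map_sum] at h2
      have h3 : ∀ j, eval x (MvPolynomial.C (md z j) * word k (E j)) =
          md z j * ∏ a, x (E j a) := by
        intro j
        rw [map_mul, eval_C, eval_word]
      rw [Finset.sum_congr rfl fun j _ => h3 j] at h2
      exact h2) τ hτ μ (by
      intro v hv j
      rw [hlam]
      exact hμ v hv j)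
    simp only [hlam] at h1
    exact h1

end Pool.Agent.R404.TC
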