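import Mathlib
import Pool.Agent.R404.TC.Bc

set_option autoImplicit false
set_option linter.unusedSectionVars false

/-!
Finiteness of the common zeros.
-/

namespace Pool.Agent.R404.TC

open MvPolynomial Finset Module

section fin

variable {K : Type} [Field K] {n : ℕ}

/-- the Hilbert function is bounded if a hypersurface section is empty -/
theorem cc_bdd {J : Ideal (MvPolynomial (Fin n) K)} (hJ : HI J)
    {f : MvPolynomial (Fin n) K} {d : ℕ} (hd : 0 < d) (hf : f.IsHomogeneous d) (hf0 : f ≠ 0)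
    (h : ∀ (L : Type) [Field L] [Algebra K L] (x : Fin n → L), Zero (J ⊔ Ideal.span {f}) x →
      x = 0) : ∃ B : ℕ, ∀ t, cc J t ≤ B := by
  obtain ⟨N, hN⟩ := large_mem (J ⊔ Ideal.span {f}) h
  refine ⟨∑ s ∈ range (N + d), cc J s, fun t => ?_⟩
  induction t using Nat.strong_induction_on with
  | _ t ih =>
    by_cases ht : t < N + d
    · exact Finset.single_le_sum (f := fun s => cc J s) (fun _ _ => Nat.zero_le _)
        (Finset.mem_range.2 ht)
    · have h1 := cc_step hJ hf hf0 t
      rw [if_pos (by omega), cc_zero (hN t (by omega)), zero_add] at h1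
      exact h1.trans (ih (t - d) (by omega))

/-- pairwise different points -/
def Pw (T : Finset (Fin n → K)) : Prop :=
  ∀ y ∈ T, ∀ y' ∈ T, y ≠ y' → ∀ c : K, y' ≠ c • y

/-- the number of zeros is bounded by the Hilbert function -/
theorem card_le {J : Ideal (MvPolynomial (Fin n) K)} (T : Finset (Fin n → K))
    (hT0 : ∀ y ∈ T, y ≠ 0) (hTJ : ∀ y ∈ T, ∀ p ∈ J, eval y p = 0) (hpw : Pw T) :
    T.card ≤ cc J (T.card - 1) := by
  classical
  -- separating forms
  have hsep : ∀ y ∈ T, ∀ y' ∈ T, ∃ g : MvPolynomial (Fin n) K, y ≠ y' → g.IsHomogeneous 1 ∧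
      eval y' g = 0 ∧ eval y g ≠ 0 := by
    intro y hy y' hy'
    by_cases hyy : y = y'
    · exact ⟨0, fun h => absurd hyy h⟩
    obtain ⟨a, ha⟩ := Function.ne_iff.1 (hT0 y' hy')
    have ha' : y' a ≠ 0 := ha
    obtain ⟨b, hb⟩ : ∃ b, y' a * y b - y' b * y a ≠ 0 := by
      by_contra hcon
      push Not at hcon
      apply hpw y' hy' y hy (Ne.symm hyy) (y a / y' a)
      funext b
      rw [Pi.smul_apply, smul_eq_mul, div_mul_eq_mul_div, eq_div_iff ha']
      linear_combination hcon b
    refine ⟨C (y' a) * X b - C (y' b) * X a, fun _ => ⟨?_, ?_, ?_⟩⟩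
    · refine IsHomogeneous.sub ?_ ?_
      · simpa using (isHomogeneous_C (Fin n) (y' a)).mul (isHomogeneous_X K b)
      · simpa using (isHomogeneous_C (Fin n) (y' b)).mul (isHomogeneous_X K a)
    · simp only [map_sub, map_mul, eval_C, eval_X]
      ring
    · simpa using hb
  have hsep' : ∀ y y' : T, ∃ g : MvPolynomial (Fin n) K, y ≠ y' → g.IsHomogeneous 1 ∧
      eval y'.1 g = 0 ∧ eval y.1 g ≠ 0 := by
    intro y y'
    obtain ⟨g, hg⟩ := hsep y.1 y.2 y'.1 y'.2
    exact ⟨g, fun h => hg fun h2 => h (Subtype.ext h2)⟩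
  choose g hg using hsep'
  set P : T → MvPolynomial (Fin n) K := fun y => ∏ y' ∈ univ.erase y, g y y' with hP
  have hPh : ∀ y, (P y).IsHomogeneous (T.card - 1) := by
    intro y
    have h1 : (P y).IsHomogeneous (∑ _y' ∈ univ.erase y, 1) :=
      IsHomogeneous.prod _ _ _ fun y' hy' => (hg y y' (Finset.ne_of_mem_erase hy').symm).1
    rw [Finset.sum_const, Finset.card_erase_of_mem (Finset.mem_univ _), Finset.card_univ,
      Fintype.card_coe, smul_eq_mul, mul_one] at h1
    exact h1
  have hPy : ∀ y, eval y.1 (P y) ≠ 0 := by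
    intro y
    rw [hP, map_prod]
    exact Finset.prod_ne_zero_iff.2 fun y' hy' =>
      (hg y y' (Finset.ne_of_mem_erase hy').symm).2.2
  have hPy' : ∀ y y', y ≠ y' → eval y'.1 (P y) = 0 := by
    intro y y' h
    rw [hP, map_prod]
    exact Finset.prod_eq_zero (Finset.mem_erase.2 ⟨Ne.symm h, Finset.mem_univ _⟩) (hg y y' h).2.1
  -- the evaluation map
  set V := homogeneousSubmodule (Fin n) K (T.card - 1) with hV
  let ev : V →ₗ[K] (T → K) := LinearMap.pi fun y => (aeval y.1).toLinearMap.comp V.subtype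
  have hev : ∀ (p : V) (y : T), ev p y = eval y.1 p.1 := by
    intro p y
    show aeval y.1 p.1 = eval y.1 p.1
    exact DFunLike.congr_fun (coe_aeval_eq_eval y.1) p.1
  have hsurj : Function.Surjective ev := by
    intro w
    let PV : T → V := fun y => ⟨P y, hPh y⟩
    refine ⟨∑ y, (w y / eval y.1 (P y)) • PV y, ?_⟩
    funext y0
    rw [map_sum, Finset.sum_apply]
    have h5 : ∀ (c : K) (y : T), ev (c • PV y) y0 = c * eval y0.1 (P y) := by
      intro c y
      rw [map_smul, Pi.smul_apply, hev]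
      rfl
    simp only [h5]
    rw [Finset.sum_eq_single y0]
    · exact div_mul_cancel₀ _ (hPy y0)
    · intro y _ hy
      rw [hPy' y y0 hy, mul_zero]
    · intro h
      exact absurd (Finset.mem_univ _) h
  have h1 := LinearMap.finrank_range_add_finrank_ker ev
  rw [LinearMap.range_eq_top.2 hsurj, finrank_top, Module.finrank_pi, Fintype.card_coe] at h1
  -- the kernel contains the forms in `J`
  have h2 : finrank K (gr J (T.card - 1)) ≤ finrank K (LinearMap.ker ev) := by
    let ι : gr J (T.card - 1) →ₗ[K] LinearMap.ker ev :=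
      (Submodule.inclusion (gr_le J (T.card - 1))).codRestrict _ (by
        intro p
        rw [LinearMap.mem_ker]
        funext y
        rw [hev]
        exact hTJ y.1 y.2 _ p.2.1)
    refine LinearMap.finrank_le_finrank_of_injective (f := ι) ?_
    intro p q hpq
    apply Subtype.ext
    exact congrArg (fun z : LinearMap.ker ev => z.1.1) hpq
  unfold cc
  rw [← hV]
  omega

/-- finitely many zeros -/
theorem exists_zeros {J : Ideal (MvPolynomial (Fin n) K)} (hJ : HI J)
    {f : MvPolynomial (Fin n) K} {d : ℕ} (hd : 0 < d) (hf : f.IsHomogeneous d) (hf0 : f ≠ 0)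
    (h : ∀ (L : Type) [Field L] [Algebra K L] (x : Fin n → L), Zero (J ⊔ Ideal.span {f}) x →
      x = 0) : ∃ T : Finset (Fin n → K), (∀ y ∈ T, y ≠ 0 ∧ ∀ p ∈ J, eval y p = 0) ∧ Pw T ∧
      ∀ x : Fin n → K, x ≠ 0 → (∀ p ∈ J, eval x p = 0) → ∃ y ∈ T, ∃ c : K, x = c • y := by
  classical
  obtain ⟨B, hB⟩ := cc_bdd hJ hd hf hf0 h
  let Q : ℕ → Prop := fun N => ∃ T : Finset (Fin n → K), (∀ y ∈ T, y ≠ 0 ∧ ∀ p ∈ J, eval y p = 0) ∧
    Pw T ∧ T.card = N
  have hQ0 : Q 0 := ⟨∅, fun y hy => absurd hy (Finset.notMem_empty y),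
    fun y hy => absurd hy (Finset.notMem_empty y), rfl⟩
  have hQB : ∀ N, Q N → N ≤ B := by
    rintro N ⟨T, h1, h2, rfl⟩
    exact (card_le T (fun y hy => (h1 y hy).1) (fun y hy => (h1 y hy).2) h2).trans (hB _)
  have hmax := Nat.findGreatest_spec (P := Q) (m := 0) (Nat.zero_le B) hQ0
  obtain ⟨T, h1, h2, h3⟩ := hmax
  refine ⟨T, h1, h2, fun x hx hxJ => ?_⟩
  by_contra hcon
  push Not at hcon
  have hxT : x ∉ T := fun hx' => hcon x hx' 1 (one_smul K x).symm
  have hQ' : Q (Nat.findGreatest Q B + 1) := by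
    refine ⟨insert x T, ?_, ?_, ?_⟩
    · intro y hy
      rcases Finset.mem_insert.1 hy with rfl | hy
      · exact ⟨hx, hxJ⟩
      · exact h1 y hy
    · intro y hy y' hy' hne c hc
      rcases Finset.mem_insert.1 hy with hy1 | hy1
      · rcases Finset.mem_insert.1 hy' with hy2 | hy2
        · exact hne (hy1.trans hy2.symm)
        · have hc0 : c ≠ 0 := by
            rintro rfl
            rw [zero_smul] at hc
            exact (h1 y' hy2).1 hc
          apply hcon y' hy2 c⁻¹
          rw [hc, smul_smul, inv_mul_cancel₀ hc0, one_smul, hy1]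
      · rcases Finset.mem_insert.1 hy' with hy2 | hy2
        · rw [hy2] at hc
          exact hcon y hy1 c hc
        · exact h2 y hy1 y' hy2 hne c hc
    · rw [Finset.card_insert_of_notMem hxT, h3]
  have h4 := Nat.le_findGreatest (hQB _ hQ') hQ'
  omega

end fin

end Pool.Agent.R404.TC
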