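import Mathlib
import Pool.Agent.R404.TC.Zeros

set_option autoImplicit false
set_option linter.unusedSectionVars false

/-!
Forms with finitely many common zeros form a regular sequence.
-/

namespace Pool.Agent.R404.TC

open MvPolynomial Finset Module

section nzd

variable {K : Type} [Field K] {n : ℕ}

/-- `f` is not a zero divisor modulo `J` -/
def NZ (J : Ideal (MvPolynomial (Fin n) K)) (f : MvPolynomial (Fin n) K) : Prop :=
  ∀ u, f * u ∈ J → u ∈ J

theorem nz_swap {J : Ideal (MvPolynomial (Fin n) K)} (hJ : HI J) {l f : MvPolynomial (Fin n) K}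
    {e : ℕ} (hl : l.IsHomogeneous 1) (hf : f.IsHomogeneous e) (h1 : NZ J l)
    (h2 : NZ (J ⊔ Ideal.span {l}) f) : NZ J f ∧ NZ (J ⊔ Ideal.span {f}) l := by
  constructor
  · have key : ∀ t, ∀ u : MvPolynomial (Fin n) K, u.IsHomogeneous t → f * u ∈ J → u ∈ J := by
      intro t
      induction t using Nat.strong_induction_on with
      | _ t ih =>
        intro u hu hfu
        have h3 := h2 u (Ideal.mem_sup_left hfu)
        obtain ⟨j, hj, w, hw, hjw⟩ := Submodule.mem_sup.1 h3
        obtain ⟨a, rfl⟩ := Ideal.mem_span_singleton'.1 hw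
        have h4 := congrArg (homogeneousComponent t) hjw
        rw [map_add, hc_mul_hom _ _ _ _ hl, homogeneousComponent_eq_self hu] at h4
        by_cases ht : 1 ≤ t
        · rw [if_pos ht] at h4
          have h5 : l * (f * homogeneousComponent (t - 1) a) ∈ J := by
            have h6 : l * (f * homogeneousComponent (t - 1) a) =
                f * u - f * homogeneousComponent t j := by
              rw [← h4]
              ring
            rw [h6]
            exact J.sub_mem hfu (J.mul_mem_left _ (hJ j hj t))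
          have h7 := ih (t - 1) (by omega) _ (homogeneousComponent_isHomogeneous _ _) (h1 _ h5)
          rw [← h4]
          exact J.add_mem (hJ j hj t) (J.mul_mem_right _ h7)
        · rw [if_neg ht, add_zero] at h4
          rw [← h4]
          exact hJ j hj t
    intro u hu
    rw [← sum_homogeneousComponent u]
    refine J.sum_mem fun t _ => key t _ (homogeneousComponent_isHomogeneous _ _) ?_
    have h3 := hJ _ hu (t + e)
    rw [mul_comm, hc_mul_hom _ _ _ _ hf, if_pos (Nat.le_add_left _ _), Nat.add_sub_cancel,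
      mul_comm] at h3
    exact h3
  · intro u hu
    obtain ⟨j, hj, w, hw, hjw⟩ := Submodule.mem_sup.1 hu
    obtain ⟨a, rfl⟩ := Ideal.mem_span_singleton'.1 hw
    have h3 : a ∈ J ⊔ Ideal.span {l} := by
      refine h2 a ?_
      have h4 : f * a = u * l - j := by
        linear_combination hjw
      rw [h4]
      exact Ideal.sub_mem _ (Ideal.mem_sup_right (Ideal.mul_mem_left _ _
        (Ideal.mem_span_singleton_self l))) (Ideal.mem_sup_left hj)
    obtain ⟨j', hj', w, hw, hjw'⟩ := Submodule.mem_sup.1 h3
    obtain ⟨b, rfl⟩ := Ideal.mem_span_singleton'.1 hw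
    have h4 : u - b * f ∈ J := by
      refine h1 _ ?_
      have h5 : l * (u - b * f) = j + j' * f := by
        linear_combination -1 * hjw + (-f) * hjw'
      rw [h5]
      exact J.add_mem hj (J.mul_mem_right _ hj')
    have h5 : u = (u - b * f) + b * f := by ring
    rw [h5]
    exact Ideal.add_mem _ (Ideal.mem_sup_left h4) (Ideal.mem_sup_right
      (Ideal.mul_mem_left _ _ (Ideal.mem_span_singleton_self f)))

end nzd

section elim

variable {K : Type} [Field K] {n : ℕ}

/-- a linear form -/
noncomputable def lin {n : ℕ} (c : Fin n → K) : MvPolynomial (Fin n) K := ∑ j, C (c j) * X j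

theorem lin_hom {n : ℕ} (c : Fin n → K) : (lin c).IsHomogeneous 1 := by
  refine IsHomogeneous.sum _ _ _ fun j _ => ?_
  simpa using (isHomogeneous_C (Fin n) (c j)).mul (isHomogeneous_X K j)

theorem aeval_lin {n : ℕ} (c : Fin n → K) {L : Type} [Field L] [Algebra K L] (x : Fin n → L) :
    aeval x (lin c) = ∑ j, algebraMap K L (c j) * x j := by
  simp [lin]

/-- elimination of a variable -/
noncomputable def el (c : Fin (n + 1) → K) (a : Fin (n + 1)) :
    MvPolynomial (Fin (n + 1)) K →ₐ[K] MvPolynomial (Fin n) K :=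
  aeval (a.insertNth (α := fun _ => MvPolynomial (Fin n) K)
    (-∑ j, C (c (a.succAbove j) / c a) * X j) X)

theorem el_same (c : Fin (n + 1) → K) (a : Fin (n + 1)) :
    el c a (X a) = -∑ j, C (c (a.succAbove j) / c a) * X j := by
  rw [el, aeval_X, Fin.insertNth_apply_same]

theorem el_succ (c : Fin (n + 1) → K) (a : Fin (n + 1)) (j : Fin n) :
    el c a (X (a.succAbove j)) = X j := by
  rw [el, aeval_X, Fin.insertNth_apply_succAbove]

theorem el_rename (c : Fin (n + 1) → K) (a : Fin (n + 1)) (p : MvPolynomial (Fin n) K) :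
    el c a (rename a.succAbove p) = p := by
  have h : (el c a).comp (rename a.succAbove) = AlgHom.id K _ := by
    apply MvPolynomial.algHom_ext
    intro j
    rw [AlgHom.comp_apply, rename_X, el_succ]
    rfl
  exact DFunLike.congr_fun h p

theorem el_lin (c : Fin (n + 1) → K) (a : Fin (n + 1)) (h : c a ≠ 0) : el c a (lin c) = 0 := by
  rw [lin, map_sum, Fin.sum_univ_succAbove _ a]
  simp only [map_mul, el_same, el_succ]
  have h1 : ∀ y : K, el c a (C y) = C y := fun y => by
    rw [el, aeval_C]
    rfl
  simp only [h1]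
  rw [mul_neg, Finset.mul_sum, neg_add_eq_zero]
  refine Finset.sum_congr rfl fun j _ => ?_
  rw [← mul_assoc, ← C_mul, mul_div_cancel₀ _ h]

theorem ker_el (c : Fin (n + 1) → K) (a : Fin (n + 1)) (h : c a ≠ 0)
    (p : MvPolynomial (Fin (n + 1)) K) :
    p - rename a.succAbove (el c a p) ∈ Ideal.span {lin c} := by
  set J := Ideal.span {lin c} with hJ
  have h1 : (Ideal.Quotient.mkₐ K J).comp ((rename a.succAbove).comp (el c a)) =
      Ideal.Quotient.mkₐ K J := by
    apply MvPolynomial.algHom_ext
    intro i
    rw [AlgHom.comp_apply, AlgHom.comp_apply, Ideal.Quotient.mkₐ_eq_mk, Ideal.Quotient.eq]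
    rcases Fin.eq_self_or_eq_succAbove a i with rfl | ⟨j, rfl⟩
    · rw [el_same]
      have h2 : rename i.succAbove (-∑ j, C (c (i.succAbove j) / c i) * X j) - X i =
          -(C (c i)⁻¹) * lin c := by
        rw [lin, Fin.sum_univ_succAbove _ i, map_neg, map_sum]
        simp only [map_mul, rename_C, rename_X]
        rw [mul_add, Finset.mul_sum, neg_mul, ← mul_assoc, ← C_mul, inv_mul_cancel₀ h, C_1,
          one_mul]
        have h3 : ∑ j, -C (c i)⁻¹ * (C (c (i.succAbove j)) * X (i.succAbove j)) =
            -∑ j, C (c (i.succAbove j) / c i) * X (i.succAbove j) := by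
          rw [← Finset.sum_neg_distrib]
          refine Finset.sum_congr rfl fun j _ => ?_
          rw [div_eq_mul_inv, C_mul]
          ring
        rw [h3]
        ring
      rw [h2]
      exact J.mul_mem_left _ (Ideal.mem_span_singleton_self _)
    · rw [el_succ, rename_X, sub_self]
      exact J.zero_mem
  have h2 := DFunLike.congr_fun h1 p
  rw [AlgHom.comp_apply, AlgHom.comp_apply, Ideal.Quotient.mkₐ_eq_mk, Ideal.Quotient.eq] at h2
  rw [← neg_sub]
  exact J.neg_mem h2

theorem el_hom (c : Fin (n + 1) → K) (a : Fin (n + 1)) {p : MvPolynomial (Fin (n + 1)) K} {d : ℕ}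
    (hp : p.IsHomogeneous d) : (el c a p).IsHomogeneous d := by
  have h := hp.aeval (n := 1) (a.insertNth (α := fun _ => MvPolynomial (Fin n) K)
    (-∑ j, C (c (a.succAbove j) / c a) * X j) X) (by
      intro i
      rcases Fin.eq_self_or_eq_succAbove a i with rfl | ⟨j, rfl⟩
      · rw [Fin.insertNth_apply_same]
        exact (lin_hom _).neg
      · rw [Fin.insertNth_apply_succAbove]
        exact isHomogeneous_X K j)
  rw [one_mul] at h
  exact h

theorem aeval_el (c : Fin (n + 1) → K) (a : Fin (n + 1)) {L : Type} [Field L] [Algebra K L]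
    (x : Fin n → L) (p : MvPolynomial (Fin (n + 1)) K) :
    aeval x (el c a p) = aeval (a.insertNth (α := fun _ => L)
      (-∑ j, algebraMap K L (c (a.succAbove j) / c a) * x j) x) p := by
  have h : (aeval x).comp (el c a) = (aeval (a.insertNth (α := fun _ => L)
      (-∑ j, algebraMap K L (c (a.succAbove j) / c a) * x j) x) :
      MvPolynomial (Fin (n + 1)) K →ₐ[K] L) := by
    apply MvPolynomial.algHom_ext
    intro i
    rw [AlgHom.comp_apply, aeval_X]
    rcases Fin.eq_self_or_eq_succAbove a i with rfl | ⟨j, rfl⟩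
    · rw [el_same, Fin.insertNth_apply_same]
      simp
    · rw [el_succ, Fin.insertNth_apply_succAbove, aeval_X]
  exact DFunLike.congr_fun h p

end elim

section seq

variable {K : Type} [Field K]

/-- one step of the induction -/
theorem reg_step {r : ℕ} (ih : ∀ g : Fin r → MvPolynomial (Fin r) K,
      (∀ i, ∃ e, 0 < e ∧ (g i).IsHomogeneous e) →
      (∀ (L : Type) [Field L] [Algebra K L] (x : Fin r → L), (∀ i, aeval x (g i) = 0) → x = 0) →
      ∀ i, NZ (Ideal.span (g '' Set.Iio i)) (g i))
    (f : Fin r → MvPolynomial (Fin (r + 1)) K) (hf : ∀ i, ∃ e, 0 < e ∧ (f i).IsHomogeneous e)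
    (c : Fin (r + 1) → K) (a : Fin (r + 1)) (hc : c a ≠ 0)
    (hz : ∀ (L : Type) [Field L] [Algebra K L] (x : Fin (r + 1) → L),
      (∀ i, aeval x (f i) = 0) → aeval x (lin c) = 0 → x = 0) :
    (∀ i : Fin r, NZ (Ideal.span (f '' Set.Iio i)) (f i)) ∧
      NZ (Ideal.span (Set.range f)) (lin c) := by
  have hih := ih (fun i => el c a (f i)) (fun i => by
    obtain ⟨e, he, h⟩ := hf i
    exact ⟨e, he, el_hom c a h⟩) (by
    intro L _ _ x hx
    have h1 := hz L (a.insertNth (α := fun _ => L)
      (-∑ j, algebraMap K L (c (a.succAbove j) / c a) * x j) x) (fun i => by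
        rw [← aeval_el]
        exact hx i) (by
        rw [← aeval_el, el_lin c a hc, map_zero])
    funext j
    have h2 := congrFun h1 (a.succAbove j)
    rw [Fin.insertNth_apply_succAbove] at h2
    exact h2)
  -- modulo the linear form
  have hmod : ∀ i : Fin r, NZ (Ideal.span (f '' Set.Iio i) ⊔ Ideal.span {lin c}) (f i) := by
    intro i u hu
    have h1 : el c a (f i) * el c a u ∈ Ideal.span ((fun i => el c a (f i)) '' Set.Iio i) := by
      rw [← map_mul]
      have h2 := Ideal.mem_map_of_mem (el c a) hu
      rw [Ideal.map_sup, Ideal.map_span, Ideal.map_span, Set.image_singleton, el_lin c a hc,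
        Ideal.span_singleton_eq_bot.2 rfl, sup_bot_eq, ← Set.image_comp] at h2
      exact h2
    have h2 := hih i _ h1
    have h3 : rename a.succAbove (el c a u) ∈
        Ideal.span (f '' Set.Iio i) ⊔ Ideal.span {lin c} := by
      have h4 := Ideal.mem_map_of_mem (rename (R := K) a.succAbove) h2
      rw [Ideal.map_span, ← Set.image_comp] at h4
      refine Submodule.span_le.2 ?_ h4
      rintro _ ⟨j, hj, rfl⟩
      have h5 := ker_el c a hc (f j)
      have h6 : rename a.succAbove (el c a (f j)) = f j -
          (f j - rename a.succAbove (el c a (f j))) := by ring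
      show rename a.succAbove (el c a (f j)) ∈ _
      rw [h6]
      exact Ideal.sub_mem _ (Ideal.mem_sup_left (Ideal.subset_span ⟨j, hj, rfl⟩))
        (Ideal.mem_sup_right h5)
    have h4 : u = rename a.succAbove (el c a u) + (u - rename a.succAbove (el c a u)) := by ring
    rw [h4]
    exact Ideal.add_mem _ h3 (Ideal.mem_sup_right (ker_el c a hc u))
  -- the initial segments
  set J : ℕ → Ideal (MvPolynomial (Fin (r + 1)) K) := fun i =>
    Ideal.span (f '' {j | j.val < i}) with hJ
  have hHI : ∀ i, HI (J i) := by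
    intro i
    refine HI.of_span ?_
    rintro _ ⟨j, -, rfl⟩
    obtain ⟨e, -, h⟩ := hf j
    exact ⟨e, h⟩
  have hIio : ∀ i : Fin r, Ideal.span (f '' Set.Iio i) = J i.val := by
    intro i
    rfl
  have hsucc : ∀ i : Fin r, J (i.val + 1) = J i.val ⊔ Ideal.span {f i} := by
    intro i
    rw [hJ]
    simp only
    rw [← Ideal.span_union]
    congr 1
    ext p
    constructor
    · rintro ⟨j, hj, rfl⟩
      have hj' : j.val < i.val + 1 := hj
      rcases Nat.lt_or_ge j.val i.val with h | h
      · exact Or.inl ⟨j, h, rfl⟩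
      · have : j = i := Fin.ext (by omega)
        rw [this]
        exact Or.inr rfl
    · rintro (⟨j, hj, rfl⟩ | hp)
      · have hj' : j.val < i.val := hj
        exact ⟨j, Nat.lt_succ_of_lt hj', rfl⟩
      · rw [Set.mem_singleton_iff] at hp
        exact ⟨i, Nat.lt_succ_self _, hp.symm⟩
  have hl : ∀ i : ℕ, i ≤ r → NZ (J i) (lin c) := by
    intro i
    induction i with
    | zero =>
      intro _ u hu
      have h1 : J 0 = ⊥ := by
        rw [hJ]
        simp
      rw [h1, Ideal.mem_bot] at hu ⊢
      refine (mul_eq_zero.1 hu).resolve_left fun h0 => hc ?_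
      have h2 := congrArg (eval (Pi.single a 1)) h0
      simp only [lin, map_sum, map_mul, eval_C, eval_X, map_zero] at h2
      rw [Finset.sum_eq_single a (fun j _ hj => by rw [Pi.single_eq_of_ne hj, mul_zero])
        (fun h => absurd (Finset.mem_univ _) h), Pi.single_eq_same, mul_one] at h2
      exact h2
    | succ i ih2 =>
      intro hi
      obtain ⟨e, -, he⟩ := hf ⟨i, hi⟩
      have h1 := nz_swap (hHI i) (lin_hom c) he (ih2 (by omega)) (hmod ⟨i, hi⟩)
      have h2 := hsucc ⟨i, hi⟩
      simp only at h2
      rw [h2]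
      exact h1.2
  refine ⟨fun i => ?_, ?_⟩
  · obtain ⟨e, -, he⟩ := hf i
    exact (nz_swap (hHI i.val) (lin_hom c) he (hl i.val i.2.le) (hmod i)).1
  · have h1 := hl r le_rfl
    have h2 : J r = Ideal.span (Set.range f) := by
      rw [hJ]
      simp only
      congr 1
      ext p
      constructor
      · rintro ⟨j, -, rfl⟩
        exact ⟨j, rfl⟩
      · rintro ⟨j, rfl⟩
        exact ⟨j, j.2, rfl⟩
    rw [h2] at h1
    exact h1

/-- existence of a linear form -/
theorem exists_c [Infinite K] {n : ℕ} (hn : 0 < n) {ι : Type} (f : ι → MvPolynomial (Fin n) K)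
    (hf : ∀ i, ∃ e, (f i).IsHomogeneous e)
    (g : MvPolynomial (Fin n) K) (e : ℕ) (he : 0 < e) (hg : g.IsHomogeneous e)
    (hz : ∀ (L : Type) [Field L] [Algebra K L] (x : Fin n → L),
      (∀ i, aeval x (f i) = 0) → aeval x g = 0 → x = 0) :
    ∃ c : Fin n → K, c ≠ 0 ∧ ∀ (L : Type) [Field L] [Algebra K L] (x : Fin n → L),
      (∀ i, aeval x (f i) = 0) → aeval x (lin c) = 0 → x = 0 := by
  classical
  by_cases hg0 : g = 0
  · refine ⟨fun _ => 1, fun h => one_ne_zero (congrFun h ⟨0, hn⟩), fun L _ _ x hx _ =>
      hz L x hx ?_⟩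
    rw [hg0, map_zero]
  set J : Ideal (MvPolynomial (Fin n) (AlgebraicClosure K)) :=
    Ideal.span (Set.range fun i => map (algebraMap K (AlgebraicClosure K)) (f i)) with hJ
  have hHI : HI J := by
    refine HI.of_span ?_
    rintro _ ⟨i, rfl⟩
    obtain ⟨e, h⟩ := hf i
    exact ⟨e, h.map _⟩
  have hgm : map (algebraMap K (AlgebraicClosure K)) g ≠ 0 := by
    intro h
    apply hg0
    apply MvPolynomial.map_injective _ (algebraMap K (AlgebraicClosure K)).injective
    rw [h, map_zero]
  obtain ⟨T, hT1, -, hT3⟩ := exists_zeros hHI he (hg.map _) hgm (by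
    intro L _ _ x hx
    let _ : Algebra K L := ((algebraMap (AlgebraicClosure K) L).comp
      (algebraMap K (AlgebraicClosure K))).toAlgebra
    have h1 : ∀ p : MvPolynomial (Fin n) K,
        aeval x (map (algebraMap K (AlgebraicClosure K)) p) = aeval x p := by
      intro p
      rw [aeval_def, eval₂_map, aeval_def]
      rfl
    refine hz L x (fun i => ?_) ?_
    · rw [← h1]
      exact hx _ (Ideal.mem_sup_left (Ideal.subset_span ⟨i, rfl⟩))
    · rw [← h1]
      exact hx _ (Ideal.mem_sup_right (Ideal.mem_span_singleton_self _)))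
  -- the linear form
  let ψ : (Fin n → AlgebraicClosure K) → (Fin n → K) →ₗ[K] AlgebraicClosure K := fun y =>
    ∑ j, (LinearMap.toSpanSingleton K (AlgebraicClosure K) (y j)).comp (LinearMap.proj j)
  have hψ : ∀ y c, ψ y c = ∑ j, algebraMap K (AlgebraicClosure K) (c j) * y j := by
    intro y c
    rw [LinearMap.sum_apply]
    refine Finset.sum_congr rfl fun j _ => ?_
    rw [LinearMap.comp_apply, LinearMap.proj_apply, LinearMap.toSpanSingleton_apply,
      Algebra.smul_def]
  have htop : ∀ y ∈ T, LinearMap.ker (ψ y) ≠ ⊤ := by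
    intro y hy h
    obtain ⟨a, ha⟩ := Function.ne_iff.1 (hT1 y hy).1
    apply ha
    have h1 : (Pi.single a 1 : Fin n → K) ∈ LinearMap.ker (ψ y) := by
      rw [h]
      trivial
    rw [LinearMap.mem_ker, hψ] at h1
    rw [Finset.sum_eq_single a] at h1
    · rw [Pi.single_eq_same, map_one, one_mul] at h1
      exact h1
    · intro b _ hb
      rw [Pi.single_eq_of_ne hb, map_zero, zero_mul]
    · intro h
      exact absurd (Finset.mem_univ _) h
  have hne := Subspace.biUnion_ne_univ_of_top_notMem (k := K) (E := Fin n → K)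
    (s := insert ⊥ (T.image fun y => LinearMap.ker (ψ y))) (by
      intro h
      rcases Finset.mem_insert.1 h with h | h
      · have h1 : (Pi.single ⟨0, hn⟩ 1 : Fin n → K) ∈ (⊤ : Subspace K (Fin n → K)) := trivial
        rw [h, Submodule.mem_bot, Pi.single_eq_zero_iff] at h1
        exact one_ne_zero h1
      · obtain ⟨y, hy, h⟩ := Finset.mem_image.1 h
        exact htop y hy h)
  rw [Set.ne_univ_iff_exists_notMem] at hne
  obtain ⟨c, hc⟩ := hne
  have hc0 : c ≠ 0 := by
    rintro rfl
    apply hc
    simp only [Set.mem_iUnion]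
    exact ⟨⊥, Finset.mem_insert_self _ _, Submodule.zero_mem _⟩
  have hcT : ∀ y ∈ T, ∑ j, algebraMap K (AlgebraicClosure K) (c j) * y j ≠ 0 := by
    intro y hy h
    apply hc
    simp only [Set.mem_iUnion]
    exact ⟨_, Finset.mem_insert_of_mem (Finset.mem_image_of_mem _ hy), by
      show c ∈ LinearMap.ker (ψ y)
      rw [LinearMap.mem_ker, hψ]
      exact h⟩
  refine ⟨c, hc0, fun L _ _ x hx hxc => ?_⟩
  by_contra hx0
  let L' := AlgebraicClosure L
  let s : AlgebraicClosure K →ₐ[K] L' := IsAlgClosed.lift
  let _ : Algebra (AlgebraicClosure K) L' := s.toRingHom.toAlgebra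
  have hs : ∀ y : K, algebraMap (AlgebraicClosure K) L' (algebraMap K (AlgebraicClosure K) y) =
      algebraMap L L' (algebraMap K L y) := fun y =>
    (s.commutes y).trans (IsScalarTower.algebraMap_apply K L L' y)
  have hcov := covers_alg J T (fun y hy => (hT1 y hy).1) hT3
  obtain ⟨y, hy, c', hc'⟩ := hcov L' (fun b => algebraMap L L' (x b)) (by
    intro h
    apply hx0
    funext b
    have := congrFun h b
    simpa using this) (by
    intro p hp
    refine Submodule.span_induction (p := fun p _ => aeval (fun b => algebraMap L L' (x b)) p = 0)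
      ?_ ?_ ?_ ?_ hp
    · rintro _ ⟨i, rfl⟩
      have h1 : aeval (fun b => algebraMap L L' (x b)) (f i) = 0 := by
        have h2 := aeval_algebraMap_apply L' x (f i)
        rw [hx i, map_zero] at h2
        exact h2
      rw [← h1]
      rw [aeval_def, aeval_def, eval₂_map]
      congr 1
      ext t
      exact s.commutes t
    · rw [map_zero]
    · intro a b _ _ ha hb
      rw [map_add, ha, hb, add_zero]
    · intro a b _ hb
      rw [smul_eq_mul, map_mul, hb, mul_zero])
  have h1 : algebraMap L L' (∑ j, algebraMap K L (c j) * x j) = 0 := by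
    rw [← aeval_lin, hxc, map_zero]
  have h2 : algebraMap L L' (∑ j, algebraMap K L (c j) * x j) =
      c' * algebraMap (AlgebraicClosure K) L'
        (∑ j, algebraMap K (AlgebraicClosure K) (c j) * y j) := by
    rw [map_sum, map_sum, Finset.mul_sum]
    refine Finset.sum_congr rfl fun j _ => ?_
    have h3 := congrFun hc' j
    rw [Pi.smul_apply, smul_eq_mul] at h3
    rw [map_mul, map_mul, h3, hs]
    ring
  rw [h1] at h2
  have h3 : c' = 0 := by
    refine (mul_eq_zero.1 h2.symm).resolve_right ?_
    rw [map_eq_zero]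
    exact hcT y hy
  apply hx0
  funext b
  have h4 := congrFun hc' b
  rw [h3, zero_smul] at h4
  have h5 : algebraMap L L' (x b) = 0 := h4
  exact (map_eq_zero _).1 h5

/-- systems of parameters are regular sequences -/
theorem regT [Infinite K] : ∀ (r : ℕ) (f : Fin r → MvPolynomial (Fin r) K),
    (∀ i, ∃ e, 0 < e ∧ (f i).IsHomogeneous e) →
    (∀ (L : Type) [Field L] [Algebra K L] (x : Fin r → L), (∀ i, aeval x (f i) = 0) → x = 0) →
    ∀ i, NZ (Ideal.span (f '' Set.Iio i)) (f i) := by
  intro r
  induction r with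
  | zero =>
    intro f _ _ i
    exact i.elim0
  | succ r ih =>
    intro f hf hz
    obtain ⟨e, he, hfe⟩ := hf (Fin.last r)
    obtain ⟨c, hc0, hc⟩ := exists_c (Nat.succ_pos r) (fun i : Fin r => f i.castSucc)
      (fun i => by obtain ⟨e, -, h⟩ := hf i.castSucc; exact ⟨e, h⟩) (f (Fin.last r)) e he hfe (by
        intro L _ _ x h1 h2
        refine hz L x fun i => ?_
        rcases Fin.eq_castSucc_or_eq_last i with ⟨j, rfl⟩ | rfl
        · exact h1 j
        · exact h2)
    obtain ⟨a, ha⟩ := Function.ne_iff.1 hc0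
    obtain ⟨h1, h2⟩ := reg_step ih (fun i : Fin r => f i.castSucc) (fun i => hf i.castSucc)
      c a ha hc
    intro i
    rcases Fin.eq_castSucc_or_eq_last i with ⟨j, rfl⟩ | rfl
    · have h3 : f '' Set.Iio j.castSucc = (fun i : Fin r => f i.castSucc) '' Set.Iio j := by
        ext p
        constructor
        · rintro ⟨l, hl, rfl⟩
          have hl' : l.val < j.val := hl
          exact ⟨⟨l.val, by omega⟩, hl', rfl⟩
        · rintro ⟨l, hl, rfl⟩
          exact ⟨l.castSucc, hl, rfl⟩
      rw [h3]
      exact h1 j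
    · have h3 : f '' Set.Iio (Fin.last r) = Set.range (fun i : Fin r => f i.castSucc) := by
        ext p
        constructor
        · rintro ⟨l, hl, rfl⟩
          have hl' : l.val < r := hl
          exact ⟨⟨l.val, hl'⟩, rfl⟩
        · rintro ⟨l, rfl⟩
          exact ⟨l.castSucc, Fin.castSucc_lt_last l, rfl⟩
      rw [h3]
      set J := Ideal.span (Set.range fun i : Fin r => f i.castSucc) with hJ
      intro u hu
      obtain ⟨N, hN⟩ := large_mem (J ⊔ Ideal.span {f (Fin.last r)}) (by
        intro L _ _ x hx
        refine hz L x fun i => ?_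
        rcases Fin.eq_castSucc_or_eq_last i with ⟨j, rfl⟩ | rfl
        · exact hx _ (Ideal.mem_sup_left (Ideal.subset_span ⟨j, rfl⟩))
        · exact hx _ (Ideal.mem_sup_right (Ideal.mem_span_singleton_self _)))
      have h4 : (lin c) ^ N ∈ J ⊔ Ideal.span {f (Fin.last r)} := by
        refine hN N le_rfl _ ?_
        simpa using (lin_hom c).pow N
      obtain ⟨j, hj, w, hw, hjw⟩ := Submodule.mem_sup.1 h4
      obtain ⟨b, rfl⟩ := Ideal.mem_span_singleton'.1 hw
      have h5 : (lin c) ^ N * u ∈ J := by
        rw [← hjw]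
        have h6 : (j + b * f (Fin.last r)) * u = j * u + b * (f (Fin.last r) * u) := by ring
        rw [h6]
        exact J.add_mem (J.mul_mem_right _ hj) (J.mul_mem_left _ hu)
      have h6 : ∀ M : ℕ, (lin c) ^ M * u ∈ J → u ∈ J := by
        intro M
        induction M with
        | zero => intro h; simpa using h
        | succ M ihM =>
          intro h
          refine ihM (h2 _ ?_)
          rw [← mul_assoc, ← pow_succ']
          exact h
      exact h6 N h5

end seq

end Pool.Agent.R404.TC
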