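import Mathlib
import Pool.Agent.R404.TC.Over
import Pool.Agent.R404.TC.Reg

set_option autoImplicit false
set_option linter.unusedSectionVars false

/-!
The inequality: final form.
-/

namespace Pool.Agent.R404.TC

open MvPolynomial Finset Module Height NumberField
open Pool.Agent.W180.OP (Pl av wt nrm le_nrm nrm_pos nrm_nonneg exists_nrm lam lam_eq wt_nonneg
  cs cs_nonneg abv_mv not_small)

theorem regU {K : Type} [Field K] [Infinite K] {r : ℕ} (f : Fin r → MvPolynomial (Fin (r + 1)) K)
    (hf : ∀ i, ∃ e, 0 < e ∧ (f i).IsHomogeneous e)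
    (g : MvPolynomial (Fin (r + 1)) K) (e : ℕ) (he : 0 < e) (hg : g.IsHomogeneous e)
    (hz : ∀ (L : Type) [Field L] [Algebra K L] (x : Fin (r + 1) → L),
      (∀ i, aeval x (f i) = 0) → aeval x g = 0 → x = 0) (i : Fin r) :
    NZ (Ideal.span (f '' Set.Iio i)) (f i) := by
  obtain ⟨c, hc0, hc⟩ := exists_c (Nat.succ_pos r) f
    (fun i => by obtain ⟨e, -, h⟩ := hf i; exact ⟨e, h⟩) g e he hg hz
  obtain ⟨a, ha⟩ := Function.ne_iff.1 hc0
  exact (reg_step (regT r) f hf c a ha hc).1 i

/-- there is one more component -/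
theorem exists_more {q r : ℕ} (hr : r < q) (σ : Fin r → Fin q) (hσ : Function.Injective σ) :
    ∃ (i0 : Fin q) (T : Finset (Fin q)), T.card = r + 1 ∧ ∀ i ∈ T, i = i0 ∨ ∃ j, σ j = i := by
  classical
  have h1 : (Finset.univ.image σ).card = r := by
    rw [Finset.card_image_of_injective _ hσ, Finset.card_univ, Fintype.card_fin]
  obtain ⟨i0, hi0⟩ : ∃ i0, i0 ∉ Finset.univ.image σ := by
    by_contra hcon
    push Not at hcon
    have h2 : Finset.univ.image σ = Finset.univ := Finset.eq_univ_iff_forall.2 hcon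
    rw [h2, Finset.card_univ, Fintype.card_fin] at h1
    omega
  refine ⟨i0, insert i0 (Finset.univ.image σ), ?_, ?_⟩
  · rw [Finset.card_insert_of_notMem hi0, h1]
  · intro i hi
    rcases Finset.mem_insert.1 hi with h | h
    · exact Or.inl h
    · obtain ⟨j, -, hj⟩ := Finset.mem_image.1 h
      exact Or.inr ⟨j, hj⟩

variable {k : Type} [Field k] [NumberField k]

theorem final {n m : ℕ} (G : Fin m → MvPolynomial (Fin n) k) (γ : Fin m → ℕ)
    (hG : ∀ j, (G j).IsHomogeneous (γ j)) {q r : ℕ} (hr0 : 0 < r) (hr : r < q)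
    (F : Fin q → MvPolynomial (Fin n) k) (d : Fin q → ℕ) (hd : ∀ i, 0 < d i)
    (hF : ∀ i, (F i).IsHomogeneous (d i))
    (hno : ∀ T : Finset (Fin q), T.card = r + 1 → ∀ (L : Type) [Field L] [Algebra k L]
      (x : Fin n → L), (∀ j, aeval x (G j) = 0) → (∀ i ∈ T, aeval x (F i) = 0) → x = 0)
    (htwo : ∀ σ : Fin r → Fin q, StrictMono σ → ∃ x y : Fin n → AlgebraicClosure k,
      LinearIndependent (AlgebraicClosure k) ![x, y] ∧
      (∀ j, aeval x (G j) = 0) ∧ (∀ j, aeval y (G j) = 0) ∧
      (∀ j, aeval x (F (σ j)) = 0) ∧ ∀ j, aeval y (F (σ j)) = 0)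
    (hreg : (m = 0 ∧ n = r + 1) ∨ ∀ σ : Fin r → Fin q, StrictMono σ →
      ∀ (L : Type) [Field L] [Algebra k L]
      (y : Fin n → L), y ≠ 0 → (∀ j, aeval y (G j) = 0) → (∀ j, aeval y (F (σ j)) = 0) →
      ∀ j : Fin r, RegAt (Ideal.span (Set.range fun l => map (algebraMap k L) (G l)) ⊔
        Ideal.span ((fun i => map (algebraMap k L) (F (σ i))) '' Set.Iio j))
        (map (algebraMap k L) (F (σ j))) y) :
    ∃ c : ℝ, 0 < c ∧ ∀ (S : Finset (Pl k)) (ε : ℝ), 0 < ε →
      ∃ (t : ℕ) (Z : Finset (MvPolynomial (Fin n) k)) (C : ℝ),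
        (∀ Φ ∈ Z, Φ.IsHomogeneous t ∧ Φ ∉ Ideal.span (Set.range G)) ∧
        ∀ x : Fin n → k, x ≠ 0 → (∀ j, eval x (G j) = 0) → (∀ i, eval x (F i) ≠ 0) →
          (∀ Φ ∈ Z, eval x Φ ≠ 0) →
          ∀ τ : Pl k → Fin r → Fin q, (∀ v, Function.Injective (τ v)) → ∀ μ : Pl k → ℝ,
            (∀ v ∈ S, ∀ j, μ v ≤ lam (av v) (d (τ v j)) (F (τ v j)) x) →
            ∑ v ∈ S, wt v * (∑ i, lam (av v) (d i) (F i) x / d i + c * μ v) ≤
              (r + 1 + ε) * logHeight x + C := by
  classical
  -- the points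
  have hzeros : ∀ σ : Fin r → Fin q, ∃ T : Finset (Fin n → AlgebraicClosure k), StrictMono σ →
      (∀ y ∈ T, y ≠ 0 ∧ (∀ j, aeval y (G j) = 0) ∧ ∀ j, aeval y (F (σ j)) = 0) ∧ Pw T ∧
      ∀ x : Fin n → AlgebraicClosure k, x ≠ 0 →
      (∀ j, aeval x (G j) = 0) → (∀ j, aeval x (F (σ j)) = 0) → ∃ y ∈ T,
        ∃ c : AlgebraicClosure k, x = c • y := by
    intro σ
    by_cases hσ : StrictMono σ
    · obtain ⟨i0, T0, hT0, hT0'⟩ := exists_more hr σ hσ.injective
      have hae : ∀ (x : Fin n → AlgebraicClosure k) (p : MvPolynomial (Fin n) k),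
          eval x (map (algebraMap k (AlgebraicClosure k)) p) = aeval x p := by
        intro x p
        rw [eval_map]
        rfl
      by_cases hF0 : F i0 = 0
      · refine ⟨∅, fun _ => ⟨fun y hy => absurd hy (Finset.notMem_empty y),
          fun y hy => absurd hy (Finset.notMem_empty y), fun x hx h1 h2 => ?_⟩⟩
        exfalso
        apply hx
        refine hno T0 hT0 _ x h1 fun i hi => ?_
        rcases hT0' i hi with rfl | ⟨j, rfl⟩
        · rw [hF0, map_zero]
        · exact h2 j
      set J : Ideal (MvPolynomial (Fin n) (AlgebraicClosure k)) :=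
        Ideal.span (Set.range (Sum.elim
          (fun l => map (algebraMap k (AlgebraicClosure k)) (G l))
          fun j => map (algebraMap k (AlgebraicClosure k)) (F (σ j)))) with hJ
      have hHI : HI J := by
        refine HI.of_span ?_
        rintro _ ⟨l | j, rfl⟩
        · exact ⟨_, (hG l).map _⟩
        · exact ⟨_, (hF (σ j)).map _⟩
      obtain ⟨T, h1, h2, h3⟩ := exists_zeros hHI (hd i0)
        ((hF i0).map (algebraMap k (AlgebraicClosure k))) (by
          intro h
          apply hF0
          apply MvPolynomial.map_injective _ (algebraMap k (AlgebraicClosure k)).injective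
          rw [h, map_zero]) (by
          intro L _ _ x hx
          let _ : Algebra k L := ((algebraMap (AlgebraicClosure k) L).comp
            (algebraMap k (AlgebraicClosure k))).toAlgebra
          have h1 : ∀ p : MvPolynomial (Fin n) k,
              aeval x (map (algebraMap k (AlgebraicClosure k)) p) = aeval x p := by
            intro p
            rw [aeval_def, eval₂_map, aeval_def]
            rfl
          refine hno T0 hT0 L x (fun l => ?_) fun i hi => ?_
          · rw [← h1]
            exact hx _ (Ideal.mem_sup_left (Ideal.subset_span ⟨Sum.inl l, rfl⟩))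
          · rw [← h1]
            rcases hT0' i hi with rfl | ⟨j, rfl⟩
            · exact hx _ (Ideal.mem_sup_right (Ideal.mem_span_singleton_self _))
            · exact hx _ (Ideal.mem_sup_left (Ideal.subset_span ⟨Sum.inr j, rfl⟩)))
      refine ⟨T, fun _ => ⟨fun y hy => ⟨(h1 y hy).1, fun l => ?_, fun j => ?_⟩, h2,
        fun x hx hx1 hx2 => h3 x hx fun p hp => ?_⟩⟩
      · rw [← hae]
        exact (h1 y hy).2 _ (Ideal.subset_span ⟨Sum.inl l, rfl⟩)
      · rw [← hae]
        exact (h1 y hy).2 _ (Ideal.subset_span ⟨Sum.inr j, rfl⟩)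
      · refine Submodule.span_induction (p := fun p _ => eval x p = 0) ?_ ?_ ?_ ?_ hp
        · rintro _ ⟨l | j, rfl⟩
          · simp only [Sum.elim_inl]
            rw [hae]
            exact hx1 l
          · simp only [Sum.elim_inr]
            rw [hae]
            exact hx2 j
        · rw [map_zero]
        · intro a b _ _ ha hb
          rw [map_add, ha, hb, add_zero]
        · intro a b _ hb
          rw [smul_eq_mul, map_mul, hb, mul_zero]
    · exact ⟨∅, fun h => absurd h hσ⟩
  choose T hT using hzeros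
  refine overk G γ hG hr0 hr.le F d hd hF hno T (fun σ hσ => (hT σ hσ).1)
    (fun σ hσ => (hT σ hσ).2.2) (fun σ hσ => ?_) (fun σ hσ => ?_)
  · obtain ⟨x, y, hxy, hxG, hyG, hxF, hyF⟩ := htwo σ hσ
    have hx0 : x ≠ 0 := by
      have := hxy.ne_zero 0
      simpa using this
    have hy0 : y ≠ 0 := by
      have := hxy.ne_zero 1
      simpa using this
    obtain ⟨h1, h2, h3⟩ := hT σ hσ
    obtain ⟨x1, hx1, c1, hc1⟩ := h3 x hx0 hxG hxF
    obtain ⟨y1, hy1, c2, hc2⟩ := h3 y hy0 hyG hyF
    have hne : x1 ≠ y1 := by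
      rintro rfl
      have hc10 : c1 ≠ 0 := by
        rintro rfl
        rw [zero_smul] at hc1
        exact hx0 hc1
      rw [LinearIndependent.pair_iff] at hxy
      have h4 := hxy c2 (-c1) (by
        rw [hc1, hc2, smul_smul, smul_smul, neg_mul, neg_smul, mul_comm, add_neg_cancel])
      exact hc10 (neg_eq_zero.1 h4.2)
    refine ⟨⟨x1, hx1⟩, fun z hz => ?_⟩
    by_cases hzx : z = x1
    · exact ⟨y1, hy1, h2 z hz y1 hy1 (by rw [hzx]; exact hne)⟩
    · exact ⟨x1, hx1, h2 z hz x1 hx1 hzx⟩
  · rcases hreg with ⟨rfl, rfl⟩ | hreg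
    · intro L _ _ y hy _ hyF j u hu
      have hchar : Infinite L := by
        have h0 : Infinite k := inferInstance
        exact Infinite.of_injective _ (algebraMap k L).injective
      obtain ⟨i0, T0, hT0, hT0'⟩ := exists_more hr σ hσ.injective
      have h1 := regU (K := L) (fun j => map (algebraMap k L) (F (σ j)))
        (fun j => ⟨d (σ j), hd _, (hF _).map _⟩) (map (algebraMap k L) (F i0)) (d i0) (hd i0)
        ((hF i0).map _) (by
          intro L' _ _ x hx1 hx2
          let _ : Algebra k L' := ((algebraMap L L').comp (algebraMap k L)).toAlgebra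
          have h1 : ∀ p : MvPolynomial (Fin (r + 1)) k,
              aeval x (map (algebraMap k L) p) = aeval x p := by
            intro p
            rw [aeval_def, eval₂_map, aeval_def]
            rfl
          refine hno T0 hT0 L' x (fun l => l.elim0) fun i hi => ?_
          rw [← h1]
          rcases hT0' i hi with rfl | ⟨j, rfl⟩
          · exact hx2
          · exact hx1 j) j
      have h2 : Ideal.span (Set.range fun l : Fin 0 => map (algebraMap k L) (G l)) = ⊥ := by
        rw [Set.range_eq_empty, Ideal.span_empty]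
      rw [h2, bot_sup_eq] at hu ⊢
      exact ⟨1, 0, isHomogeneous_one _ _, by simp, by
        rw [one_mul]
        exact h1 u hu⟩
    · intro L _ _ y hy hyG hyF j
      exact hreg σ hσ L y hy hyG hyF j

end Pool.Agent.R404.TC
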