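import Mathlib
import Pool.Agent.R404.TC.Fin
import Pool.Agent.W180.TP.Nor

set_option autoImplicit false
set_option linter.unusedSectionVars false

/-!
Integral points.
-/

namespace Pool.Agent.R404.TC

open MvPolynomial Finset Module Height NumberField IsDedekindDomain
open Pool.Agent.W180.OP (Pl av wt fv nrm le_nrm nrm_pos nrm_nonneg exists_nrm lam lam_eq wt_nonneg
  cs cs_nonneg abv_mv not_small bc)

variable {k : Type} [Field k] [NumberField k]

/-- the inequality with the constant `c` -/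
def Ineq {n m q : ℕ} (r : ℕ) (G : Fin m → MvPolynomial (Fin n) k)
    (F : Fin q → MvPolynomial (Fin n) k) (d : Fin q → ℕ) (c : ℝ) : Prop :=
  ∀ (S : Finset (Pl k)) (ε : ℝ), 0 < ε →
    ∃ (t : ℕ) (Z : Finset (MvPolynomial (Fin n) k)) (C : ℝ),
      (∀ Φ ∈ Z, Φ.IsHomogeneous t ∧ Φ ∉ Ideal.span (Set.range G)) ∧
      ∀ x : Fin n → k, x ≠ 0 → (∀ j, eval x (G j) = 0) → (∀ i, eval x (F i) ≠ 0) →
        (∀ Φ ∈ Z, eval x Φ ≠ 0) →
        ∀ τ : Pl k → Fin r → Fin q, (∀ v, Function.Injective (τ v)) → ∀ μ : Pl k → ℝ,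
          (∀ v ∈ S, ∀ j, μ v ≤ lam (av v) (d (τ v j)) (F (τ v j)) x) →
          ∑ v ∈ S, wt v * (∑ i, lam (av v) (d i) (F i) x / d i + c * μ v) ≤
            (r + 1 + ε) * logHeight x + C

/-- the places in `S` -/
noncomputable def Sp (S₂ : Finset (HeightOneSpectrum (𝓞 k))) : Finset (Pl k) :=
  (Finset.univ : Finset (InfinitePlace k)).disjSum S₂

/-- the counting function -/
noncomputable def cnt {n : ℕ} (S₂ : Finset (HeightOneSpectrum (𝓞 k))) (d : ℕ)
    (F : MvPolynomial (Fin n) k) (x : Fin n → k) : ℝ :=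
  ∑ᶠ (v : HeightOneSpectrum (𝓞 k)) (_ : v ∉ S₂), lam (fv v) d F x

theorem bc_self {n : ℕ} (F : MvPolynomial (Fin n) k) : bc k F = F := by
  rw [bc, Algebra.algebraMap_self, MvPolynomial.map_id]

theorem fmtS {n : ℕ} (d : ℕ) (F : MvPolynomial (Fin n) k) {x : Fin n → k} (hx : x ≠ 0)
    (hF : eval x F ≠ 0) (S₂ : Finset (HeightOneSpectrum (𝓞 k))) :
    ∑ v ∈ Sp S₂, wt v * lam (av v) d F x = d * logHeight x - cnt S₂ d F x := by
  have h := (Pool.Agent.W180.TP.fmt (K := k) (L := k) (d := d) F hx (by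
    have h2 : aeval x F = eval x F := DFunLike.congr_fun (coe_aeval_eq_eval x) F
    rw [h2]
    exact hF) S₂).2
  rw [bc_self] at h
  rw [Sp, Finset.sum_disjSum, h, cnt]
  have h1 : ∑ v ∈ S₂, wt (Sum.inr v : Pl k) * lam (av (Sum.inr v)) d F x =
      ∑ v ∈ S₂, lam (fv v) d F x := Finset.sum_congr rfl fun v _ => one_mul _
  rw [h1]
  have h2 : ∑ w : InfinitePlace k, wt (Sum.inl w : Pl k) * lam (av (Sum.inl w)) d F x =
      ∑ w : InfinitePlace k, (w.mult : ℝ) * lam w.1 d F x := rfl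
  rw [h2]
  ring

/-- the inequality for the counting functions -/
theorem cons1 {n m q r : ℕ} (G : Fin m → MvPolynomial (Fin n) k)
    (F : Fin q → MvPolynomial (Fin n) k) (d : Fin q → ℕ) (hd : ∀ i, 0 < d i) (c : ℝ)
    (hI : Ineq r G F d c)
    (S₂ : Finset (HeightOneSpectrum (𝓞 k))) (ε : ℝ) (hε : 0 < ε) :
    ∃ (t : ℕ) (Z : Finset (MvPolynomial (Fin n) k)) (C : ℝ),
      (∀ Φ ∈ Z, Φ.IsHomogeneous t ∧ Φ ∉ Ideal.span (Set.range G)) ∧
      ∀ x : Fin n → k, x ≠ 0 → (∀ j, eval x (G j) = 0) → (∀ i, eval x (F i) ≠ 0) →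
        (∀ Φ ∈ Z, eval x Φ ≠ 0) →
        ∀ τ : Pl k → Fin r → Fin q, (∀ v, Function.Injective (τ v)) → ∀ μ : Pl k → ℝ,
          (∀ v ∈ Sp S₂, ∀ j, μ v ≤ lam (av v) (d (τ v j)) (F (τ v j)) x) →
          ((q : ℝ) - r - 1) * logHeight x + c * ∑ v ∈ Sp S₂, wt v * μ v ≤
            ∑ i, cnt S₂ (d i) (F i) x / d i + ε * logHeight x + C := by
  obtain ⟨t, Z, C, hZ, hC⟩ := hI (Sp S₂) ε hε
  refine ⟨t, Z, C, hZ, fun x hx hxG hxF hxZ τ hτ μ hμ => ?_⟩
  have h1 := hC x hx hxG hxF hxZ τ hτ μ hμ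
  have h2 : ∑ v ∈ Sp S₂, wt v * (∑ i, lam (av v) (d i) (F i) x / d i + c * μ v) =
      ∑ i, (∑ v ∈ Sp S₂, wt v * lam (av v) (d i) (F i) x) / d i + c * ∑ v ∈ Sp S₂, wt v * μ v := by
    simp only [mul_add, Finset.sum_add_distrib, Finset.mul_sum, Finset.sum_div]
    rw [Finset.sum_comm]
    congr 1
    · exact Finset.sum_congr rfl fun i _ => Finset.sum_congr rfl fun v _ => by ring
    · exact Finset.sum_congr rfl fun v _ => by ring
  have h3 : ∑ i, (∑ v ∈ Sp S₂, wt v * lam (av v) (d i) (F i) x) / d i =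
      q * logHeight x - ∑ i, cnt S₂ (d i) (F i) x / d i := by
    have h4 : ∀ i, (∑ v ∈ Sp S₂, wt v * lam (av v) (d i) (F i) x) / d i =
        logHeight x - cnt S₂ (d i) (F i) x / d i := by
      intro i
      have h5 : (d i : ℝ) ≠ 0 := by exact_mod_cast (hd i).ne'
      rw [fmtS (d i) (F i) hx (hxF i) S₂, sub_div, mul_div_assoc, mul_comm, div_mul_cancel₀ _ h5]
    rw [Finset.sum_congr rfl fun i _ => h4 i, Finset.sum_sub_distrib, Finset.sum_const,
      Finset.card_univ, Fintype.card_fin, nsmul_eq_mul]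
  rw [h2, h3] at h1
  linarith

/-- at most two places -/
theorem cons2 {n m q : ℕ} (hq : 3 ≤ q) (G : Fin m → MvPolynomial (Fin n) k)
    (F : Fin q → MvPolynomial (Fin n) k) (d : Fin q → ℕ) (hd : ∀ i, 0 < d i)
    (hF : ∀ i, (F i).IsHomogeneous (d i)) (c : ℝ)
    (hc : 0 < c) (hI : Ineq 2 G F d c)
    (S₂ : Finset (HeightOneSpectrum (𝓞 k))) (hS : (Sp S₂).card ≤ 2) (κ : ℝ) :
    ∃ (t : ℕ) (Z : Finset (MvPolynomial (Fin n) k)) (B : ℝ),
      (∀ Φ ∈ Z, Φ.IsHomogeneous t ∧ Φ ∉ Ideal.span (Set.range G)) ∧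
      ∀ x : Fin n → k, x ≠ 0 → (∀ j, eval x (G j) = 0) → (∀ i, eval x (F i) ≠ 0) →
        (∀ Φ ∈ Z, eval x Φ ≠ 0) →
        (∀ i, cnt S₂ (d i) (F i) x ≤ c / (4 * (c + q)) * logHeight x + κ) → logHeight x ≤ B := by
  classical
  obtain ⟨t, Z, C, hZ, hC⟩ := cons1 (r := 2) G F d hd c hI S₂ (c / 8) (by positivity)
  have hqR : (3 : ℝ) ≤ q := by exact_mod_cast hq
  set η : ℝ := c / (4 * (c + q)) with hη
  have hη0 : 0 < η := by positivity
  have hη1 : η * (c + q) = c / 4 := by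
    rw [hη]
    field_simp
  have hη2 : η < 1 := by
    rw [hη, div_lt_one (by positivity)]
    linarith
  set C0 : ℝ := ∑ v ∈ Sp S₂, wt v * ∑ i, Real.log (1 + cs (av v) (F i)) with hC0
  have hlog : ∀ (v : Pl k) (i : Fin q), 0 ≤ Real.log (1 + cs (av v) (F i)) := fun v i =>
    Real.log_nonneg (by linarith [cs_nonneg (av v) (F i)])
  have hC00 : 0 ≤ C0 := Finset.sum_nonneg fun v _ => mul_nonneg (wt_nonneg v)
    (Finset.sum_nonneg fun i _ => hlog v i)
  refine ⟨t, Z, |κ| / (1 - η) + (8 / c) * (c * (|κ| / 2 + C0) + q * |κ| + |C|), hZ, ?_⟩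
  intro x hx hxG hxF hxZ hN
  set h := logHeight x with hh
  have hh0 : 0 ≤ h := logHeight_nonneg x
  have hκ := le_abs_self κ
  have hκ0 := abs_nonneg κ
  have h1η : 0 < 1 - η := by linarith
  by_cases hsmall : (1 - η) * h - |κ| < 0
  · have h1 : h ≤ |κ| / (1 - η) := by
      rw [le_div_iff₀ h1η]
      linarith
    have h2 : 0 ≤ (8 / c) * (c * (|κ| / 2 + C0) + q * |κ| + |C|) := by positivity
    linarith
  push Not at hsmall
  -- the place where the component is near
  set A : ℝ := ((1 - η) * h - |κ|) / 2 with hA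
  have hA0 : 0 ≤ A := by positivity
  have hplace : ∀ i : Fin q, ∃ v ∈ Sp S₂, A ≤ wt v * lam (av v) (d i) (F i) x := by
    intro i
    by_contra hcon
    push Not at hcon
    have h1 := fmtS (d i) (F i) hx (hxF i) S₂
    have h2 := hN i
    have hdi : (1 : ℝ) ≤ d i := by exact_mod_cast hd i
    have hne : (Sp S₂).Nonempty := by
      obtain ⟨w⟩ : Nonempty (InfinitePlace k) := inferInstance
      exact ⟨Sum.inl w, Finset.inl_mem_disjSum.2 (Finset.mem_univ w)⟩
    have h3 : ∑ v ∈ Sp S₂, wt v * lam (av v) (d i) (F i) x < ∑ _v ∈ Sp S₂, A :=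
      Finset.sum_lt_sum_of_nonempty hne hcon
    rw [Finset.sum_const, nsmul_eq_mul] at h3
    have h4 : ((Sp S₂).card : ℝ) * A ≤ 2 * A :=
      mul_le_mul_of_nonneg_right (by exact_mod_cast hS) hA0
    have h5 : h ≤ d i * h := by nlinarith
    rw [hA] at h3 h4
    nlinarith
  choose pv hpv hpvA using hplace
  -- three components and two places
  obtain ⟨i, j, hij, hpij⟩ : ∃ i j : Fin 3, i ≠ j ∧
      pv (Fin.castLE hq i) = pv (Fin.castLE hq j) := by
    by_contra hcon
    push Not at hcon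
    have hinj : Function.Injective fun i : Fin 3 => pv (Fin.castLE hq i) := by
      intro i j hij
      by_contra hne
      exact hcon i j hne hij
    have h1 : (Finset.univ.image fun i : Fin 3 => pv (Fin.castLE hq i)) ⊆ Sp S₂ := by
      intro v hv
      obtain ⟨i, -, rfl⟩ := Finset.mem_image.1 hv
      exact hpv _
    have h2 := Finset.card_le_card h1
    rw [Finset.card_image_of_injective _ hinj, Finset.card_univ, Fintype.card_fin] at h2
    omega
  set a := Fin.castLE hq i with ha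
  set b := Fin.castLE hq j with hb
  have hab : a ≠ b := fun h => hij (Fin.castLE_injective hq h)
  set v0 := pv a with hv0
  have hτ : Function.Injective (![a, b] : Fin 2 → Fin q) := by
    intro s t hst
    fin_cases s <;> fin_cases t
    · rfl
    · exact absurd hst hab
    · exact absurd hst.symm hab
    · rfl
  set μ : Pl k → ℝ := fun v => min (lam (av v) (d a) (F a) x) (lam (av v) (d b) (F b) x) with hμ
  have h1 := hC x hx hxG hxF hxZ (fun _ => ![a, b]) (fun _ => hτ) μ (by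
    intro v _ s
    fin_cases s
    · exact min_le_left _ _
    · exact min_le_right _ _)
  -- the lower bound
  have hlow : ∀ v, - (∑ i, Real.log (1 + cs (av v) (F i))) ≤ μ v := by
    intro v
    have h2 : ∀ i, - (∑ i, Real.log (1 + cs (av v) (F i))) ≤ lam (av v) (d i) (F i) x := by
      intro i
      have h3 := lam_low (av v) hx (hF i) (hxF i)
      have h4 : Real.log (1 + cs (av v) (F i)) ≤ ∑ i, Real.log (1 + cs (av v) (F i)) :=
        Finset.single_le_sum (f := fun i => Real.log (1 + cs (av v) (F i)))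
          (fun i _ => hlog v i) (Finset.mem_univ i)
      linarith
    exact le_min (h2 a) (h2 b)
  have hv0A : A ≤ wt v0 * μ v0 := by
    rw [hμ]
    simp only
    rw [mul_min_of_nonneg _ _ (wt_nonneg v0)]
    refine le_min (hpvA a) ?_
    rw [hpij]
    exact hpvA b
  have hv0S : v0 ∈ Sp S₂ := hpv a
  have h2 : A - C0 ≤ ∑ v ∈ Sp S₂, wt v * μ v := by
    rw [← Finset.add_sum_erase _ _ hv0S]
    have h3 : -C0 ≤ ∑ v ∈ (Sp S₂).erase v0, wt v * μ v := by
      have h4 : ∑ v ∈ (Sp S₂).erase v0, wt v * ∑ i, Real.log (1 + cs (av v) (F i)) ≤ C0 := by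
        rw [hC0]
        exact Finset.sum_le_sum_of_subset_of_nonneg (Finset.erase_subset _ _) fun v _ _ =>
          mul_nonneg (wt_nonneg v) (Finset.sum_nonneg fun i _ => hlog v i)
      have h5 : -∑ v ∈ (Sp S₂).erase v0, wt v * ∑ i, Real.log (1 + cs (av v) (F i)) ≤
          ∑ v ∈ (Sp S₂).erase v0, wt v * μ v := by
        rw [← Finset.sum_neg_distrib]
        refine Finset.sum_le_sum fun v _ => ?_
        rw [← mul_neg]
        exact mul_le_mul_of_nonneg_left (hlow v) (wt_nonneg v)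
      linarith
    linarith
  have h3 : ∑ i, cnt S₂ (d i) (F i) x / d i ≤ q * (η * h + |κ|) := by
    have h4 : ∀ i ∈ (Finset.univ : Finset (Fin q)), cnt S₂ (d i) (F i) x / d i ≤ η * h + |κ| := by
      intro i _
      have hdi : (1 : ℝ) ≤ d i := by exact_mod_cast hd i
      rw [div_le_iff₀ (by linarith)]
      have h5 := hN i
      have h6 : 0 ≤ η * h + |κ| := by positivity
      nlinarith
    have h5 := Finset.sum_le_sum h4
    rw [Finset.sum_const, Finset.card_univ, Fintype.card_fin, nsmul_eq_mul] at h5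
    exact h5
  have h4 : c * (A - C0) ≤ c * ∑ v ∈ Sp S₂, wt v * μ v := mul_le_mul_of_nonneg_left h2 hc.le
  have h5 : 0 ≤ ((q : ℝ) - 2 - 1) * h := mul_nonneg (by linarith) hh0
  have hC' := le_abs_self C
  rw [← hh, Nat.cast_ofNat] at h1
  have h6 : c * (A - C0) ≤ q * (η * h + |κ|) + c / 8 * h + |C| := by
    linarith
  rw [hA] at h6
  have h7 : c / 8 * h ≤ c * (|κ| / 2 + C0) + q * |κ| + |C| := by
    have e1 : η * (c + q) * h = c / 4 * h := by rw [hη1]
    have e2 : 0 ≤ c * η * h := by positivity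
    linarith
  have h8 : h ≤ (8 / c) * (c * (|κ| / 2 + C0) + q * |κ| + |C|) := by
    have e1 : (8 / c) * (c / 8 * h) = h := by field_simp
    rw [← e1]
    exact mul_le_mul_of_nonneg_left h7 (by positivity)
  have h9 : 0 ≤ |κ| / (1 - η) := by positivity
  linarith

end Pool.Agent.R404.TC
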